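import Pool.Agent.H52.TF.Trans

/-!
# Bounded generation of `SL_n(ℤ)`: bounded sets of products of elementary matrices
-/

set_option autoImplicit false
set_option linter.unusedSectionVars false

namespace Pool.Agent.H52.TF

open Matrix
open scoped Pointwise

variable {n : ℕ}

/-- elementary matrices -/
def el (i j : Fin n) (h : i ≠ j) (c : ℤ) : SpecialLinearGroup (Fin n) ℤ :=
  T (Pi.single i c) (Pi.single j 1) (by
    rw [single_dot, one_mul, Pi.single_eq_of_ne (Ne.symm h)])

/-- the set of the elementary matrices -/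
def El (n : ℕ) : Set (SpecialLinearGroup (Fin n) ℤ) :=
  {x | ∃ (i j : Fin n) (h : i ≠ j) (c : ℤ), x = el i j h c}

/-- bounded products of elementary matrices -/
def Bd (A : Set (SpecialLinearGroup (Fin n) ℤ)) : Prop := ∃ k : ℕ, A ⊆ El n ^ k

theorem el_mem (i j : Fin n) (h : i ≠ j) (c : ℤ) : el i j h c ∈ El n := ⟨i, j, h, c, rfl⟩

theorem el_zero (i j : Fin n) (h : i ≠ j) : el i j h 0 = 1 := by
  apply slext
  rw [el, T_coe, cone]
  simp

theorem el_inv (i j : Fin n) (h : i ≠ j) (c : ℤ) : (el i j h c)⁻¹ = el i j h (-c) := by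
  rw [el, T_inv]
  refine T_congr _ _ ?_
  rw [Pi.single_neg]

theorem one_mem_El (hn : 2 ≤ n) : (1 : SpecialLinearGroup (Fin n) ℤ) ∈ El n := by
  refine ⟨⟨0, by omega⟩, ⟨1, by omega⟩, ?_, 0, ?_⟩
  · intro h
    have := congrArg Fin.val h
    simp at this
  · rw [el_zero]

theorem Bd.mono {A B : Set (SpecialLinearGroup (Fin n) ℤ)} (h : Bd B) (hAB : A ⊆ B) : Bd A := by
  obtain ⟨k, hk⟩ := h
  exact ⟨k, hAB.trans hk⟩

theorem Bd.mul {A B : Set (SpecialLinearGroup (Fin n) ℤ)} (hA : Bd A) (hB : Bd B) :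
    Bd (A * B) := by
  obtain ⟨k, hk⟩ := hA
  obtain ⟨l, hl⟩ := hB
  exact ⟨k + l, by rw [pow_add]; exact Set.mul_subset_mul hk hl⟩

theorem pow_mono (hn : 2 ≤ n) {k l : ℕ} (h : k ≤ l) : El n ^ k ⊆ El n ^ l :=
  Set.pow_subset_pow_right (one_mem_El hn) h

theorem Bd.union (hn : 2 ≤ n) {A B : Set (SpecialLinearGroup (Fin n) ℤ)} (hA : Bd A)
    (hB : Bd B) : Bd (A ∪ B) := by
  obtain ⟨k, hk⟩ := hA
  obtain ⟨l, hl⟩ := hB
  exact ⟨max k l, Set.union_subset (hk.trans (pow_mono hn (le_max_left _ _)))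
    (hl.trans (pow_mono hn (le_max_right _ _)))⟩

theorem Bd.one (hn : 2 ≤ n) : Bd ({1} : Set (SpecialLinearGroup (Fin n) ℤ)) :=
  ⟨1, by rw [pow_one, Set.singleton_subset_iff]; exact one_mem_El hn⟩

theorem Bd_El : Bd (El n) := ⟨1, by rw [pow_one]⟩

theorem Bd.inv {A : Set (SpecialLinearGroup (Fin n) ℤ)} (hA : Bd A) : Bd A⁻¹ := by
  obtain ⟨k, hk⟩ := hA
  refine ⟨k, ?_⟩
  have h1 : ∀ k : ℕ, ∀ x ∈ El n ^ k, x⁻¹ ∈ El n ^ k := by
    intro k
    induction k with
    | zero =>
      intro x hx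
      rw [pow_zero, Set.mem_one] at hx ⊢
      rw [hx, inv_one]
    | succ k ih =>
      intro x hx
      rw [pow_succ] at hx
      obtain ⟨y, hy, _, ⟨i, j, h, c, rfl⟩, rfl⟩ := hx
      rw [pow_succ']
      show (y * el i j h c)⁻¹ ∈ _
      rw [_root_.mul_inv_rev, el_inv]
      exact Set.mul_mem_mul (el_mem _ _ _ _) (ih y hy)
  intro x hx
  have := h1 k _ (hk hx)
  rwa [inv_inv] at this

/-- images under maps which preserve elementary matrices -/
theorem Bd.image {m : ℕ} {A : Set (SpecialLinearGroup (Fin n) ℤ)} (hA : Bd A)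
    (f : SpecialLinearGroup (Fin n) ℤ →* SpecialLinearGroup (Fin m) ℤ)
    (hf : ∀ x ∈ El n, f x ∈ El m) : Bd (f '' A) := by
  obtain ⟨k, hk⟩ := hA
  refine ⟨k, ?_⟩
  have h1 : ∀ k : ℕ, ∀ x ∈ El n ^ k, f x ∈ El m ^ k := by
    intro k
    induction k with
    | zero =>
      intro x hx
      rw [pow_zero, Set.mem_one] at hx ⊢
      rw [hx, map_one]
    | succ k ih =>
      intro x hx
      rw [pow_succ] at hx ⊢
      obtain ⟨y, hy, z, hz, rfl⟩ := hx
      show f (y * z) ∈ _
      rw [map_mul]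
      exact Set.mul_mem_mul (ih y hy) (hf z hz)
  rintro _ ⟨x, hx, rfl⟩
  exact h1 k x (hk hx)

theorem el_transpose (i j : Fin n) (h : i ≠ j) (c : ℤ) :
    (el i j h c).transpose = el j i (Ne.symm h) c := by
  apply slext
  show ((el i j h c : Matrix (Fin n) (Fin n) ℤ))ᵀ = _
  rw [el, el, T_coe, T_coe, transpose_add, transpose_one, transpose_vecMulVec]
  congr 1
  ext a b
  rw [vecMulVec_apply, vecMulVec_apply, Pi.single_apply, Pi.single_apply, Pi.single_apply,
    Pi.single_apply]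
  split_ifs <;> simp

theorem Bd.transpose {A : Set (SpecialLinearGroup (Fin n) ℤ)} (hA : Bd A) :
    Bd {x | x.transpose ∈ A} := by
  obtain ⟨k, hk⟩ := hA
  refine ⟨k, ?_⟩
  have h0 : ∀ x : SpecialLinearGroup (Fin n) ℤ, x.transpose.transpose = x := fun x =>
    slext (transpose_transpose _)
  have hmul : ∀ x y : SpecialLinearGroup (Fin n) ℤ,
      (x * y).transpose = y.transpose * x.transpose := fun x y =>
    slext (transpose_mul _ _)
  have h1 : ∀ k : ℕ, ∀ x ∈ El n ^ k, x.transpose ∈ El n ^ k := by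
    intro k
    induction k with
    | zero =>
      intro x hx
      rw [pow_zero, Set.mem_one] at hx ⊢
      rw [hx]
      exact slext transpose_one
    | succ k ih =>
      intro x hx
      rw [pow_succ] at hx
      obtain ⟨y, hy, _, ⟨i, j, h, c, rfl⟩, rfl⟩ := hx
      rw [pow_succ']
      show (y * el i j h c).transpose ∈ _
      rw [hmul, el_transpose]
      exact Set.mul_mem_mul (el_mem _ _ _ _) (ih y hy)
  intro x hx
  have := h1 k _ (hk hx)
  rwa [h0] at this

/-- column transvections are bounded -/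
theorem Bd_col (hn : 2 ≤ n) (j : Fin n) : Bd {x : SpecialLinearGroup (Fin n) ℤ |
    ∃ (u : Fin n → ℤ) (h : (Pi.single j 1 : Fin n → ℤ) ⬝ᵥ u = 0), x = T u (Pi.single j 1) h} := by
  classical
  refine ⟨n, ?_⟩
  rintro _ ⟨u, h, rfl⟩
  have huj : u j = 0 := by rwa [single_dot, one_mul] at h
  have key : ∀ (s : Finset (Fin n)) (hs : (Pi.single j 1 : Fin n → ℤ) ⬝ᵥ
      (∑ i ∈ s, Pi.single i (u i) : Fin n → ℤ) = 0),
      T (∑ i ∈ s, Pi.single i (u i)) (Pi.single j 1) hs ∈ El n ^ s.card := by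
    intro s
    induction s using Finset.induction_on with
    | empty =>
      intro hs
      rw [Finset.card_empty, pow_zero, Set.mem_one]
      apply slext
      rw [T_coe, Finset.sum_empty, zero_vecMulVec, add_zero, cone]
    | insert a s ha ih =>
      intro hs
      have hz : ∀ s : Finset (Fin n), (Pi.single j 1 : Fin n → ℤ) ⬝ᵥ
          (∑ i ∈ s, Pi.single i (u i) : Fin n → ℤ) = 0 := by
        intro s
        rw [single_dot, one_mul, Finset.sum_apply]
        refine Finset.sum_eq_zero fun i _ => ?_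
        by_cases hij : i = j
        · subst hij
          rw [Pi.single_eq_same, huj]
        · rw [Pi.single_eq_of_ne (Ne.symm hij)]
      rw [Finset.card_insert_of_notMem ha, pow_succ']
      by_cases haj : a = j
      · have e : T (∑ i ∈ insert a s, Pi.single i (u i)) (Pi.single j 1) hs =
            1 * T (∑ i ∈ s, Pi.single i (u i)) (Pi.single j 1) (hz s) := by
          rw [one_mul]
          refine T_congr _ _ ?_
          rw [Finset.sum_insert ha, haj, huj, Pi.single_zero, zero_add]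
        rw [e]
        exact Set.mul_mem_mul (one_mem_El hn) (ih _)
      · have e : T (∑ i ∈ insert a s, Pi.single i (u i)) (Pi.single j 1) hs =
            el a j haj (u a) * T (∑ i ∈ s, Pi.single i (u i)) (Pi.single j 1) (hz s) := by
          rw [el, T_add]
          refine T_congr _ _ ?_
          rw [Finset.sum_insert ha]
        rw [e]
        exact Set.mul_mem_mul (el_mem _ _ _ _) (ih _)
  have h1 : u = ∑ i ∈ (Finset.univ : Finset (Fin n)), Pi.single i (u i) :=
    (Finset.univ_sum_single u).symm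
  have h2 := key Finset.univ (by rw [← h1]; exact h)
  rw [Finset.card_univ, Fintype.card_fin] at h2
  have h3 : T u (Pi.single j 1) h =
      T (∑ i ∈ (Finset.univ : Finset (Fin n)), Pi.single i (u i)) (Pi.single j 1)
        (by rw [← h1]; exact h) := T_congr _ _ (by rw [← h1])
  rw [h3]
  exact h2

/-- row transvections are bounded -/
theorem Bd_row (hn : 2 ≤ n) (i : Fin n) : Bd {x : SpecialLinearGroup (Fin n) ℤ |
    ∃ (ψ : Fin n → ℤ) (h : ψ ⬝ᵥ (Pi.single i 1 : Fin n → ℤ) = 0), x = T (Pi.single i 1) ψ h} := by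
  refine ((Bd_col hn i).transpose).mono ?_
  rintro _ ⟨ψ, h, rfl⟩
  refine ⟨ψ, by rw [dotProduct_comm]; exact h, ?_⟩
  apply slext
  show ((T (Pi.single i 1) ψ h : Matrix (Fin n) (Fin n) ℤ))ᵀ = _
  rw [T_coe, T_coe, transpose_add, transpose_one, transpose_vecMulVec]

end Pool.Agent.H52.TF
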