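import Pool.Agent.H52.TF.CK1

/-!
# Bounded generation: `SL_2` inside `SL_3`
-/

set_option autoImplicit false
set_option linter.unusedSectionVars false

namespace Pool.Agent.H52.TF

open Matrix
open scoped Pointwise

section up

variable {n : ℕ}

/-- the block matrix `1 ⊕ A` -/
def upM (A : Matrix (Fin n) (Fin n) ℤ) : Matrix (Fin (n + 1)) (Fin (n + 1)) ℤ :=
  fun i j => Fin.cases (Fin.cases (1 : ℤ) (fun _ => 0) j) (fun i' => Fin.cases (0 : ℤ)
    (fun j' => A i' j') j) i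

theorem upM_zz (A : Matrix (Fin n) (Fin n) ℤ) : upM A 0 0 = 1 := rfl

theorem upM_zs (A : Matrix (Fin n) (Fin n) ℤ) (j : Fin n) : upM A 0 j.succ = 0 := rfl

theorem upM_sz (A : Matrix (Fin n) (Fin n) ℤ) (i : Fin n) : upM A i.succ 0 = 0 := rfl

theorem upM_ss (A : Matrix (Fin n) (Fin n) ℤ) (i j : Fin n) : upM A i.succ j.succ = A i j := rfl

theorem upM_mul (A B : Matrix (Fin n) (Fin n) ℤ) : upM (A * B) = upM A * upM B := by
  ext i j
  rw [Matrix.mul_apply, Fin.sum_univ_succ]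
  refine Fin.cases ?_ (fun i' => ?_) i <;> refine Fin.cases ?_ (fun j' => ?_) j
  · simp [upM_zz, upM_zs]
  · simp [upM_zs, upM_zz]
  · simp [upM_sz, upM_zz]
  · simp [upM_sz, upM_ss, Matrix.mul_apply]

theorem upM_one : upM (1 : Matrix (Fin n) (Fin n) ℤ) = 1 := by
  ext i j
  refine Fin.cases ?_ (fun i' => ?_) i <;> refine Fin.cases ?_ (fun j' => ?_) j
  · rw [upM_zz, one_apply_eq]
  · rw [upM_zs, one_apply_ne (Fin.succ_ne_zero j').symm]
  · rw [upM_sz, one_apply_ne (Fin.succ_ne_zero i')]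
  · rw [upM_ss, one_apply, one_apply]
    by_cases h : i' = j'
    · rw [if_pos h, if_pos (by rw [h])]
    · rw [if_neg h, if_neg (fun h' => h (Fin.succ_injective _ h'))]

theorem det_upM (A : Matrix (Fin n) (Fin n) ℤ) : (upM A).det = A.det := by
  rw [det_succ_row_zero, Fin.sum_univ_succ]
  have h1 : ∑ i : Fin n, (-1 : ℤ) ^ (i.succ : ℕ) * upM A 0 i.succ *
      ((upM A).submatrix Fin.succ i.succ.succAbove).det = 0 := by
    refine Finset.sum_eq_zero fun i _ => ?_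
    rw [upM_zs, mul_zero, zero_mul]
  rw [h1, add_zero, upM_zz]
  have h2 : (upM A).submatrix Fin.succ (Fin.succAbove 0) = A := by
    ext i j
    rw [submatrix_apply, Fin.succAbove_zero, upM_ss]
  rw [h2]
  simp

/-- the embedding of `SL_n` into `SL_{n+1}` -/
def up : SpecialLinearGroup (Fin n) ℤ →* SpecialLinearGroup (Fin (n + 1)) ℤ where
  toFun A := ⟨upM (A : Matrix (Fin n) (Fin n) ℤ), by rw [det_upM]; exact A.2⟩
  map_one' := slext upM_one
  map_mul' A B := slext (upM_mul _ _)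

theorem up_coe (A : SpecialLinearGroup (Fin n) ℤ) :
    (up A : Matrix (Fin (n + 1)) (Fin (n + 1)) ℤ) = upM (A : Matrix (Fin n) (Fin n) ℤ) := rfl

theorem up_el (i j : Fin n) (h : i ≠ j) (c : ℤ) :
    up (el i j h c) = el i.succ j.succ (fun h' => h (Fin.succ_injective _ h')) c := by
  apply slext
  rw [up_coe, el, el, T_coe, T_coe]
  have hs : ∀ (k l : Fin n) (c : ℤ), (Pi.single k.succ c : Fin (n + 1) → ℤ) l.succ =
      (Pi.single k c : Fin n → ℤ) l := by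
    intro k l c
    rw [Pi.single_apply, Pi.single_apply]
    by_cases h : l = k
    · rw [if_pos h, if_pos (by rw [h])]
    · rw [if_neg h, if_neg (fun h' => h (Fin.succ_injective _ h'))]
  have hs0 : ∀ (k : Fin n) (c : ℤ), (Pi.single k.succ c : Fin (n + 1) → ℤ) 0 = 0 := by
    intro k c
    rw [Pi.single_apply, if_neg (Fin.succ_ne_zero k).symm]
  ext a b
  refine Fin.cases ?_ (fun a' => ?_) a <;> refine Fin.cases ?_ (fun b' => ?_) b
  · rw [upM_zz, Matrix.add_apply, vecMulVec_apply, hs0, zero_mul, add_zero, one_apply_eq]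
  · rw [upM_zs, Matrix.add_apply, vecMulVec_apply, hs0, zero_mul, add_zero,
      one_apply_ne (Fin.succ_ne_zero b').symm]
  · rw [upM_sz, Matrix.add_apply, vecMulVec_apply, hs0, mul_zero, add_zero,
      one_apply_ne (Fin.succ_ne_zero a')]
  · rw [upM_ss, Matrix.add_apply, Matrix.add_apply, vecMulVec_apply, vecMulVec_apply, hs, hs,
      one_apply, one_apply]
    by_cases h : a' = b'
    · rw [if_pos h, if_pos (by rw [h])]
    · rw [if_neg h, if_neg (fun h' => h (Fin.succ_injective _ h'))]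

theorem up_El (x : SpecialLinearGroup (Fin n) ℤ) (hx : x ∈ El n) : up x ∈ El (n + 1) := by
  obtain ⟨i, j, h, c, rfl⟩ := hx
  rw [up_el]
  exact el_mem _ _ _ _

end up

/-! ### `SL_2` and `SL_3` -/

abbrev S2 : Type := SpecialLinearGroup (Fin 2) ℤ
abbrev S3 : Type := SpecialLinearGroup (Fin 3) ℤ

/-- bounded in `SL_3` -/
def BB (A : Set S2) : Prop := Bd (n := 3) (up '' A)

theorem BB.mono {A B : Set S2} (h : BB B) (hAB : A ⊆ B) : BB A :=
  Bd.mono h (Set.image_mono hAB)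

theorem BB.mul {A B : Set S2} (hA : BB A) (hB : BB B) : BB (A * B) := by
  rw [BB, Set.image_mul]
  exact Bd.mul hA hB

theorem BB.inv {A : Set S2} (hA : BB A) : BB A⁻¹ := by
  refine (Bd.inv hA).mono ?_
  rintro _ ⟨x, hx, rfl⟩
  exact ⟨x⁻¹, hx, by rw [map_inv]⟩

theorem BB.union {A B : Set S2} (hA : BB A) (hB : BB B) : BB (A ∪ B) := by
  rw [BB, Set.image_union]
  exact Bd.union (by norm_num) hA hB

theorem BB.transpose {A : Set S2} (hA : BB A) : BB {x | x.transpose ∈ A} := by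
  refine (Bd.transpose hA).mono ?_
  rintro _ ⟨x, hx, rfl⟩
  refine ⟨x.transpose, hx, ?_⟩
  apply slext
  ext i j
  show upM _ i j = upM _ j i
  refine Fin.cases ?_ (fun i' => ?_) i <;> refine Fin.cases ?_ (fun j' => ?_) j
  · rfl
  · rfl
  · rfl
  · rfl

theorem BB_El : BB (El 2) := (Bd_El (n := 3)).mono (by
  rintro _ ⟨x, hx, rfl⟩
  exact up_El x hx)

theorem BB_El_pow (k : ℕ) : BB (El 2 ^ k) := by
  induction k with
  | zero =>
    rw [pow_zero]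
    refine (Bd.one (n := 3) (by norm_num)).mono ?_
    rintro _ ⟨x, hx, rfl⟩
    rw [Set.mem_one] at hx
    rw [hx, map_one]
    rfl
  | succ k ih =>
    rw [pow_succ]
    exact ih.mul BB_El

theorem BB_singleton {x : S2} (k : ℕ) (hx : x ∈ El 2 ^ k) : BB {x} :=
  (BB_El_pow k).mono (Set.singleton_subset_iff.2 hx)

/-- lower and upper unipotent matrices -/
def Lo (t : ℤ) : S2 := el 1 0 (by decide) t
def Up (t : ℤ) : S2 := el 0 1 (by decide) t

theorem Lo_coe (t : ℤ) : (Lo t : Matrix (Fin 2) (Fin 2) ℤ) = !![1, 0; t, 1] := by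
  ext i j
  fin_cases i <;> fin_cases j <;> simp [Lo, el, T_coe, vecMulVec_apply]

theorem Up_coe (t : ℤ) : (Up t : Matrix (Fin 2) (Fin 2) ℤ) = !![1, t; 0, 1] := by
  ext i j
  fin_cases i <;> fin_cases j <;> simp [Up, el, T_coe, vecMulVec_apply]

theorem Lo_mem (t : ℤ) : Lo t ∈ El 2 := el_mem _ _ _ _
theorem Up_mem (t : ℤ) : Up t ∈ El 2 := el_mem _ _ _ _

/-- the matrix with the given entries -/
def mk2 (a b c d : ℤ) (h : a * d - b * c = 1) : S2 := ⟨!![a, b; c, d], by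
  rw [det_fin_two_of, h]⟩

theorem mk2_coe (a b c d : ℤ) (h : a * d - b * c = 1) :
    (mk2 a b c d h : Matrix (Fin 2) (Fin 2) ℤ) = !![a, b; c, d] := rfl

theorem exists_mk2 (A : S2) : ∃ (a b c d : ℤ) (h : a * d - b * c = 1), A = mk2 a b c d h := by
  have h := A.2
  rw [det_fin_two] at h
  refine ⟨A.1 0 0, A.1 0 1, A.1 1 0, A.1 1 1, h, ?_⟩
  apply slext
  exact eta_fin_two _

/-- two matrices with the same first row -/
theorem same_row (a b c d c' d' : ℤ) (h : a * d - b * c = 1) (h' : a * d' - b * c' = 1) :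
    mk2 a b c' d' h' = Lo (c' * d - d' * c) * mk2 a b c d h := by
  apply slext
  rw [cmul, Lo_coe, mk2_coe, mk2_coe, Matrix.mul_fin_two]
  congr 1
  ext i j
  fin_cases i <;> fin_cases j
  · simp
  · simp
  · simp
    linear_combination (-c') * h + c * h'
  · simp
    linear_combination (-d') * h + d * h'

theorem mul_Lo (a b c d : ℤ) (h : a * d - b * c = 1) (t : ℤ) :
    mk2 a b c d h * Lo t = mk2 (a + b * t) b (c + d * t) d (by linear_combination h) := by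
  apply slext
  rw [cmul, Lo_coe, mk2_coe, mk2_coe, Matrix.mul_fin_two]
  simp

theorem mul_Up (a b c d : ℤ) (h : a * d - b * c = 1) (t : ℤ) :
    mk2 a b c d h * Up t = mk2 a (a * t + b) c (c * t + d) (by linear_combination h) := by
  apply slext
  rw [cmul, Up_coe, mk2_coe, mk2_coe, Matrix.mul_fin_two]
  simp

theorem Lo_mul (a b c d : ℤ) (h : a * d - b * c = 1) (t : ℤ) :
    Lo t * mk2 a b c d h = mk2 a b (t * a + c) (t * b + d) (by linear_combination h) := by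
  apply slext
  rw [cmul, Lo_coe, mk2_coe, mk2_coe, Matrix.mul_fin_two]
  simp

/-- the Weyl element -/
def Sw : S2 := mk2 0 (-1) 1 0 (by norm_num)

theorem Sw_mem : Sw ∈ El 2 ^ 3 := by
  have : Sw = Up (-1) * Lo 1 * Up (-1) := by
    apply slext
    rw [cmul, cmul, Up_coe, Lo_coe, Sw, mk2_coe, Matrix.mul_fin_two, Matrix.mul_fin_two]
    norm_num
  rw [this, pow_succ, pow_succ, pow_one]
  exact Set.mul_mem_mul (Set.mul_mem_mul (Up_mem _) (Lo_mem _)) (Up_mem _)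

theorem Sw_inv_mem : Sw⁻¹ ∈ El 2 ^ 3 := by
  have : Sw⁻¹ = Up 1 * Lo (-1) * Up 1 := by
    rw [inv_eq_iff_mul_eq_one]
    apply slext
    rw [cmul, cmul, cmul, Up_coe, Lo_coe, Sw, mk2_coe, Matrix.mul_fin_two, Matrix.mul_fin_two,
      Matrix.mul_fin_two, cone, Matrix.one_fin_two]
    norm_num
  rw [this, pow_succ, pow_succ, pow_one]
  exact Set.mul_mem_mul (Set.mul_mem_mul (Up_mem _) (Lo_mem _)) (Up_mem _)

theorem mul_Sw (a b c d : ℤ) (h : a * d - b * c = 1) :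
    mk2 a b c d h * Sw = mk2 b (-a) d (-c) (by linear_combination h) := by
  apply slext
  rw [cmul, Sw, mk2_coe, mk2_coe, mk2_coe, Matrix.mul_fin_two]
  simp

/-! explicit matrices of size three -/

theorem up_mk2 (a b c d : ℤ) (h : a * d - b * c = 1) :
    (up (mk2 a b c d h) : Matrix (Fin 3) (Fin 3) ℤ) = !![1, 0, 0; 0, a, b; 0, c, d] := by
  ext i j
  fin_cases i <;> fin_cases j <;> rfl

theorem el3 (i j : Fin 3) (h : i ≠ j) (c : ℤ) :
    (el i j h c : Matrix (Fin 3) (Fin 3) ℤ) = 1 + vecMulVec (Pi.single i c) (Pi.single j 1) := rfl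

theorem el02 (c : ℤ) : (el (0 : Fin 3) 2 (by decide) c : Matrix (Fin 3) (Fin 3) ℤ) =
    !![1, 0, c; 0, 1, 0; 0, 0, 1] := by
  ext i j
  fin_cases i <;> fin_cases j <;> simp [el3, vecMulVec_apply]

theorem el20 (c : ℤ) : (el (2 : Fin 3) 0 (by decide) c : Matrix (Fin 3) (Fin 3) ℤ) =
    !![1, 0, 0; 0, 1, 0; c, 0, 1] := by
  ext i j
  fin_cases i <;> fin_cases j <;> simp [el3, vecMulVec_apply]

theorem el01 (c : ℤ) : (el (0 : Fin 3) 1 (by decide) c : Matrix (Fin 3) (Fin 3) ℤ) =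
    !![1, c, 0; 0, 1, 0; 0, 0, 1] := by
  ext i j
  fin_cases i <;> fin_cases j <;> simp [el3, vecMulVec_apply]

theorem el10 (c : ℤ) : (el (1 : Fin 3) 0 (by decide) c : Matrix (Fin 3) (Fin 3) ℤ) =
    !![1, 0, 0; c, 1, 0; 0, 0, 1] := by
  ext i j
  fin_cases i <;> fin_cases j <;> simp [el3, vecMulVec_apply]

theorem el12 (c : ℤ) : (el (1 : Fin 3) 2 (by decide) c : Matrix (Fin 3) (Fin 3) ℤ) =
    !![1, 0, 0; 0, 1, c; 0, 0, 1] := by
  ext i j
  fin_cases i <;> fin_cases j <;> simp [el3, vecMulVec_apply]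

theorem el21 (c : ℤ) : (el (2 : Fin 3) 1 (by decide) c : Matrix (Fin 3) (Fin 3) ℤ) =
    !![1, 0, 0; 0, 1, 0; 0, c, 1] := by
  ext i j
  fin_cases i <;> fin_cases j <;> simp [el3, vecMulVec_apply]

/-- the cyclic permutation of the coordinates -/
def Pc : S3 := (el 0 1 (by decide) (-1) * el 1 0 (by decide) 1 * el 0 1 (by decide) (-1)) *
  (el 1 2 (by decide) (-1) * el 2 1 (by decide) 1 * el 1 2 (by decide) (-1))

theorem Pc_coe : (Pc : Matrix (Fin 3) (Fin 3) ℤ) = !![0, 0, 1; 1, 0, 0; 0, 1, 0] := by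
  rw [Pc, cmul, cmul, cmul, cmul, cmul, el01, el10, el12, el21, Matrix.mul_fin_three,
    Matrix.mul_fin_three, Matrix.mul_fin_three, Matrix.mul_fin_three, Matrix.mul_fin_three]
  norm_num

theorem Pc_inv_coe : ((Pc⁻¹ : S3) : Matrix (Fin 3) (Fin 3) ℤ) =
    !![0, 1, 0; 0, 0, 1; 1, 0, 0] := by
  have h1 := coe_mul_inv Pc
  rw [Pc_coe] at h1
  have h2 : (!![0, 1, 0; 0, 0, 1; 1, 0, 0] : Matrix (Fin 3) (Fin 3) ℤ) *
      !![0, 0, 1; 1, 0, 0; 0, 1, 0] = 1 := by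
    rw [Matrix.mul_fin_three, Matrix.one_fin_three]
    norm_num
  calc ((Pc⁻¹ : S3) : Matrix (Fin 3) (Fin 3) ℤ)
      = (!![0, 1, 0; 0, 0, 1; 1, 0, 0] * !![0, 0, 1; 1, 0, 0; 0, 1, 0]) *
        ((Pc⁻¹ : S3) : Matrix (Fin 3) (Fin 3) ℤ) := by rw [h2, one_mul]
    _ = _ := by rw [Matrix.mul_assoc, h1, mul_one]

theorem Pc_mem : Pc ∈ El 3 ^ 6 := by
  have e : El 3 ^ 6 = (El 3 * El 3 * El 3) * (El 3 * El 3 * El 3) := by
    rw [show (6 : ℕ) = 3 + 3 from rfl, pow_add, pow_succ, pow_succ, pow_one]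
  rw [e]
  exact Set.mul_mem_mul (Set.mul_mem_mul (Set.mul_mem_mul (el_mem _ _ _ _) (el_mem _ _ _ _))
    (el_mem _ _ _ _)) (Set.mul_mem_mul (Set.mul_mem_mul (el_mem _ _ _ _) (el_mem _ _ _ _))
    (el_mem _ _ _ _))

/-- the Weyl element in the coordinates `0`, `2` -/
def W02 : S3 := el 0 2 (by decide) (-1) * el 2 0 (by decide) 1 * el 0 2 (by decide) (-1)

theorem W02_coe : (W02 : Matrix (Fin 3) (Fin 3) ℤ) = !![0, 0, -1; 0, 1, 0; 1, 0, 0] := by
  rw [W02, cmul, cmul, el02, el20, Matrix.mul_fin_three, Matrix.mul_fin_three]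
  norm_num

theorem W02_mem : W02 ∈ El 3 ^ 3 := by
  have e : El 3 ^ 3 = El 3 * El 3 * El 3 := by
    rw [pow_succ, pow_succ, pow_one]
  rw [e]
  exact Set.mul_mem_mul (Set.mul_mem_mul (el_mem _ _ _ _) (el_mem _ _ _ _)) (el_mem _ _ _ _)

theorem mat3_ext {a₀ a₁ a₂ a₃ a₄ a₅ a₆ a₇ a₈ b₀ b₁ b₂ b₃ b₄ b₅ b₆ b₇ b₈ : ℤ} (h₀ : a₀ = b₀)
    (h₁ : a₁ = b₁) (h₂ : a₂ = b₂) (h₃ : a₃ = b₃) (h₄ : a₄ = b₄) (h₅ : a₅ = b₅) (h₆ : a₆ = b₆)
    (h₇ : a₇ = b₇) (h₈ : a₈ = b₈) :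
    (!![a₀, a₁, a₂; a₃, a₄, a₅; a₆, a₇, a₈] : Matrix (Fin 3) (Fin 3) ℤ) =
      !![b₀, b₁, b₂; b₃, b₄, b₅; b₆, b₇, b₈] := by
  rw [h₀, h₁, h₂, h₃, h₄, h₅, h₆, h₇, h₈]

/-- **The relation of Mennicke.** -/
theorem mennicke (a b₁ c₁ d₁ b₂ c₂ d₂ : ℤ) (h₁ : a * d₁ - b₁ * c₁ = 1)
    (h₂ : a * d₂ - b₂ * c₂ = 1) :
    up (mk2 a (b₁ * b₂) (-(c₁ * c₂)) (d₂ - b₂ * c₂ * d₁)
      (by linear_combination h₂ - b₂ * c₂ * h₁)) =
      W02 * el 0 2 (by decide) (-c₂) * up (mk2 a b₁ c₁ d₁ h₁) *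
        (Pc * up (mk2 a b₂ c₂ d₂ h₂ * Sw) * Pc⁻¹) * el 1 0 (by decide) b₁ *
        el 0 1 (by decide) c₁ * el 0 2 (by decide) (d₁ * b₂) := by
  apply slext
  rw [mul_Sw, cmul, cmul, cmul, cmul, cmul, cmul, cmul, cmul, W02_coe, el02, Pc_coe, Pc_inv_coe,
    up_mk2, up_mk2, up_mk2, el10, el01, el02]
  simp only [Matrix.mul_fin_three]
  refine mat3_ext ?_ ?_ ?_ ?_ ?_ ?_ ?_ ?_ ?_
  all_goals first
    | ring1
    | (linear_combination h₁)
    | (linear_combination (-1) * h₁)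
    | (linear_combination c₁ * h₁)
    | (linear_combination (-c₁) * h₁)
    | (linear_combination c₂ * h₁)
    | (linear_combination (-c₂) * h₁)
    | (linear_combination (d₁ * b₂) * h₁)
    | (linear_combination (-(d₁ * b₂)) * h₁)
    | (linear_combination (c₁ * c₂) * h₁)
    | (linear_combination (-(c₁ * c₂)) * h₁)
    | (linear_combination (b₂ * c₂ * d₁) * h₁)
    | (linear_combination (-(b₂ * c₂ * d₁)) * h₁)

theorem mk2_congr {a b c d a' b' c' d' : ℤ} (h : a * d - b * c = 1) (h' : a' * d' - b' * c' = 1)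
    (ha : a = a') (hb : b = b') (hc : c = c') (hd : d = d') : mk2 a b c d h = mk2 a' b' c' d' h' := by
  subst ha hb hc hd
  rfl

/-- products in the upper right entry -/
theorem BB.menn {A B : Set S2} (hA : BB A) (hB : BB B) :
    BB {C | ∃ (a b₁ c₁ d₁ b₂ c₂ d₂ c d : ℤ) (h₁ : a * d₁ - b₁ * c₁ = 1)
      (h₂ : a * d₂ - b₂ * c₂ = 1) (h : a * d - (b₁ * b₂) * c = 1), mk2 a b₁ c₁ d₁ h₁ ∈ A ∧
      mk2 a b₂ c₂ d₂ h₂ ∈ B ∧ C = mk2 a (b₁ * b₂) c d h} := by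
  have hW : Bd (n := 3) {W02} := ⟨3, Set.singleton_subset_iff.2 W02_mem⟩
  have hP : Bd (n := 3) {Pc} := ⟨6, Set.singleton_subset_iff.2 Pc_mem⟩
  have hP' : Bd (n := 3) {Pc⁻¹} := by
    have := hP.inv
    rwa [Set.inv_singleton] at this
  have hS : BB {Sw} := BB_singleton 3 Sw_mem
  have hE : Bd (El 3) := Bd_El
  refine ((((((((((hE.mul hW).mul hE).mul hA).mul hP).mul (hB.mul hS)).mul hP').mul hE).mul
    hE).mul hE)).mono ?_
  rintro _ ⟨_, ⟨a, b₁, c₁, d₁, b₂, c₂, d₂, c, d, h₁, h₂, h, hA', hB', rfl⟩, rfl⟩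
  rw [same_row a (b₁ * b₂) (-(c₁ * c₂)) (d₂ - b₂ * c₂ * d₁) c d
    (by linear_combination h₂ - b₂ * c₂ * h₁) h, map_mul, mennicke a b₁ c₁ d₁ b₂ c₂ d₂ h₁ h₂]
  set x := up (Lo (c * (d₂ - b₂ * c₂ * d₁) - d * -(c₁ * c₂)))
  have hx : x ∈ El 3 := up_El _ (Lo_mem _)
  have e : x * (W02 * el 0 2 (by decide) (-c₂) * up (mk2 a b₁ c₁ d₁ h₁) *
        (Pc * up (mk2 a b₂ c₂ d₂ h₂ * Sw) * Pc⁻¹) * el 1 0 (by decide) b₁ *
        el 0 1 (by decide) c₁ * el 0 2 (by decide) (d₁ * b₂)) =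
      x * W02 * el 0 2 (by decide) (-c₂) * up (mk2 a b₁ c₁ d₁ h₁) * Pc *
        up (mk2 a b₂ c₂ d₂ h₂ * Sw) * Pc⁻¹ * el 1 0 (by decide) b₁ *
        el 0 1 (by decide) c₁ * el 0 2 (by decide) (d₁ * b₂) := by
    simp only [mul_assoc]
  rw [e]
  exact Set.mul_mem_mul (Set.mul_mem_mul (Set.mul_mem_mul (Set.mul_mem_mul (Set.mul_mem_mul
    (Set.mul_mem_mul (Set.mul_mem_mul (Set.mul_mem_mul (Set.mul_mem_mul hx rfl)
    (el_mem _ _ _ _)) (Set.mem_image_of_mem _ hA')) rfl) (Set.mem_image_of_mem _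
    (Set.mul_mem_mul hB' rfl))) rfl) (el_mem _ _ _ _)) (el_mem _ _ _ _)) (el_mem _ _ _ _)

end Pool.Agent.H52.TF
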