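import Pool.Agent.H52.TF.CK2

/-!
# Bounded generation: the argument of Carter and Keller
-/

set_option autoImplicit false
set_option linter.unusedSectionVars false

namespace Pool.Agent.H52.TF

open Matrix
open scoped Pointwise

/-- the upper right entry divides the upper left entry plus or minus one -/
def UU : Set S2 := {B | ∃ (a b c d : ℤ) (h : a * d - b * c = 1), (b ∣ a - 1 ∨ b ∣ a + 1) ∧
  B = mk2 a b c d h}

theorem BB_UU : BB UU := by
  have hS : BB (El 2 ^ 3) := BB_El_pow 3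
  refine (((hS.mul hS).mul BB_El).mul (BB_El.mul BB_El) |>.union
    ((BB_El.mul BB_El).mul BB_El)).mono ?_
  rintro _ ⟨a, b, c, d, h, h' | h', rfl⟩
  · right
    obtain ⟨t, ht⟩ := h'
    have ha : a = 1 + b * t := by linear_combination ht
    have e : mk2 a b c d h = Lo (c - d * t) * Up b * Lo t := by
      have hd : d = 1 + (c - d * t) * b := by
        subst ha
        linear_combination h
      apply slext
      rw [cmul, cmul, Lo_coe, Up_coe, Lo_coe, mk2_coe, Matrix.mul_fin_two, Matrix.mul_fin_two]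
      ext i j
      fin_cases i <;> fin_cases j
      · simp
        linear_combination ha
      · simp
      · simp
        linear_combination t * hd
      · simp
        linear_combination hd
    rw [e]
    exact Set.mul_mem_mul (Set.mul_mem_mul (Lo_mem _) (Up_mem _)) (Lo_mem _)
  · left
    obtain ⟨t, ht⟩ := h'
    have ha : a = -1 + b * t := by linear_combination ht
    have e : mk2 a b c d h = Sw * Sw * Lo (-(c - d * t)) * (Up (-b) * Lo t) := by
      have hd : -d = 1 + (-(c - d * t)) * (-b) := by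
        subst ha
        linear_combination h
      apply slext
      rw [cmul, cmul, cmul, cmul, Lo_coe, Up_coe, Lo_coe, Sw, mk2_coe, mk2_coe,
        Matrix.mul_fin_two, Matrix.mul_fin_two, Matrix.mul_fin_two, Matrix.mul_fin_two]
      ext i j
      fin_cases i <;> fin_cases j
      · simp
        linear_combination ha
      · simp
      · simp
        linear_combination (-t) * hd
      · simp
        linear_combination (-1) * hd
    rw [e]
    exact Set.mul_mem_mul (Set.mul_mem_mul (Set.mul_mem_mul Sw_mem Sw_mem) (Lo_mem _))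
      (Set.mul_mem_mul (Up_mem _) (Lo_mem _))

/-- the upper right entry is a product of two such divisors -/
def UU2 : Set S2 := {B | ∃ (a x₁ x₂ c d : ℤ) (h : a * d - (x₁ * x₂) * c = 1),
  (x₁ ∣ a - 1 ∨ x₁ ∣ a + 1) ∧ (x₂ ∣ a - 1 ∨ x₂ ∣ a + 1) ∧ B = mk2 a (x₁ * x₂) c d h}

theorem BB_UU2 : BB UU2 := by
  refine (BB_UU.menn BB_UU).mono ?_
  rintro _ ⟨a, x₁, x₂, c, d, h, h₁, h₂, rfl⟩
  refine ⟨a, x₁, x₂ * c, d, x₂, x₁ * c, d, c, d, by linear_combination h, by linear_combination h,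
    h, ⟨a, x₁, x₂ * c, d, _, h₁, rfl⟩, ⟨a, x₂, x₁ * c, d, _, h₂, rfl⟩, rfl⟩

/-- the upper left entry divides the square of the upper right entry minus one -/
def VV : Set S2 := {B | ∃ (x y z w : ℤ) (h : x * w - y * z = 1), x ∣ (y - 1) * (y + 1) ∧
  B = mk2 x y z w h}

theorem BB_VV : BB VV := by
  refine (BB_UU2.mul (BB_El_pow 3)).mono ?_
  rintro _ ⟨x, y, z, w, h, h', rfl⟩
  obtain ⟨x₁, x₂, h₁, h₂, rfl⟩ := exists_dvd_and_dvd_of_dvd_mul h'
  have e : mk2 (x₁ * x₂) y z w h = (mk2 (x₁ * x₂) y z w h * Sw) * Sw⁻¹ := by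
    rw [mul_inv_cancel_right]
  rw [e]
  refine Set.mul_mem_mul ?_ Sw_inv_mem
  rw [mul_Sw]
  refine ⟨y, -x₁, x₂, w, -z, by linear_combination h, Or.inl ((neg_dvd).2 h₁), Or.inr h₂, ?_⟩
  refine mk2_congr _ _ rfl (by ring) rfl rfl

/-- Cayley-Hamilton -/
theorem pow_eq (a b c d : ℤ) (h : a * d - b * c = 1) (m : ℕ) : ∃ x y : ℤ,
    ((mk2 a b c d h ^ m : S2) : Matrix (Fin 2) (Fin 2) ℤ) =
      !![x + y * a, y * b; y * c, x + y * d] := by
  induction m with
  | zero =>
    refine ⟨1, 0, ?_⟩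
    rw [pow_zero, cone, Matrix.one_fin_two]
    simp
  | succ m ih =>
    obtain ⟨x, y, e⟩ := ih
    refine ⟨-y, x + (a + d) * y, ?_⟩
    rw [pow_succ, cmul, e, mk2_coe, Matrix.mul_fin_two]
    ext i j
    fin_cases i <;> fin_cases j
    · simp
      linear_combination (-y) * h
    · simp
      ring
    · simp
      ring
    · simp
      linear_combination (-y) * h

/-- the powers -/
def QP : Set S2 := {B | ∃ (a b c d : ℤ) (h : a * d - b * c = 1) (m : ℕ),
  (b ∣ a ^ m - 1 ∨ b ∣ a ^ m + 1) ∧ B = mk2 a b c d h ^ m}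

theorem pow_dvd (a b c d : ℤ) (h : a * d - b * c = 1) (m : ℕ) :
    b ∣ ((mk2 a b c d h ^ m : S2) : Matrix (Fin 2) (Fin 2) ℤ) 0 1 ∧
      b ∣ ((mk2 a b c d h ^ m : S2) : Matrix (Fin 2) (Fin 2) ℤ) 0 0 - a ^ m := by
  induction m with
  | zero =>
    rw [pow_zero, cone, one_apply_ne (by decide), one_apply_eq, pow_zero, sub_self]
    exact ⟨dvd_zero _, dvd_zero _⟩
  | succ m ih =>
    obtain ⟨⟨s, hs⟩, ⟨t, ht⟩⟩ := ih
    rw [pow_succ, cmul, Matrix.mul_apply, Matrix.mul_apply, Fin.sum_univ_two, Fin.sum_univ_two,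
      hs, mk2_coe]
    refine ⟨⟨((mk2 a b c d h ^ m : S2) : Matrix (Fin 2) (Fin 2) ℤ) 0 0 + s * d, ?_⟩,
      ⟨t * a + s * c, ?_⟩⟩
    · simp
      ring
    · simp
      rw [pow_succ]
      linear_combination a * ht

theorem BB_QP : BB QP := by
  refine ((BB_VV.mul BB_El).menn BB_UU).mono ?_
  rintro _ ⟨a, b, c, d, h, m, h', rfl⟩
  obtain ⟨x, y, e⟩ := pow_eq a b c d h m
  have hdet : ((mk2 a b c d h ^ m : S2) : Matrix (Fin 2) (Fin 2) ℤ).det = 1 :=
    (mk2 a b c d h ^ m).2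
  rw [e, det_fin_two_of] at hdet
  have hd : b ∣ (x + y * a) - a ^ m := by
    have := (pow_dvd a b c d h m).2
    rw [e] at this
    exact this
  refine ⟨x + y * a, y, y * b * c, x + y * d, b, y * y * c, x + y * d, y * c, x + y * d,
    by linear_combination hdet, by linear_combination hdet, by linear_combination hdet,
    ?_, ?_, ?_⟩
  · have e1 : mk2 (x + y * a) y (y * b * c) (x + y * d) (by linear_combination hdet) =
        mk2 x y (y * b * c - (x + y * d) * a) (x + y * d)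
          (by linear_combination hdet) * Lo a := by
      rw [mul_Lo]
      exact mk2_congr _ _ rfl rfl (by ring) rfl
    rw [e1]
    refine Set.mul_mem_mul ⟨x, y, _, _, _, ?_, rfl⟩ (Lo_mem _)
    refine ⟨-(x + y * (a + d)), ?_⟩
    linear_combination hdet + (-(y * y)) * h
  · refine ⟨x + y * a, b, y * y * c, x + y * d, _, ?_, rfl⟩
    rcases h' with h' | h'
    · left
      have := dvd_add hd h'
      have e : (x + y * a) - a ^ m + (a ^ m - 1) = x + y * a - 1 := by ring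
      rwa [e] at this
    · right
      have := dvd_add hd h'
      have e : (x + y * a) - a ^ m + (a ^ m + 1) = x + y * a + 1 := by ring
      rwa [e] at this
  · apply slext
    rw [mk2_coe, e]

/-! ### transposes and inverses -/

theorem mk2_transpose (a b c d : ℤ) (h : a * d - b * c = 1) :
    (mk2 a b c d h).transpose = mk2 a c b d (by linear_combination h) := by
  apply slext
  ext i j
  fin_cases i <;> fin_cases j <;> rfl

theorem transpose_pow (A : S2) (m : ℕ) : (A ^ m).transpose = A.transpose ^ m := by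
  induction m with
  | zero =>
    rw [pow_zero, pow_zero]
    exact slext transpose_one
  | succ m ih =>
    rw [pow_succ, pow_succ']
    have : (A ^ m * A).transpose = A.transpose * (A ^ m).transpose :=
      slext (transpose_mul _ _)
    rw [this, ih]

/-- the integral powers -/
theorem mem_QP_zpow (a b c d : ℤ) (h : a * d - b * c = 1) (m : ℕ) (k : ℤ)
    (hb : b ∣ a ^ m - 1 ∨ b ∣ a ^ m + 1) :
    mk2 a b c d h ^ ((m : ℤ) * k) ∈ QP ∪ QP⁻¹ := by
  have hpow : ∀ j : ℕ, b ∣ a ^ (m * j) - 1 ∨ b ∣ a ^ (m * j) + 1 := by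
    intro j
    rw [pow_mul]
    rcases hb with hb | hb
    · left
      have := sub_dvd_pow_sub_pow (a ^ m) 1 j
      rw [one_pow] at this
      exact hb.trans this
    · rcases Nat.even_or_odd j with hj | hj
      · left
        obtain ⟨s, rfl⟩ := hj
        have := sub_dvd_pow_sub_pow ((a ^ m) ^ 2) 1 s
        rw [one_pow, ← pow_mul (a ^ m) 2 s, two_mul] at this
        refine (hb.trans ?_).trans this
        exact ⟨a ^ m - 1, by ring⟩
      · right
        have := hj.add_dvd_pow_add_pow (a ^ m) 1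
        rw [one_pow] at this
        exact hb.trans this
  rcases Int.le_total 0 k with hk | hk
  · left
    obtain ⟨j, rfl⟩ := Int.eq_ofNat_of_zero_le hk
    refine ⟨a, b, c, d, h, m * j, hpow j, ?_⟩
    rw [← zpow_natCast]
    push_cast
    rfl
  · right
    obtain ⟨j, hj⟩ := Int.eq_ofNat_of_zero_le (neg_nonneg.2 hk)
    rw [Set.mem_inv, ← _root_.zpow_neg]
    refine ⟨a, b, c, d, h, m * j, hpow j, ?_⟩
    rw [← zpow_natCast, ← mul_neg, hj]
    push_cast
    rfl

/-- the transposed powers -/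
def QT : Set S2 := {x | x.transpose ∈ QP ∪ QP⁻¹}

theorem BB_QQ : BB (QP ∪ QP⁻¹) := BB_QP.union BB_QP.inv

theorem BB_QT : BB QT := BB_QQ.transpose

theorem mem_QT_zpow (a b c d : ℤ) (h : a * d - b * c = 1) (m : ℕ) (k : ℤ)
    (hb : c ∣ a ^ m - 1 ∨ c ∣ a ^ m + 1) :
    mk2 a b c d h ^ ((m : ℤ) * k) ∈ QT := by
  have h1 := mem_QP_zpow a c b d (by linear_combination h) m k hb
  rw [← mk2_transpose a b c d h] at h1
  show ((mk2 a b c d h ^ ((m : ℤ) * k))).transpose ∈ QP ∪ QP⁻¹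
  have h2 : ∀ (A : S2) (z : ℤ), (A ^ z).transpose = A.transpose ^ z := by
    intro A z
    have hinv : ∀ B : S2, (B⁻¹).transpose = (B.transpose)⁻¹ := by
      intro B
      rw [eq_inv_iff_mul_eq_one]
      have h3 : B.transpose = B.transpose := rfl
      have h4 : (B⁻¹).transpose * B.transpose = (B * B⁻¹).transpose :=
        (slext (transpose_mul _ _)).symm
      rw [h4, mul_inv_cancel]
      exact slext transpose_one
    rcases Int.le_total 0 z with hz | hz
    · obtain ⟨j, rfl⟩ := Int.eq_ofNat_of_zero_le hz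
      rw [zpow_natCast, zpow_natCast, transpose_pow]
    · obtain ⟨j, hj⟩ := Int.eq_ofNat_of_zero_le (neg_nonneg.2 hz)
      have : z = -(j : ℤ) := by rw [← hj, neg_neg]
      rw [this, _root_.zpow_neg, _root_.zpow_neg, zpow_natCast, zpow_natCast, hinv,
        transpose_pow]
  rw [h2]
  exact h1

/-! ### number theory -/

/-- Dirichlet's theorem -/
theorem dirichlet (a b : ℤ) (hb : b ≠ 0) (h : IsCoprime a b) (N : ℕ) :
    ∃ r : ℕ, r.Prime ∧ N < r ∧ ∃ t : ℤ, (r : ℤ) = a + b * t := by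
  have h1 : IsCoprime a (b.natAbs : ℤ) := by
    rcases Int.natAbs_eq b with h' | h'
    · rwa [← h']
    · have : ((b.natAbs : ℕ) : ℤ) = -b := by linarith
      rw [this]
      exact h.neg_right
  obtain ⟨p, hp, hpp, hpa⟩ := Nat.forall_exists_prime_gt_and_zmodEq N
    (Int.natAbs_ne_zero.2 hb) h1
  refine ⟨p, hpp, hp, ?_⟩
  have h2 : b ∣ (p : ℤ) - a := by
    have h3 := (Int.modEq_iff_dvd.1 hpa)
    have h4 : b ∣ a - (p : ℤ) := (Int.dvd_natAbs.2 (dvd_refl b)).trans h3
    have := (dvd_neg (α := ℤ)).2 h4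
    rwa [neg_sub] at this
  obtain ⟨t, ht⟩ := h2
  exact ⟨t, by linear_combination ht⟩

/-- Fermat -/
theorem half_power (p : ℕ) (hp : p.Prime) (r : ℤ) (hr : ¬ (p : ℤ) ∣ r) (u : ℕ)
    (hu : p = 2 * u + 1) : (p : ℤ) ∣ r ^ u - 1 ∨ (p : ℤ) ∣ r ^ u + 1 := by
  have hp' : Prime (p : ℤ) := Nat.prime_iff_prime_int.1 hp
  refine hp'.dvd_or_dvd ?_
  have h1 : (r ^ u - 1) * (r ^ u + 1) = r ^ (p - 1) - 1 := by
    rw [hu, Nat.add_sub_cancel, two_mul, pow_add]
    ring
  rw [h1]
  have h2 : IsCoprime r (p : ℤ) := by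
    rw [isCoprime_comm]
    exact (Prime.coprime_iff_not_dvd hp').2 hr
  exact (Int.modEq_iff_dvd.1 (Int.ModEq.pow_card_sub_one_eq_one hp h2).symm)

theorem Lo_neg_mul (t : ℤ) : Lo (-t) * Lo t = 1 := by
  apply slext
  rw [cmul, Lo_coe, Lo_coe, Matrix.mul_fin_two, cone, Matrix.one_fin_two]
  simp

theorem Lo_mul_neg (t : ℤ) : Lo t * Lo (-t) = 1 := by
  have := Lo_neg_mul (-t)
  rwa [neg_neg] at this

theorem Up_mul_neg (t : ℤ) : Up t * Up (-t) = 1 := by
  apply slext
  rw [cmul, Up_coe, Up_coe, Matrix.mul_fin_two, cone, Matrix.one_fin_two]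
  simp

/-- the essential case -/
theorem final_mem (r p q : ℕ) (d : ℤ) (h : (r : ℤ) * d - (p : ℤ) * (q : ℤ) = 1)
    (hp : p.Prime) (hq : q.Prime) (u v : ℕ) (hu : p = 2 * u + 1) (hv : q = 2 * v + 1)
    (huv : Nat.Coprime u v) : mk2 r p q d h ∈ (QP ∪ QP⁻¹) * QT := by
  obtain ⟨k, l, hkl⟩ := Nat.isCoprime_iff_coprime.2 huv
  have hpr : ¬ (p : ℤ) ∣ (r : ℤ) := by
    intro hd
    have h1 : (p : ℤ) ∣ 1 := by
      rw [← h]
      exact dvd_sub (hd.mul_right _) (dvd_mul_right _ _)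
    exact (Nat.prime_iff_prime_int.1 hp).not_dvd_one h1
  have hqr : ¬ (q : ℤ) ∣ (r : ℤ) := by
    intro hd
    have h1 : (q : ℤ) ∣ 1 := by
      rw [← h]
      exact dvd_sub (hd.mul_right _) (dvd_mul_left _ _)
    exact (Nat.prime_iff_prime_int.1 hq).not_dvd_one h1
  have e : mk2 r p q d h = mk2 r p q d h ^ ((u : ℤ) * k) * mk2 r p q d h ^ ((v : ℤ) * l) := by
    rw [← _root_.zpow_add, mul_comm (u : ℤ) k, mul_comm (v : ℤ) l, hkl, zpow_one]
  rw [e]
  exact Set.mul_mem_mul (mem_QP_zpow _ _ _ _ h u k (half_power p hp r hpr u hu))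
    (mem_QT_zpow _ _ _ _ h v l (half_power q hq r hqr v hv))

/-- **Carter-Keller:** `SL_2(ℤ)` is boundedly generated by the elementary matrices of `SL_3(ℤ)`. -/
theorem BB_univ : BB (Set.univ : Set S2) := by
  refine (BB_UU.union (((BB_El.mul (BB_QQ.mul BB_QT)).mul BB_El).mul BB_El)).mono ?_
  rintro A -
  obtain ⟨a, b, c, d, h, rfl⟩ := exists_mk2 A
  by_cases hb : b = 0
  · left
    refine ⟨a, b, c, d, h, ?_, rfl⟩
    subst hb
    have h1 : a * d = 1 := by linear_combination h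
    rcases Int.isUnit_iff.1 (IsUnit.of_mul_eq_one _ h1) with h2 | h2
    · left
      rw [h2]
      exact dvd_of_eq (by norm_num)
    · right
      rw [h2]
      exact dvd_of_eq (by norm_num)
  right
  have hcop : IsCoprime a b := ⟨d, -c, by linear_combination h⟩
  obtain ⟨r, hrp, hr2, t, ht⟩ := dirichlet a b hb hcop 2
  have hodd : Odd r := hrp.odd_of_ne_two (by omega)
  have h₁ : (r : ℤ) * d - b * (c + d * t) = 1 := by
    rw [ht]
    linear_combination h
  have e1 : mk2 a b c d h = mk2 r b (c + d * t) d h₁ * Lo (-t) := by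
    rw [mul_Lo]
    refine mk2_congr _ _ ?_ rfl (by ring) rfl
    rw [ht]
    ring
  set c' : ℤ := c + d * t with hc'
  -- the second prime
  have hr0 : (r : ℤ) ≠ 0 := by exact_mod_cast hrp.ne_zero
  obtain ⟨w, hw⟩ := hodd
  have hb4 : (b + (r : ℤ) * ((3 - b) * r)) = 3 + 4 * ((3 - b) * (w * w + w)) := by
    have : (r : ℤ) = 2 * w + 1 := by exact_mod_cast hw
    rw [this]
    ring
  have hcop2 : IsCoprime (b + (r : ℤ) * ((3 - b) * r)) (4 * (r : ℤ)) := by
    refine IsCoprime.mul_right ?_ ?_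
    · rw [hb4]
      have : IsCoprime (3 : ℤ) 4 := ⟨-1, 1, by norm_num⟩
      exact this.add_mul_left_left _
    · have : IsCoprime b (r : ℤ) := ⟨-c', d, by linear_combination h₁⟩
      exact this.add_mul_left_left _
  obtain ⟨p, hpp, -, t₂, ht₂⟩ := dirichlet _ (4 * (r : ℤ)) (mul_ne_zero (by norm_num) hr0) hcop2 0
  obtain ⟨u, hu, huodd⟩ : ∃ u : ℕ, p = 2 * u + 1 ∧ ¬ 2 ∣ u := by
    have h4 : (p : ℤ) = 3 + 4 * ((3 - b) * (w * w + w) + r * t₂) := by
      rw [ht₂, hb4]
      ring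
    refine ⟨p / 2, by omega, by omega⟩
  set s : ℤ := (3 - b) * r + 4 * t₂ with hs
  have hps : (p : ℤ) = r * s + b := by
    rw [ht₂, hs]
    ring
  have h₂ : (r : ℤ) * (c' * s + d) - (p : ℤ) * c' = 1 := by
    rw [hps]
    linear_combination h₁
  have e2 : mk2 r b c' d h₁ = mk2 r p c' (c' * s + d) h₂ * Up (-s) := by
    rw [mul_Up]
    refine mk2_congr _ _ rfl ?_ rfl ?_
    · rw [hps]
      ring
    · ring
  set d' : ℤ := c' * s + d with hd'
  -- the third prime
  have hu0 : u ≠ 0 := fun h0 => huodd (by rw [h0]; exact dvd_zero _)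
  obtain ⟨e, m', hm', hum⟩ := Nat.exists_eq_pow_mul_and_not_dvd hu0 r hrp.ne_one
  have hcop3 : IsCoprime (r : ℤ) (m' : ℤ) :=
    Nat.isCoprime_iff_coprime.2 ((Nat.Prime.coprime_iff_not_dvd hrp).2 hm')
  obtain ⟨x, y, hxy⟩ := hcop3
  have hm0 : (m' : ℤ) ≠ 0 := by
    intro h0
    apply hm'
    have : m' = 0 := by exact_mod_cast h0
    rw [this]
    exact dvd_zero _
  have hq₀ : c' + (r : ℤ) * (x * (-1 - c')) = -1 + (m' : ℤ) * (y * (1 + c')) := by
    linear_combination (-1 - c') * hxy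
  have hcop4 : IsCoprime (c' + (r : ℤ) * (x * (-1 - c'))) ((r : ℤ) * (m' : ℤ)) := by
    refine IsCoprime.mul_right ?_ ?_
    · have : IsCoprime c' (r : ℤ) := ⟨-p, d', by linear_combination h₂⟩
      exact this.add_mul_left_left _
    · rw [hq₀]
      have : IsCoprime (-1 : ℤ) (m' : ℤ) := ⟨-1, 0, by ring⟩
      exact this.add_mul_left_left _
  obtain ⟨q, hqp, hq2, t₃, ht₃⟩ := dirichlet _ ((r : ℤ) * (m' : ℤ)) (mul_ne_zero hr0 hm0) hcop4 2
  obtain ⟨v, hv⟩ := hqp.odd_of_ne_two (by omega)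
  set t₄ : ℤ := x * (-1 - c') + m' * t₃ with ht₄
  have hqt : (q : ℤ) = t₄ * r + c' := by
    rw [ht₃, ht₄]
    ring
  have h₃ : (r : ℤ) * (t₄ * p + d') - (p : ℤ) * (q : ℤ) = 1 := by
    rw [hqt]
    linear_combination h₂
  have e3 : mk2 r p c' d' h₂ = Lo (-t₄) * mk2 r p q (t₄ * p + d') h₃ := by
    rw [Lo_mul]
    refine mk2_congr _ _ rfl rfl ?_ ?_
    · rw [hqt]
      ring
    · ring
  have huv : Nat.Coprime u v := by
    refine Nat.Coprime.symm (Nat.coprime_of_dvd' ?_)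
    intro ℓ hℓ hℓv hℓu
    exfalso
    have hℓ2 : ℓ ≠ 2 := by
      intro h2
      rw [h2] at hℓu
      exact huodd hℓu
    have hℓp : Prime (ℓ : ℤ) := Nat.prime_iff_prime_int.1 hℓ
    have hℓq : (ℓ : ℤ) ∣ (q : ℤ) - 1 := by
      have : (q : ℤ) - 1 = 2 * (v : ℤ) := by
        rw [hv]
        push_cast
        ring
      rw [this]
      exact (Int.natCast_dvd_natCast.2 hℓv).mul_left _
    have hnot2 : ¬ (ℓ : ℤ) ∣ 2 := by
      intro h2
      have h2' : ℓ ∣ 2 := by exact_mod_cast h2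
      exact hℓ2 ((Nat.prime_dvd_prime_iff_eq hℓ Nat.prime_two).1 h2')
    rw [hum] at hℓu
    rcases (Nat.Prime.dvd_mul hℓ).1 hℓu with h5 | h5
    · have h6 : ℓ = r := (Nat.prime_dvd_prime_iff_eq hℓ hrp).1 (hℓ.dvd_of_dvd_pow h5)
      have hℓp1 : (ℓ : ℤ) ∣ (p : ℤ) - 1 := by
        have : (p : ℤ) - 1 = 2 * (u : ℤ) := by
          rw [hu]
          push_cast
          ring
        rw [this, hum]
        exact (Int.natCast_dvd_natCast.2 hℓu).mul_left _
      apply hnot2
      have h7 : (2 : ℤ) = (r : ℤ) * (t₄ * p + d') - ((p : ℤ) - 1) * (q : ℤ) - ((q : ℤ) - 1) := by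
        linear_combination (-1) * h₃
      rw [h7]
      refine dvd_sub (dvd_sub ?_ (hℓp1.mul_right _)) hℓq
      rw [h6]
      exact dvd_mul_right _ _
    · apply hnot2
      have h7 : (2 : ℤ) = (m' : ℤ) * (y * (1 + c') + r * t₃) - ((q : ℤ) - 1) := by
        rw [ht₃, hq₀]
        ring
      rw [h7]
      exact dvd_sub ((Int.natCast_dvd_natCast.2 h5).mul_right _) hℓq
  have hfin := final_mem r p q (t₄ * p + d') h₃ hpp hqp u v hu hv huv
  rw [e1, e2, e3]
  exact Set.mul_mem_mul (Set.mul_mem_mul (Set.mul_mem_mul (Lo_mem _) hfin) (Up_mem _)) (Lo_mem _)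

end Pool.Agent.H52.TF
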