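import Pool.Agent.H52.TF.CK3

/-!
# Bounded generation of `SL_n(ℤ)`, `n ≥ 3`
-/

set_option autoImplicit false
set_option linter.unusedSectionVars false

namespace Pool.Agent.H52.TF

open Matrix
open scoped Pointwise

/-- the stable range condition -/
theorem stable (a b g x y z : ℤ) (hg : g ≠ 0) (h : x * a + y * b + z * g = 1) :
    ∃ t : ℤ, IsCoprime (a + b * t) g := by
  by_cases hb : b = 0
  · refine ⟨0, x, z, ?_⟩
    rw [hb] at h ⊢
    linear_combination h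
  have hpos : 0 < Int.gcd a b := Int.gcd_pos_of_ne_zero_right a hb
  obtain ⟨a', b', hcop, ha, hb'⟩ := Int.exists_gcd_one hpos
  set δ : ℤ := (Int.gcd a b : ℤ)
  have hb0 : b' ≠ 0 := by
    intro h0
    apply hb
    rw [hb', h0, zero_mul]
  obtain ⟨p, hp, hpg, t, ht⟩ := dirichlet a' b' hb0 (Int.isCoprime_iff_gcd_eq_one.2 hcop) g.natAbs
  refine ⟨t, ?_⟩
  have e : a + b * t = δ * (p : ℤ) := by
    rw [ht]
    linear_combination ha + t * hb'
  rw [e]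
  refine IsCoprime.mul_left ?_ ?_
  · refine ⟨x * a' + y * b', z, ?_⟩
    linear_combination h - x * ha - y * hb'
  · refine (Prime.coprime_iff_not_dvd (Nat.prime_iff_prime_int.1 hp)).2 ?_
    intro hd
    have h1 := Int.natAbs_dvd_natAbs.2 hd
    rw [Int.natAbs_natCast] at h1
    exact absurd (Nat.le_of_dvd (Int.natAbs_pos.2 hg) h1) (by omega)

variable {m : ℕ}

/-- make the tail unimodular -/
theorem tail_unimodular (a φ : Fin (m + 3) → ℤ) (h : φ ⬝ᵥ a = 1) :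
    ∃ (s t : ℤ) (φ' : Fin (m + 3) → ℤ), φ' 0 = 0 ∧
      φ' ⬝ᵥ (a + a 0 • (Pi.single 1 t : Fin (m + 3) → ℤ) +
        a 0 • (Pi.single 2 s : Fin (m + 3) → ℤ)) = 1 := by
  have hexp : ∀ (ψ b : Fin (m + 3) → ℤ), ψ ⬝ᵥ b = ψ 0 * b 0 + (ψ 1 * b 1 + (ψ 2 * b 2 +
      ∑ i : Fin m, ψ i.succ.succ.succ * b i.succ.succ.succ)) := by
    intro ψ b
    rw [dotProduct, Fin.sum_univ_succ, Fin.sum_univ_succ, Fin.sum_univ_succ]
    rfl
  have hb : ∀ (s t : ℤ) (φ' : Fin (m + 3) → ℤ), φ' 0 = 0 →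
      φ' ⬝ᵥ (a + a 0 • (Pi.single 1 t : Fin (m + 3) → ℤ) +
        a 0 • (Pi.single 2 s : Fin (m + 3) → ℤ)) = φ' 1 * (a 1 + a 0 * t) +
        (φ' 2 * (a 2 + a 0 * s) + ∑ i : Fin m, φ' i.succ.succ.succ * a i.succ.succ.succ) := by
    intro s t φ' h0
    rw [dotProduct_add, dotProduct_add, dotProduct_smul, dotProduct_smul, dotProduct_single,
      dotProduct_single, hexp φ' a, h0, smul_eq_mul, smul_eq_mul]
    ring
  rw [hexp] at h
  set R : ℤ := ∑ i : Fin m, φ i.succ.succ.succ * a i.succ.succ.succ with hR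
  by_cases hg : φ 2 * a 2 + R = 0
  · by_cases ha2 : a 2 = 0
    · refine ⟨1, 0, Fin.cons 0 (Fin.cons (φ 1) (Fin.cons (φ 0) (fun _ => 0))), rfl, ?_⟩
      rw [hb _ _ _ rfl]
      have e1 : (Fin.cons 0 (Fin.cons (φ 1) (Fin.cons (φ 0) (fun _ => 0))) :
        Fin (m + 3) → ℤ) 1 = φ 1 := rfl
      have e2 : (Fin.cons 0 (Fin.cons (φ 1) (Fin.cons (φ 0) (fun _ => 0))) :
        Fin (m + 3) → ℤ) 2 = φ 0 := rfl
      have e3 : ∀ i : Fin m, (Fin.cons 0 (Fin.cons (φ 1) (Fin.cons (φ 0) (fun _ => 0))) :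
        Fin (m + 3) → ℤ) i.succ.succ.succ = 0 := fun i => rfl
      rw [e1, e2]
      simp only [e3, zero_mul, Finset.sum_const_zero]
      rw [ha2]
      linear_combination h - hg
    · obtain ⟨t, x, y, hxy⟩ := stable (a 1) (a 0) (a 2) (φ 1) (φ 0) 0 ha2
        (by linear_combination h - hg)
      refine ⟨0, t, Fin.cons 0 (Fin.cons x (Fin.cons y (fun _ => 0))), rfl, ?_⟩
      rw [hb _ _ _ rfl]
      have e1 : (Fin.cons 0 (Fin.cons x (Fin.cons y (fun _ => 0))) :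
        Fin (m + 3) → ℤ) 1 = x := rfl
      have e2 : (Fin.cons 0 (Fin.cons x (Fin.cons y (fun _ => 0))) :
        Fin (m + 3) → ℤ) 2 = y := rfl
      have e3 : ∀ i : Fin m, (Fin.cons 0 (Fin.cons x (Fin.cons y (fun _ => 0))) :
        Fin (m + 3) → ℤ) i.succ.succ.succ = 0 := fun i => rfl
      rw [e1, e2]
      simp only [e3, zero_mul, Finset.sum_const_zero]
      linear_combination hxy
  · obtain ⟨t, x, y, hxy⟩ := stable (a 1) (a 0) (φ 2 * a 2 + R) (φ 1) (φ 0) 1 hg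
      (by linear_combination h)
    refine ⟨0, t, Fin.cons 0 (Fin.cons x (Fin.cons (y * φ 2)
      (fun i => y * φ i.succ.succ.succ))), rfl, ?_⟩
    rw [hb _ _ _ rfl]
    have e1 : (Fin.cons 0 (Fin.cons x (Fin.cons (y * φ 2)
      (fun i => y * φ i.succ.succ.succ))) : Fin (m + 3) → ℤ) 1 = x := rfl
    have e2 : (Fin.cons 0 (Fin.cons x (Fin.cons (y * φ 2)
      (fun i => y * φ i.succ.succ.succ))) : Fin (m + 3) → ℤ) 2 = y * φ 2 := rfl
    have e3 : ∀ i : Fin m, (Fin.cons 0 (Fin.cons x (Fin.cons (y * φ 2)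
      (fun i => y * φ i.succ.succ.succ))) : Fin (m + 3) → ℤ) i.succ.succ.succ =
      y * φ i.succ.succ.succ := fun i => rfl
    rw [e1, e2]
    simp only [e3, mul_assoc, ← Finset.mul_sum]
    rw [← hR]
    linear_combination hxy

/-- the column and row transvections -/
def CC : Set (SpecialLinearGroup (Fin (m + 3)) ℤ) := {x |
    ∃ (u : Fin (m + 3) → ℤ) (h : (Pi.single 0 1 : Fin (m + 3) → ℤ) ⬝ᵥ u = 0),
      x = T u (Pi.single 0 1) h}

def RR : Set (SpecialLinearGroup (Fin (m + 3)) ℤ) := {x |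
    ∃ (ψ : Fin (m + 3) → ℤ) (h : ψ ⬝ᵥ (Pi.single 0 1 : Fin (m + 3) → ℤ) = 0),
      x = T (Pi.single 0 1) ψ h}

theorem Bd_CC : Bd (CC (m := m)) := Bd_col (by omega) 0
theorem Bd_RR : Bd (RR (m := m)) := Bd_row (by omega) 0

/-- move a unimodular vector to the first basis vector -/
theorem col_red (a φ : Fin (m + 3) → ℤ) (h : φ ⬝ᵥ a = 1) :
    ∃ y ∈ CC (m := m) * (RR (m := m) * (El (m + 3) * El (m + 3))),
      (y : Matrix (Fin (m + 3)) (Fin (m + 3)) ℤ) *ᵥ a = Pi.single 0 1 := by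
  obtain ⟨s, t, φ', h0, h1⟩ := tail_unimodular a φ h
  set a' : Fin (m + 3) → ℤ := a + a 0 • (Pi.single 1 t : Fin (m + 3) → ℤ) +
        a 0 • (Pi.single 2 s : Fin (m + 3) → ℤ) with ha'
  have h10 : (1 : Fin (m + 3)) ≠ 0 := by
    intro h'
    have := congrArg Fin.val h'
    simp at this
  have h20 : (2 : Fin (m + 3)) ≠ 0 := by
    intro h'
    have := congrArg Fin.val h'
    have e : ((2 : Fin (m + 3)) : ℕ) = 2 := by
      show 2 % (m + 3) = 2
      exact Nat.mod_eq_of_lt (by omega)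
    rw [e] at this
    have e' : ((0 : Fin (m + 3)) : ℕ) = 0 := rfl
    omega
  have ha0 : a' 0 = a 0 := by
    rw [ha', Pi.add_apply, Pi.add_apply, Pi.smul_apply, Pi.smul_apply,
      Pi.single_eq_of_ne (Ne.symm h10), Pi.single_eq_of_ne (Ne.symm h20)]
    simp
  -- first step
  have s1 : ((el 2 0 h20 s * el 1 0 h10 t : SpecialLinearGroup (Fin (m + 3)) ℤ) :
      Matrix (Fin (m + 3)) (Fin (m + 3)) ℤ) *ᵥ a = a' := by
    rw [cmul, ← mulVec_mulVec, el, el, T_mulVec, T_mulVec, single_dot, one_mul, single_dot,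
      one_mul, Pi.add_apply, Pi.smul_apply, Pi.single_eq_of_ne (Ne.symm h10), smul_zero,
      add_zero]
  -- second step
  have hr : ((1 - a 0) • φ') ⬝ᵥ (Pi.single 0 1 : Fin (m + 3) → ℤ) = 0 := by
    rw [dotProduct_single, Pi.smul_apply, h0]
    simp
  set a'' : Fin (m + 3) → ℤ := a' + (1 - a 0) • (Pi.single 0 1 : Fin (m + 3) → ℤ) with ha''
  have s2 : (T (Pi.single 0 1) ((1 - a 0) • φ') hr :
      Matrix (Fin (m + 3)) (Fin (m + 3)) ℤ) *ᵥ a' = a'' := by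
    rw [T_mulVec, smul_dotProduct, h1, smul_eq_mul, mul_one]
  have ha''0 : a'' 0 = 1 := by
    rw [ha'', Pi.add_apply, Pi.smul_apply, Pi.single_eq_same, ha0]
    simp
  -- third step
  have hc : (Pi.single 0 1 : Fin (m + 3) → ℤ) ⬝ᵥ ((Pi.single 0 1 : Fin (m + 3) → ℤ) - a'') =
      0 := by
    rw [single_dot, one_mul, Pi.sub_apply, Pi.single_eq_same, ha''0, sub_self]
  have s3 : (T ((Pi.single 0 1 : Fin (m + 3) → ℤ) - a'') (Pi.single 0 1) hc :
      Matrix (Fin (m + 3)) (Fin (m + 3)) ℤ) *ᵥ a'' = Pi.single 0 1 := by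
    rw [T_mulVec, single_dot, one_mul, ha''0, one_smul, add_sub_cancel]
  refine ⟨T ((Pi.single 0 1 : Fin (m + 3) → ℤ) - a'') (Pi.single 0 1) hc *
    (T (Pi.single 0 1) ((1 - a 0) • φ') hr * (el 2 0 h20 s * el 1 0 h10 t)),
    Set.mul_mem_mul ⟨_, hc, rfl⟩ (Set.mul_mem_mul ⟨_, hr, rfl⟩
      (Set.mul_mem_mul (el_mem _ _ _ _) (el_mem _ _ _ _))), ?_⟩
  rw [cmul, cmul, ← mulVec_mulVec, ← mulVec_mulVec, s1, s2, s3]

/-- block matrices -/
theorem exists_up {n : ℕ} (x : SpecialLinearGroup (Fin (n + 1)) ℤ)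
    (hc : ∀ i : Fin n, x.1 i.succ 0 = 0) (hr : ∀ j : Fin n, x.1 0 j.succ = 0)
    (h0 : x.1 0 0 = 1) : ∃ A, x = up A := by
  have e : x.1 = upM (x.1.submatrix Fin.succ Fin.succ) := by
    ext i j
    refine Fin.cases ?_ (fun i' => ?_) i <;> refine Fin.cases ?_ (fun j' => ?_) j
    · rw [upM_zz, h0]
    · rw [upM_zs, hr]
    · rw [upM_sz, hc]
    · rw [upM_ss, submatrix_apply]
  refine ⟨⟨x.1.submatrix Fin.succ Fin.succ, ?_⟩, slext e⟩
  rw [← det_upM, ← e]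
  exact x.2

/-- reduction to the smaller group -/
theorem reduce (h : Bd (n := m + 3) (Set.range up)) :
    Bd (n := m + 3) (Set.univ : Set (SpecialLinearGroup (Fin (m + 3)) ℤ)) := by
  have hE : Bd (El (m + 3)) := Bd_El
  refine (((Bd_CC (m := m)).mul (Bd_RR.mul (hE.mul hE))).inv.mul (h.mul Bd_RR)).mono ?_
  rintro x -
  set a : Fin (m + 3) → ℤ := x.1 *ᵥ (Pi.single 0 1) with ha
  have hφ : ((Pi.single 0 1 : Fin (m + 3) → ℤ) ᵥ* (x⁻¹ : SpecialLinearGroup (Fin (m + 3)) ℤ).1) ⬝ᵥ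
      a = 1 := by
    rw [ha, ← dotProduct_mulVec, mulVec_mulVec]
    have : (x⁻¹ : SpecialLinearGroup (Fin (m + 3)) ℤ).1 * x.1 = 1 := coe_inv_mul x
    rw [this, one_mulVec, single_dot, one_mul, Pi.single_eq_same]
  obtain ⟨y, hy, hya⟩ := col_red a _ hφ
  set x' : SpecialLinearGroup (Fin (m + 3)) ℤ := y * x with hx'
  have hcol : x'.1 *ᵥ (Pi.single 0 1) = Pi.single 0 1 := by
    rw [hx']
    show ((y * x : SpecialLinearGroup (Fin (m + 3)) ℤ) :
      Matrix (Fin (m + 3)) (Fin (m + 3)) ℤ) *ᵥ _ = _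
    rw [cmul, ← mulVec_mulVec]
    exact hya
  have hcol' : ∀ i, x'.1 i 0 = (Pi.single 0 1 : Fin (m + 3) → ℤ) i := by
    intro i
    rw [← hcol, mulVec_single_one]
    rfl
  set ρ : Fin (m + 3) → ℤ := (Pi.single 0 1 : Fin (m + 3) → ℤ) - x'.1 0 with hρ
  have hρ0 : ρ ⬝ᵥ (Pi.single 0 1 : Fin (m + 3) → ℤ) = 0 := by
    rw [dotProduct_single, mul_one, hρ, Pi.sub_apply, hcol' 0, sub_self]
  set z : SpecialLinearGroup (Fin (m + 3)) ℤ := x' * T (Pi.single 0 1) ρ hρ0 with hz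
  have hz1 : z.1 = x'.1 + vecMulVec (Pi.single 0 1) ρ := by
    show ((x' * T (Pi.single 0 1) ρ hρ0 : SpecialLinearGroup (Fin (m + 3)) ℤ) :
      Matrix (Fin (m + 3)) (Fin (m + 3)) ℤ) = _
    rw [cmul, T_coe, mul_add, mul_one, mul_vecMulVec]
    show x'.1 + vecMulVec (x'.1 *ᵥ _) ρ = _
    rw [hcol]
  obtain ⟨A, hA⟩ := exists_up z (by
      intro i
      rw [hz1, Matrix.add_apply, vecMulVec_apply, hcol', Pi.single_eq_of_ne (Fin.succ_ne_zero i),
        zero_mul, add_zero]) (by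
      intro j
      rw [hz1, Matrix.add_apply, vecMulVec_apply, Pi.single_eq_same, one_mul, hρ, Pi.sub_apply,
        Pi.single_eq_of_ne (Fin.succ_ne_zero j)]
      ring) (by
      rw [hz1, Matrix.add_apply, vecMulVec_apply, Pi.single_eq_same, one_mul, hρ, Pi.sub_apply,
        Pi.single_eq_same]
      ring)
  refine ⟨y⁻¹, Set.inv_mem_inv.2 hy, z * (T (Pi.single 0 1) ρ hρ0)⁻¹, ?_, ?_⟩
  · refine Set.mul_mem_mul ⟨A, hA.symm⟩ ?_
    have hneg : (-ρ) ⬝ᵥ (Pi.single 0 1 : Fin (m + 3) → ℤ) = 0 := by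
      rw [neg_dotProduct, hρ0, neg_zero]
    refine ⟨-ρ, hneg, ?_⟩
    rw [inv_eq_iff_mul_eq_one, T_add']
    apply slext
    rw [T_coe, cone, add_neg_cancel, vecMulVec_zero, add_zero]
  · show y⁻¹ * (z * (T (Pi.single 0 1) ρ hρ0)⁻¹) = x
    rw [hz, hx']
    group

/-- **Bounded generation** of `SL_n(ℤ)`, `n ≥ 3` (Carter-Keller). -/
theorem bounded_generation (n : ℕ) (hn : 3 ≤ n) :
    ∃ k : ℕ, ∀ x : SpecialLinearGroup (Fin n) ℤ, x ∈ El n ^ k := by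
  obtain ⟨m, rfl⟩ : ∃ m, n = m + 3 := ⟨n - 3, by omega⟩
  have key : ∀ m : ℕ, Bd (n := m + 3) (Set.univ : Set (SpecialLinearGroup (Fin (m + 3)) ℤ)) := by
    intro m
    induction m with
    | zero =>
      refine reduce (m := 0) (Bd.mono BB_univ ?_)
      rintro _ ⟨x, rfl⟩
      exact ⟨x, trivial, rfl⟩
    | succ m ih =>
      refine reduce (m := m + 1) ((ih.image up up_El).mono ?_)
      rintro _ ⟨x, rfl⟩
      exact ⟨x, trivial, rfl⟩
  obtain ⟨k, hk⟩ := key m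
  exact ⟨k, fun x => hk trivial⟩

end Pool.Agent.H52.TF
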