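import Pool.Agent.H52.TF.Spread

/-!
# Tight elements and tight sets
-/

set_option autoImplicit false
set_option linter.unusedSectionVars false

namespace Pool.Agent.H52.TF

open Pool.Agent.H494R3.GT Pool.Agent.N557.QW Pool.Agent.N414.LR Pool.Agent.H52.HD
open Pool.Agent.N169.QWP (mul_coeff LG_coeff star_ap commute)
open Pool.Agent.N414.LR.CLS (star_v v_mul v_one inner_v norm_v inner_rgt orth)
open Pool.Agent.N414.LR.SQ (cf_eq norm_dl t_sq rgt_mul rgt_one)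
open Pool.Agent.N414.LR.END (cf_comm mul_mem' star_mem')
open Pool.Agent.N414.LR.Asm (norm_unit)
open Filter Topology
open scoped Pointwise

noncomputable section

variable {Γ Λ : Type} [Group Γ] [Group Λ] (v : Γ →* unitary (Op Λ))
  (hv : ∀ g, (v g : Op Λ) ∈ LG Λ)

/-- the set `S` is tight: the unitaries `v g`, `g ∈ S`, are uniformly approximated by combinations
of boundedly many group elements -/
def TSet (S : Set Γ) : Prop := (dl 1 : L2 Λ) ∈ TS v S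

theorem TSet.mono {v : Γ →* unitary (Op Λ)} {S S' : Set Γ} (h : TSet v S) (h' : S' ⊆ S) :
    TSet v S' := TS_mono v h' h

theorem TSet.finite {S : Set Γ} (h : S.Finite) : TSet v S := by
  haveI := h.to_subtype
  exact tight_finite _

include hv in
theorem TSet.mul {S S' : Set Γ} (h : TSet v S) (h' : TSet v S') : TSet v (S * S') := by
  have h1 := tight_all v h hv (y := fun g : S' => (v g.1 : Op Λ) (dl 1)) (C := 1)
    (fun g => by rw [norm_v, norm_dl]) h'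
  refine h1.of_forall ?_
  rintro ⟨_, s, hs, s', hs', rfl⟩
  refine ⟨(⟨s, hs⟩, ⟨s', hs'⟩), ?_⟩
  show (v (s * s') : Op Λ) (dl 1) = (v s : Op Λ) ((v s' : Op Λ) (dl 1))
  rw [v_mul]

theorem TSet.union {S S' : Set Γ} (h : TSet v S) (h' : TSet v S') : TSet v (S ∪ S') := by
  have h1 : Tight fun g : S => (v g.1 : Op Λ) (dl 1) := h
  have h2 : Tight fun g : S' => (v g.1 : Op Λ) (dl 1) := h'
  refine Tight.or h1 h2 ?_
  rintro ⟨g, hg | hg⟩
  · exact Or.inl ⟨⟨g, hg⟩, rfl⟩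
  · exact Or.inr ⟨⟨g, hg⟩, rfl⟩

theorem TSet.iUnion {ι : Type} [Finite ι] {S : ι → Set Γ} (h : ∀ i, TSet v (S i)) :
    TSet v (⋃ i, S i) := by
  classical
  haveI := Fintype.ofFinite ι
  have h1 : ∀ I : Finset ι, TSet v (⋃ i ∈ I, S i) := by
    intro I
    induction I using Finset.induction_on with
    | empty =>
      simp only [Finset.notMem_empty, Set.iUnion_of_empty, Set.iUnion_empty]
      exact TSet.finite v Set.finite_empty
    | insert a I _ ih =>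
      rw [Finset.set_biUnion_insert]
      exact TSet.union v (h a) ih
  refine (h1 Finset.univ).mono ?_
  intro x hx
  rw [Set.mem_iUnion] at hx
  obtain ⟨i, hi⟩ := hx
  exact Set.mem_biUnion (Finset.mem_coe.2 (Finset.mem_univ i)) hi

include hv in
theorem TSet.conj {S S' : Set Γ} (g : Γ) (h : TSet v S) (h' : ∀ s ∈ S', g⁻¹ * s * g ∈ S) :
    TSet v S' := by
  have h1 := TS_conj v hv g h' (mem_TS_of_one v hv h ((v g⁻¹ : Op Λ) (dl 1)))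
  rwa [← v_mul, mul_inv_cancel, v_one] at h1

/-- the powers of `a` form a tight set -/
def TEl (a : Γ) : Prop := TSet v (Subgroup.zpowers a : Set Γ)

include hv in
theorem TEl.conj {a : Γ} (g : Γ) (h : TEl v a) : TEl v (g * a * g⁻¹) := by
  refine TSet.conj v hv g h ?_
  rintro _ ⟨k, rfl⟩
  refine ⟨k, ?_⟩
  show a ^ k = g⁻¹ * (g * a * g⁻¹) ^ k * g
  rw [conj_zpow]
  group

theorem TEl.zpow {a : Γ} (h : TEl v a) (k : ℤ) : TEl v (a ^ k) := by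
  refine TSet.mono h ?_
  rintro _ ⟨l, rfl⟩
  exact ⟨k * l, by
    show a ^ (k * l) = (a ^ k) ^ l
    rw [zpow_mul]⟩

include hv in
theorem TEl.mul {a b : Γ} (h : TEl v a) (h' : TEl v b) (hab : Commute a b) : TEl v (a * b) := by
  refine (TSet.mul v hv h h').mono ?_
  rintro _ ⟨k, rfl⟩
  refine Set.mem_mul.2 ⟨a ^ k, ⟨k, rfl⟩, b ^ k, ⟨k, rfl⟩, ?_⟩
  exact (hab.mul_zpow k).symm

/-- the projections of conjugate sets -/
theorem QQ_conj (hv : ∀ g, (v g : Op Λ) ∈ LG Λ) {S S' : Set Γ} (g : Γ)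
    (h1 : ∀ s ∈ S', g⁻¹ * s * g ∈ S) (h2 : ∀ s ∈ S, g * s * g⁻¹ ∈ S') (ξ : L2 Λ) :
    QQ v S' ξ = (v g : Op Λ) (QQ v S ((v g⁻¹ : Op Λ) ξ)) := by
  have hmem : ∀ η, (v g : Op Λ) (QQ v S ((v g⁻¹ : Op Λ) η)) ∈ TS v S' := fun η =>
    TS_conj v hv g h1 (QQ_mem v S _)
  have hmem' : ∀ η, (v g⁻¹ : Op Λ) (QQ v S' ((v g : Op Λ) η)) ∈ TS v S := fun η =>
    TS_conj v hv g⁻¹ (fun s hs => by rw [inv_inv]; exact h2 s hs) (QQ_mem v S' _)
  have hc : ∀ η, (v g⁻¹ : Op Λ) ((v g : Op Λ) η) = η := fun η => by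
    rw [← v_mul, inv_mul_cancel, v_one]
  have hc' : ∀ η, (v g : Op Λ) ((v g⁻¹ : Op Λ) η) = η := fun η => by
    rw [← v_mul, mul_inv_cancel, v_one]
  refine ext_inner_left ℂ fun ζ => ?_
  -- both sides equal `⟨P' ζ, X ξ⟩`
  have e1 : inner ℂ ζ ((v g : Op Λ) (QQ v S ((v g⁻¹ : Op Λ) ξ))) =
      inner ℂ (QQ v S' ζ) ((v g : Op Λ) (QQ v S ((v g⁻¹ : Op Λ) ξ))) := by
    rw [← inner_QQ, QQ_eq v (hmem ξ)]
  have e2 : inner ℂ (QQ v S' ζ) ((v g : Op Λ) (QQ v S ((v g⁻¹ : Op Λ) ξ))) =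
      inner ℂ (QQ v S' ζ) ξ := by
    rw [inner_v, inner_QQ]
    have e3 : QQ v S ((v g⁻¹ : Op Λ) (QQ v S' ζ)) = (v g⁻¹ : Op Λ) (QQ v S' ζ) := by
      have := QQ_eq v (hmem' ((v g⁻¹ : Op Λ) ζ))
      rwa [hc'] at this
    rw [e3, ← inner_v, hc']
  rw [e1, e2, inner_QQ]

/-- **From one element to a tight element.** -/
theorem tight_of_lower (hv : ∀ g, (v g : Op Λ) ∈ LG Λ)
    (hcf1 : ∀ g, g ≠ 1 → cf (v g : Op Λ) 1 = 0) (htot : Total v) (a : Γ) (ha : a ≠ 1) {δ : ℝ}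
    (hδ : 0 < δ) (hh : ∀ k : ℤ, ∃ h, δ ≤ ‖cf (v (a ^ k) : Op Λ) h‖) (N : Subgroup Γ)
    (hN : ∀ x : Γ, x ≠ 1 → {y | ∃ n ∈ N, n * x * n⁻¹ = y}.Infinite)
    (hcomm : ∀ g ∈ N, Commute a (g * a * g⁻¹))
    (hN2 : ∀ g ∈ N, g * a * g⁻¹ ≠ a → g * a * g⁻¹ ≠ a⁻¹ → ∃ N₂ : Subgroup Γ,
      (∀ x : Γ, x ≠ 1 → {y | ∃ n ∈ N₂, n * x * n⁻¹ = y}.Infinite) ∧
      ∀ n ∈ N₂, ∀ i j : ℤ, ∃ i' j' : ℤ,
        n * (a ^ i * (g * a * g⁻¹) ^ j) * n⁻¹ = a ^ i' * (g * a * g⁻¹) ^ j') :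
    TEl v a := by
  classical
  -- the inverse theorem on the cyclic group
  obtain ⟨η, hη, hηt⟩ := exists_tight (v.comp (Subgroup.zpowers a).subtype) (fun g => hv _) hδ
    (fun g => by
      obtain ⟨k, hk⟩ := g.2
      obtain ⟨h, hh'⟩ := hh k
      refine ⟨h, ?_⟩
      have e : (v.comp (Subgroup.zpowers a).subtype) g = v (a ^ k) := by
        rw [MonoidHom.comp_apply]
        congr 1
        exact hk.symm
      rw [e]
      exact hh')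
  have hη1 : η ∈ TS v (Subgroup.zpowers a : Set Γ) := hηt
  obtain ⟨g, hg, hgE, hne⟩ := exists_conj_ne v hv hcf1 htot ⟨η, hη1, hη⟩ N hN {a} {a, a⁻¹}
    (by rw [Finset.mem_singleton]; exact ha.symm) η hη
  have hga := hgE a (Finset.mem_singleton_self a)
  rw [Finset.mem_insert, Finset.mem_singleton, not_or] at hga
  set b := g * a * g⁻¹ with hb
  have hcb : Commute a b := hcomm g hg
  obtain ⟨N₂, hN₂, hnorm⟩ := hN2 g hg hga.1 hga.2
  -- the projection of the powers of `b`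
  have hQ : QQ v (Subgroup.zpowers b : Set Γ) η =
      (v g : Op Λ) (QQ v (Subgroup.zpowers a : Set Γ) ((v g⁻¹ : Op Λ) η)) := by
    refine QQ_conj v hv g ?_ ?_ η
    · rintro _ ⟨k, rfl⟩
      refine ⟨k, ?_⟩
      show a ^ k = g⁻¹ * b ^ k * g
      rw [hb, conj_zpow]
      group
    · rintro _ ⟨k, rfl⟩
      refine ⟨k, ?_⟩
      show b ^ k = g * a ^ k * g⁻¹
      rw [hb, conj_zpow]
  have h1 := TS_mul v (S := (Subgroup.zpowers b : Set Γ)) (S' := (Subgroup.zpowers a : Set Γ)) hv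
    (by
      rintro _ ⟨k, rfl⟩ ξ
      refine QQ_norm v hv _ ?_ ?_ ξ
      · rintro _ ⟨l, rfl⟩
        refine ⟨l, ?_⟩
        show b ^ l = (a ^ k)⁻¹ * b ^ l * a ^ k
        rw [mul_assoc, ← (hcb.zpow_zpow k l).eq]
        group
      · rintro _ ⟨l, rfl⟩
        refine ⟨l, ?_⟩
        show b ^ l = a ^ k * b ^ l * (a ^ k)⁻¹
        rw [(hcb.zpow_zpow k l).eq]
        group) hη1
  -- zero-one law
  have h2 := one_mem_TS v hv hcf1 htot _ (N₂ : Set Γ) hN₂ (by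
      rintro n hn _ ⟨_, ⟨j, rfl⟩, _, ⟨i, rfl⟩, rfl⟩
      obtain ⟨i', j', h⟩ := hnorm n⁻¹ (N₂.inv_mem hn) i j
      refine Set.mem_image2.2 ⟨b ^ j', ⟨j', rfl⟩, a ^ i', ⟨i', rfl⟩, ?_⟩
      rw [inv_inv] at h
      show b ^ j' * a ^ i' = n⁻¹ * (b ^ j * a ^ i) * n
      rw [← (hcb.zpow_zpow i' j').eq, ← (hcb.zpow_zpow i j).eq, h]) (by
      rintro n hn _ ⟨_, ⟨j, rfl⟩, _, ⟨i, rfl⟩, rfl⟩
      obtain ⟨i', j', h⟩ := hnorm n hn i j
      refine Set.mem_image2.2 ⟨b ^ j', ⟨j', rfl⟩, a ^ i', ⟨i', rfl⟩, ?_⟩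
      show b ^ j' * a ^ i' = n * (b ^ j * a ^ i) * n⁻¹
      rw [← (hcb.zpow_zpow i' j').eq, ← (hcb.zpow_zpow i j).eq, h])
    ⟨_, h1, by rw [hQ]; exact hne⟩
  refine TS_mono v ?_ h2
  rintro _ ⟨k, rfl⟩
  exact Set.mem_image2.2 ⟨1, ⟨0, zpow_zero b⟩, a ^ k, ⟨k, rfl⟩, one_mul _⟩

/-- if everything is tight then the heights are bounded from below -/
theorem lower_of_tight (v : Γ →* unitary (Op Λ)) (hv : ∀ g, (v g : Op Λ) ∈ LG Λ)
    (h : TSet v Set.univ) : ∃ c : ℝ, 0 < c ∧ ∀ g, ∃ h, c ≤ ‖cf (v g : Op Λ) h‖ := by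
  classical
  have h0 : Tight fun g : (Set.univ : Set Γ) => (v g.1 : Op Λ) (dl 1) := h
  obtain ⟨N, hN⟩ := h0.bdd (show (0 : ℝ) < 1 / 2 by norm_num)
  refine ⟨1 / (4 * (N + 1)), by positivity, fun g => ?_⟩
  obtain ⟨F, hF, hle⟩ := hN ⟨g, trivial⟩
  by_contra hcon
  push Not at hcon
  set y := (v g : Op Λ) (dl 1) with hy
  have hyn : ‖y‖ = 1 := by rw [hy, norm_v, norm_dl]
  have h1 : ‖∑ s ∈ F, y s • (dl s : L2 Λ)‖ ≤ 1 / 4 := by
    refine (norm_sum_le _ _).trans ?_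
    calc ∑ s ∈ F, ‖y s • (dl s : L2 Λ)‖ ≤ ∑ _s ∈ F, 1 / (4 * (N + 1) : ℝ) := by
          refine Finset.sum_le_sum fun s _ => ?_
          rw [norm_smul, norm_dl, mul_one]
          have h2 := (hcon s).le
          rw [cf_eq] at h2
          exact h2
      _ = F.card * (1 / (4 * (N + 1) : ℝ)) := by rw [Finset.sum_const, nsmul_eq_mul]
      _ ≤ N * (1 / (4 * (N + 1) : ℝ)) := by gcongr
      _ ≤ (N + 1) * (1 / (4 * (N + 1) : ℝ)) := by gcongr; linarith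
      _ = 1 / 4 := by field_simp
  have h3 : ‖y‖ ≤ ‖y - ∑ s ∈ F, y s • (dl s : L2 Λ)‖ + ‖∑ s ∈ F, y s • (dl s : L2 Λ)‖ := by
    have := norm_add_le (y - ∑ s ∈ F, y s • (dl s : L2 Λ)) (∑ s ∈ F, y s • (dl s : L2 Λ))
    rwa [sub_add_cancel] at this
  have hle' : ‖y - ∑ s ∈ F, y s • (dl s : L2 Λ)‖ ≤ 1 / 2 := hle
  rw [hyn] at h3
  linarith

end

end Pool.Agent.H52.TF
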