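import Pool.Agent.H52.HD.Fin

/-!
# Tight families: small coefficients and generic ultrafilters for icc groups
-/

set_option autoImplicit false

namespace Pool.Agent.H52.TF

open Pool.Agent.H494R3.GT Pool.Agent.N557.QW Pool.Agent.N414.LR Pool.Agent.H52.HD
open Pool.Agent.N414.LR.CLS (star_v v_mul v_one inner_v norm_v inner_rgt orth)
open Pool.Agent.N414.LR.SQ (cf_eq norm_dl t_sq rgt_mul rgt_one)
open Pool.Agent.N414.LR.Asm (norm_unit)
open Filter Topology

noncomputable section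

section small

variable {Γ H : Type} [Group Γ] [NormedAddCommGroup H] [InnerProductSpace ℂ H] [CompleteSpace H]

/-- a representation without invariant vectors has small coefficients -/
theorem exists_small (κ : Γ →* unitary (H →L[ℂ] H)) (hno : NoInv κ) (ξ : H) {ε : ℝ}
    (hε : 0 < ε) : ∃ g, (inner ℂ ξ ((κ g : H →L[ℂ] H) ξ)).re < ε := by
  by_contra hcon
  push Not at hcon
  letI : InnerProductSpace ℝ H := InnerProductSpace.complexToReal
  set O : Set H := Set.range fun g => (κ g : H →L[ℂ] H) ξ with hO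
  set K : Set H := closure (convexHull ℝ O) with hK
  have hKc : Convex ℝ K := (convex_convexHull ℝ O).closure
  have hKne : K.Nonempty := ⟨(κ 1 : H →L[ℂ] H) ξ, subset_closure (subset_convexHull ℝ O ⟨1, rfl⟩)⟩
  obtain ⟨w, hw, hmin⟩ := exists_norm_eq_iInf_of_complete_convex hKne
    (isClosed_closure.isComplete) hKc (0 : H)
  have hle : ∀ x ∈ K, ‖w‖ ≤ ‖x‖ := by
    intro x hx
    rw [zero_sub, norm_neg] at hmin
    rw [hmin]
    have h1 := ciInf_le (f := fun w : K => ‖(0 : H) - w‖) ⟨0, by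
      rintro _ ⟨y, rfl⟩
      exact norm_nonneg _⟩ ⟨x, hx⟩
    simpa using h1
  -- the hull is invariant
  have hinv : ∀ g, ∀ x ∈ K, (κ g : H →L[ℂ] H) x ∈ K := by
    intro g
    have hcl : IsClosed {x : H | (κ g : H →L[ℂ] H) x ∈ K} :=
      isClosed_closure.preimage (κ g : H →L[ℂ] H).continuous
    have hcv : Convex ℝ {x : H | (κ g : H →L[ℂ] H) x ∈ K} :=
      hKc.is_linear_preimage (f := fun x => (κ g : H →L[ℂ] H) x)
        ⟨fun x y => map_add _ _ _, fun c x => by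
          show (κ g : H →L[ℂ] H) (c • x) = c • (κ g : H →L[ℂ] H) x
          exact ((κ g : H →L[ℂ] H).restrictScalars ℝ).map_smul c x⟩
    refine closure_minimal (convexHull_min ?_ hcv) hcl
    rintro _ ⟨k, rfl⟩
    refine subset_closure (subset_convexHull ℝ O ⟨g * k, ?_⟩)
    show (κ (g * k) : H →L[ℂ] H) ξ = (κ g : H →L[ℂ] H) ((κ k : H →L[ℂ] H) ξ)
    rw [map_mul]
    rfl
  have hwinv : ∀ g, (κ g : H →L[ℂ] H) w = w := by
    intro g
    have h1 := hinv g w hw
    have h2 : ‖(κ g : H →L[ℂ] H) w‖ = ‖w‖ := norm_unit (κ g) w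
    have hmid : (1 / 2 : ℝ) • (κ g : H →L[ℂ] H) w + (1 / 2 : ℝ) • w ∈ K :=
      hKc h1 hw (by norm_num) (by norm_num) (by norm_num)
    have h3 := hle _ hmid
    rw [← smul_add, norm_smul] at h3
    have h4 := parallelogram_law_with_norm ℝ ((κ g : H →L[ℂ] H) w) w
    rw [h2] at h4
    have h5 : ‖(1 / 2 : ℝ)‖ = 1 / 2 := by norm_num
    rw [h5] at h3
    have h6 : ‖(κ g : H →L[ℂ] H) w - w‖ = 0 := by
      have h7 := norm_nonneg w
      have h8 : (2 * ‖w‖) ≤ ‖(κ g : H →L[ℂ] H) w + w‖ := by linarith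
      have h9 : (2 * ‖w‖) * (2 * ‖w‖) ≤
          ‖(κ g : H →L[ℂ] H) w + w‖ * ‖(κ g : H →L[ℂ] H) w + w‖ :=
        mul_self_le_mul_self (by positivity) h8
      have h10 : ‖(κ g : H →L[ℂ] H) w - w‖ * ‖(κ g : H →L[ℂ] H) w - w‖ ≤ 0 := by linarith
      have h11 := mul_self_nonneg ‖(κ g : H →L[ℂ] H) w - w‖
      exact mul_self_eq_zero.1 (le_antisymm h10 h11)
    exact sub_eq_zero.1 (norm_eq_zero.1 h6)
  have hw0 := hno w hwinv
  have hK' : ∀ x ∈ K, ε ≤ (inner ℂ ξ x).re := by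
    have hcont : Continuous fun x : H => (inner ℂ ξ x).re :=
      Complex.continuous_re.comp (continuous_const.inner continuous_id)
    have hcl : IsClosed {x : H | ε ≤ (inner ℂ ξ x).re} := isClosed_le continuous_const hcont
    have hcv : Convex ℝ {x : H | ε ≤ (inner ℂ ξ x).re} := by
      intro x hx y hy a b ha hb hab
      show ε ≤ (inner ℂ ξ (a • x + b • y)).re
      have hx' : ε ≤ (inner ℂ ξ x).re := hx
      have hy' : ε ≤ (inner ℂ ξ y).re := hy
      rw [← Complex.coe_smul a x, ← Complex.coe_smul b y, inner_add_right, inner_smul_right,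
        inner_smul_right, Complex.add_re, Complex.re_ofReal_mul, Complex.re_ofReal_mul]
      calc ε = a * ε + b * ε := by rw [← add_mul, hab, one_mul]
        _ ≤ _ := by gcongr
    refine fun x hx => closure_minimal (convexHull_min ?_ hcv) hcl hx
    rintro _ ⟨k, rfl⟩
    exact hcon k
  have h12 := hK' w hw
  rw [hw0, inner_zero_right, Complex.zero_re] at h12
  linarith

end small

variable {Γ Λ : Type} [Group Γ] [Group Λ]

/-- the sets from which the generic ultrafilters are built are not empty -/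
theorem gen_set' (v : Γ →* unitary (Op Λ)) (hv : ∀ g, (v g : Op Λ) ∈ LG Λ)
    (htot : Total v) (hicc : Pool.Agent.N414.LR.IsIcc Λ) (F : Finset {a : Λ // a ≠ 1}) (ε : ℝ)
    (hε : 0 < ε) :
    ∃ g, ∀ a ∈ F, ∀ b ∈ F, ‖MM (DD a.1 b.1) ((v g : Op Λ) (dl 1))‖ ^ 2 < ε := by
  classical
  obtain ⟨κ, hκ⟩ := exists_rep (cact Λ) v hv
  have hno : NoInv κ := noInv_of_infinite (cact Λ) v hv htot κ hκ (cact_infinite hicc)
  set ξ : L2 (Λ × {a : Λ // a ≠ 1}) := ∑ a ∈ F, dl ((1 : Λ), a) with hξ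
  have hcoef : ∀ g, (inner ℂ ξ ((κ g : Op (Λ × {a : Λ // a ≠ 1})) ξ)).re =
      ∑ a ∈ F, ∑ b ∈ F, ‖MM (DD a.1 b.1) ((v g : Op Λ) (dl 1))‖ ^ 2 := by
    intro g
    rw [hξ, map_sum, inner_sum, Complex.re_sum]
    refine Finset.sum_congr rfl fun a _ => ?_
    rw [sum_inner, Complex.re_sum]
    refine Finset.sum_congr rfl fun b _ => ?_
    rw [coef_one v hv κ hκ, Complex.ofReal_re]
  obtain ⟨g, hg⟩ := exists_small κ hno ξ hε
  refine ⟨g, fun a ha b hb => ?_⟩
  rw [hcoef] at hg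
  refine lt_of_le_of_lt ?_ hg
  obtain ⟨q, hq⟩ : ∃ q : {a : Λ // a ≠ 1} → {a : Λ // a ≠ 1} → ℝ,
      ∀ a b, ‖MM (DD a.1 b.1) ((v g : Op Λ) (dl 1))‖ ^ 2 = q a b := ⟨_, fun _ _ => rfl⟩
  have hnn : ∀ a b : {a : Λ // a ≠ 1}, 0 ≤ q a b := fun a b => by
    rw [← hq]
    exact sq_nonneg _
  simp only [hq]
  exact (Finset.single_le_sum (fun b _ => hnn a b) hb).trans
    (Finset.single_le_sum (f := fun a => ∑ b ∈ F, q a b)
      (fun a _ => Finset.sum_nonneg fun b _ => hnn a b) ha)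

/-- **Generic ultrafilters exist** (for icc groups). -/
theorem exists_gen' (v : Γ →* unitary (Op Λ)) (hv : ∀ g, (v g : Op Λ) ∈ LG Λ)
    (htot : Total v) (hicc : Pool.Agent.N414.LR.IsIcc Λ) :
    ∃ p : Ultrafilter Γ, Gen (fun g => (v g : Op Λ)) p := by
  classical
  let E : Finset {a : Λ // a ≠ 1} × ℕ → Set Γ := fun i =>
    {g | ∀ a ∈ i.1, ∀ b ∈ i.1, ‖MM (DD a.1 b.1) ((v g : Op Λ) (dl 1))‖ ^ 2 < 1 / (i.2 + 1 : ℝ)}
  have hne : ∀ i, (E i).Nonempty := fun i =>
    gen_set' v hv htot hicc i.1 _ (by positivity)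
  have hmono : ∀ i j : Finset {a : Λ // a ≠ 1} × ℕ, E (i.1 ∪ j.1, max i.2 j.2) ⊆ E i ∩ E j := by
    intro i j g hg
    have h2 : (1 : ℝ) / ((max i.2 j.2 : ℕ) + 1 : ℝ) ≤ 1 / (i.2 + 1 : ℝ) := by
      gcongr
      exact le_max_left _ _
    have h3 : (1 : ℝ) / ((max i.2 j.2 : ℕ) + 1 : ℝ) ≤ 1 / (j.2 + 1 : ℝ) := by
      gcongr
      exact le_max_right _ _
    constructor
    · intro a ha b hb
      exact lt_of_lt_of_le (hg a (Finset.mem_union_left _ ha) b (Finset.mem_union_left _ hb)) h2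
    · intro a ha b hb
      exact lt_of_lt_of_le (hg a (Finset.mem_union_right _ ha) b (Finset.mem_union_right _ hb)) h3
  have hnb : (⨅ i, 𝓟 (E i)).NeBot := by
    apply Filter.iInf_neBot_of_directed'
    · intro i j
      refine ⟨(i.1 ∪ j.1, max i.2 j.2), ?_, ?_⟩
      · exact Filter.principal_mono.2 fun g hg => (hmono i j hg).1
      · exact Filter.principal_mono.2 fun g hg => (hmono i j hg).2
    · intro i
      exact Filter.principal_neBot_iff.2 (hne i)
  refine ⟨Ultrafilter.of (⨅ i, 𝓟 (E i)), ?_⟩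
  intro a b ha ε hε
  by_cases hb : b = 1
  · refine Eventually.of_forall fun g => ?_
    have h2 : DD a b = ∅ := by
      rw [Set.eq_empty_iff_forall_notMem]
      intro k hk
      rw [mem_DD, hb] at hk
      apply ha
      have : a = k⁻¹ * (k * a * k⁻¹) * k := by group
      rw [this, hk]
      group
    have h3 : MM (DD a b) ((v g : Op Λ) (dl 1)) = 0 := by
      rw [h2]
      apply vec_ext
      intro k
      rw [MM_ap, if_neg (Set.notMem_empty k)]
      rfl
    show ‖MM (DD a b) ((v g : Op Λ) (dl 1))‖ < ε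
    rw [h3, norm_zero]
    exact hε
  · obtain ⟨n, hn⟩ := exists_nat_one_div_lt (show (0 : ℝ) < ε ^ 2 by positivity)
    have h2 : E ({⟨a, ha⟩, ⟨b, hb⟩}, n) ∈ (Ultrafilter.of (⨅ i, 𝓟 (E i)) : Filter Γ) := by
      refine Ultrafilter.of_le _ ?_
      exact Filter.mem_iInf_of_mem _ (Filter.mem_principal_self _)
    filter_upwards [h2] with g hg
    have h3 := hg ⟨a, ha⟩ (Finset.mem_insert_self _ _) ⟨b, hb⟩
      (Finset.mem_insert_of_mem (Finset.mem_singleton_self _))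
    have h4 : ‖MM (DD a b) ((v g : Op Λ) (dl 1))‖ ^ 2 < ε ^ 2 := lt_trans h3 hn
    exact lt_of_pow_lt_pow_left₀ 2 hε.le h4

/-- **Heights bounded from below, for icc groups**: there is an intertwining vector. -/
theorem of_lower (hicc : Pool.Agent.N414.LR.IsIcc Γ) (v : Γ →* unitary (Op Λ))
    (hv : ∀ g, (v g : Op Λ) ∈ LG Λ) (hcf1 : ∀ g, g ≠ 1 → cf (v g : Op Λ) 1 = 0)
    (htot : Total v) {c : ℝ} (hc : 0 < c) (hh : ∀ g, ∃ h, c ≤ ‖cf (v g : Op Λ) h‖) :
    ∃ (f : Γ →* Λ) (χ : Γ →* unitary ℂ) (ζ : L2 Λ), ‖ζ‖ = 1 ∧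
      ∀ g, (v g : Op Λ) ζ = ((χ g : unitary ℂ) : ℂ) • rgt (f g) ζ :=
  of_height v hv hc hh (exists_gen' v hv htot (icc_of_icc hicc v hv hcf1 htot))

end

end Pool.Agent.H52.TF
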