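import Pool.Agent.H52.TF.LatC
import Pool.Agent.H52.TF.Gen

/-!
# The mean ergodic theorem and the dichotomy for transvections
-/

set_option autoImplicit false
set_option linter.unusedSectionVars false

namespace Pool.Agent.H52.TF

open Matrix
open Pool.Agent.H494R3.GT Pool.Agent.N557.QW Pool.Agent.N414.LR Pool.Agent.H52.HD
open Pool.Agent.N414.LR.CLS (star_v v_mul v_one inner_v norm_v inner_rgt orth)
open Pool.Agent.N414.LR.SQ (cf_eq norm_dl t_sq rgt_mul rgt_one)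
open Pool.Agent.N414.LR.Asm (norm_unit)
open Filter Topology
open scoped Pointwise

noncomputable section

section ergodic

variable {G H : Type} [Group G] [NormedAddCommGroup H] [InnerProductSpace ℂ H] [CompleteSpace H]

/-- the mean ergodic theorem, uniformly in the starting point -/
theorem mean_ergodic (κ : G →* unitary (H →L[ℂ] H)) (a : G)
    (hno : ∀ x : H, (κ a : H →L[ℂ] H) x = x → x = 0) (ζ ξ : H) (hζ : ‖ζ‖ = 1) {r : ℝ}
    (hr : 0 < r) : ∃ N : ℕ, ∀ k : ℕ, N ≤ k → ∀ g : G,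
      ∑ i ∈ Finset.range k, (inner ℂ ζ ((κ (g * a ^ i) : H →L[ℂ] H) ξ)).re ≤ r * k := by
  set f : H →L[ℂ] H := (κ a : H →L[ℂ] H) with hf
  have hf1 : ‖f‖ ≤ 1 := f.opNorm_le_bound zero_le_one fun x => by
    rw [one_mul, hf, norm_unit]
  have hlim := f.tendsto_birkhoffAverage_orthogonalProjection hf1 ξ
  have h0 : ((f.eqLocus (1 : H →L[ℂ] H)).orthogonalProjectionOnto ξ : H) = 0 := by
    apply hno
    exact ((f.eqLocus (1 : H →L[ℂ] H)).orthogonalProjectionOnto ξ).2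
  rw [h0] at hlim
  have hlim' := hlim.norm
  rw [norm_zero] at hlim'
  obtain ⟨N, hN⟩ := eventually_atTop.1 (hlim'.eventually_lt_const hr)
  refine ⟨N, fun k hk g => ?_⟩
  have hit : ∀ i : ℕ, (κ (a ^ i) : H →L[ℂ] H) ξ = f^[i] ξ := by
    intro i
    induction i with
    | zero =>
      rw [pow_zero, map_one]
      rfl
    | succ i ih =>
      rw [pow_succ', map_mul, Function.iterate_succ_apply', ← ih]
      rfl
  have h1 : ∑ i ∈ Finset.range k, (inner ℂ ζ ((κ (g * a ^ i) : H →L[ℂ] H) ξ)).re =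
      (inner ℂ ζ ((κ g : H →L[ℂ] H) (∑ i ∈ Finset.range k, f^[i] ξ))).re := by
    rw [map_sum, inner_sum, Complex.re_sum]
    refine Finset.sum_congr rfl fun i _ => ?_
    rw [map_mul, ← hit]
    rfl
  rw [h1]
  rcases Nat.eq_zero_or_pos k with hk0 | hk0
  · subst hk0
    simp
  have h2 := hN k hk
  rw [birkhoffAverage, norm_smul, norm_inv, RCLike.norm_natCast] at h2
  have h3 : ‖∑ i ∈ Finset.range k, f^[i] ξ‖ < r * k := by
    have hkpos : (0 : ℝ) < k := by exact_mod_cast hk0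
    have h4 : birkhoffSum f _root_.id k ξ = ∑ i ∈ Finset.range k, f^[i] ξ := rfl
    rw [h4] at h2
    rw [inv_mul_lt_iff₀ hkpos] at h2
    linarith
  calc (inner ℂ ζ ((κ g : H →L[ℂ] H) (∑ i ∈ Finset.range k, f^[i] ξ))).re
      ≤ ‖inner ℂ ζ ((κ g : H →L[ℂ] H) (∑ i ∈ Finset.range k, f^[i] ξ))‖ := Complex.re_le_norm _
    _ ≤ ‖ζ‖ * ‖(κ g : H →L[ℂ] H) (∑ i ∈ Finset.range k, f^[i] ξ)‖ := norm_inner_le_norm _ _
    _ = ‖∑ i ∈ Finset.range k, f^[i] ξ‖ := by rw [hζ, one_mul, norm_unit]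
    _ ≤ r * k := h3.le

variable {Λ : Type} [Group Λ]

/-- **Heights along the powers of one element.** -/
theorem powers (v : G →* unitary (Op Λ)) (hv : ∀ g, (v g : Op Λ) ∈ LG Λ) (a : G) :
    (∃ c : ℝ, 0 < c ∧ ∀ k : ℤ, ∃ h, c ≤ ‖cf (v (a ^ k) : Op Λ) h‖) ∨
      ∀ r : ℝ, 0 < r → ∃ N : ℕ, ∀ k : ℕ, N ≤ k → ∀ g : G,
        ∑ i ∈ Finset.range k, four (v (g * a ^ i) : Op Λ) ≤ r * k := by
  obtain ⟨w, hw, hcf⟩ := exists_double v hv
  obtain ⟨κ, hκ⟩ := exists_rep (lract Λ) w hw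
  by_cases hno : ∀ x : L2 ((Λ × Λ) × Λ), (κ a : Op ((Λ × Λ) × Λ)) x = x → x = 0
  · right
    intro r hr
    obtain ⟨N, hN⟩ := mean_ergodic κ a hno (dl (((1 : Λ), (1 : Λ)), (1 : Λ)))
      (dl (((1 : Λ), (1 : Λ)), (1 : Λ))) (norm_dl _) hr
    refine ⟨N, fun k hk g => ?_⟩
    have h1 := hN k hk g
    simp only [four_one v w hw hcf κ hκ, Complex.ofReal_re] at h1
    exact h1
  · left
    push Not at hno
    obtain ⟨f, hf, hf0⟩ := hno
    set ι := (Subgroup.zpowers a).subtype with hι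
    obtain ⟨c, hc, hh⟩ := height_of_inv (v.comp ι) (w.comp ι) (fun g => hw _)
      (fun g h => hcf _ h) (κ.comp ι) (fun g => hκ _) (fun g => hv _) f hf0 (by
        rintro ⟨_, k, rfl⟩
        show (κ (a ^ k) : Op ((Λ × Λ) × Λ)) f = f
        have hstab : ∀ g : G, (κ g : Op ((Λ × Λ) × Λ)) f = f → (κ g⁻¹ : Op ((Λ × Λ) × Λ)) f = f := by
          intro g hg
          have : (κ (g⁻¹ * g) : Op ((Λ × Λ) × Λ)) f = f := by
            rw [inv_mul_cancel, map_one]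
            rfl
          rw [map_mul] at this
          have h2 : (κ g⁻¹ : Op ((Λ × Λ) × Λ)) ((κ g : Op ((Λ × Λ) × Λ)) f) = f := this
          rwa [hg] at h2
        have hmul : ∀ g g' : G, (κ g : Op ((Λ × Λ) × Λ)) f = f →
            (κ g' : Op ((Λ × Λ) × Λ)) f = f → (κ (g * g') : Op ((Λ × Λ) × Λ)) f = f := by
          intro g g' hg hg'
          rw [map_mul]
          show (κ g : Op ((Λ × Λ) × Λ)) ((κ g' : Op ((Λ × Λ) × Λ)) f) = f
          rw [hg', hg]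
        let S : Subgroup G :=
          { carrier := {g | (κ g : Op ((Λ × Λ) × Λ)) f = f}
            one_mem' := by
              show (κ 1 : Op ((Λ × Λ) × Λ)) f = f
              rw [map_one]
              rfl
            mul_mem' := fun {x y} hx hy => hmul x y hx hy
            inv_mem' := fun {x} hx => hstab x hx }
        have : a ^ k ∈ S := S.zpow_mem hf k
        exact this)
    exact ⟨c, hc, fun k => hh ⟨a ^ k, k, rfl⟩⟩

end ergodic

section lattice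

variable {n : ℕ} (hn : 3 ≤ n) {Γ : Subgroup (SpecialLinearGroup (Fin n) ℤ)} {G : Type} [Group G]
  (π : Γ →* G) (hsurj : Function.Surjective π)
  (hker : ∀ x : Γ, π x = 1 → ((x : SpecialLinearGroup (Fin n) ℤ) : Matrix (Fin n) (Fin n) ℤ) = 1 ∨
    ((x : SpecialLinearGroup (Fin n) ℤ) : Matrix (Fin n) (Fin n) ℤ) = -1)
  (hscal : ∀ x : Γ, ((x : SpecialLinearGroup (Fin n) ℤ) : Matrix (Fin n) (Fin n) ℤ) = 1 ∨
    ((x : SpecialLinearGroup (Fin n) ℤ) : Matrix (Fin n) (Fin n) ℤ) = -1 → π x = 1)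
  {m : ℕ} (hm : 0 < m) (hΓ : ∀ x : SpecialLinearGroup (Fin n) ℤ, x ^ m ∈ Γ)
  {Λ : Type} [Group Λ]

include hn hsurj hker hscal hm hΓ in
/-- `G` is icc -/
theorem icc_G : Pool.Agent.N414.LR.IsIcc G := by
  intro x hx
  have h0 : (Pi.single ⟨0, by omega⟩ 1 : Fin n → ℤ) ≠ 0 := by
    intro h
    have := congrFun h ⟨0, by omega⟩
    rw [Pi.single_eq_same] at this
    exact one_ne_zero this
  obtain ⟨w₂, hw₂, hind⟩ := exists_ind hn (0 : Fin n → ℤ) _ h0
  have h1 := rel_icc hn π hsurj hker hscal (⊤ : Subgroup G) hind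
    (fun u _ ψ h => ⟨m, hm, hΓ _, trivial⟩) x hx
  refine h1.mono ?_
  rintro y ⟨g, -, hg⟩
  exact ⟨g, hg⟩

include hn hsurj hker hscal hm hΓ in
/-- **One transvection decides.** -/
theorem lower_of_transvection (v : G →* unitary (Op Λ)) (hv : ∀ g, (v g : Op Λ) ∈ LG Λ)
    (hcf1 : ∀ g, g ≠ 1 → cf (v g : Op Λ) 1 = 0) (htot : Total v)
    (w φ : Fin n → ℤ) (h : φ ⬝ᵥ w = 0) (hw : w ≠ 0) (hφ : φ ≠ 0) (ha : T w φ h ∈ Γ) {δ : ℝ}
    (hδ : 0 < δ)
    (hh : ∀ k : ℤ, ∃ x, δ ≤ ‖cf (v ((π (⟨T w φ h, ha⟩ : Γ)) ^ k) : Op Λ) x‖) :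
    ∃ c : ℝ, 0 < c ∧ ∀ g, ∃ x, c ≤ ‖cf (v g : Op Λ) x‖ := by
  have h1 := tight_transvection hn π hsurj hker hscal hm hΓ v hv hcf1 htot w φ h hw hφ ha hδ hh
  have h2 : TE π v (T w φ h) := by
    refine ⟨1, one_ne_zero, by rw [_root_.zpow_one]; exact ha, ?_⟩
    have e : (⟨(T w φ h) ^ (1 : ℤ), by rw [_root_.zpow_one]; exact ha⟩ : Γ) = ⟨T w φ h, ha⟩ :=
      Subtype.ext (_root_.zpow_one _)
    rw [e]
    exact h1
  have h3 := tight_univ π v hv hn hsurj
    (fun u χ hu => TE_all hn π hm hΓ v hv w φ h hw hφ h2 u χ hu)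
  exact lower_of_tight v hv h3

/-! ### the center -/

include hn hm hΓ in
/-- central elements are scalar -/
theorem center_scalar (x : Γ) (hx : x ∈ Subgroup.center Γ) :
    ((x : SpecialLinearGroup (Fin n) ℤ) : Matrix (Fin n) (Fin n) ℤ) = 1 ∨
    ((x : SpecialLinearGroup (Fin n) ℤ) : Matrix (Fin n) (Fin n) ℤ) = -1 := by
  have h0 : (Pi.single ⟨0, by omega⟩ 1 : Fin n → ℤ) ≠ 0 := by
    intro h
    have := congrFun h ⟨0, by omega⟩
    rw [Pi.single_eq_same] at this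
    exact one_ne_zero this
  obtain ⟨w₂, hw₂, hind⟩ := exists_ind hn (0 : Fin n → ℤ) _ h0
  have hfin : {y : Γ | ∃ g ∈ (⊤ : Subgroup Γ), g * (MonoidHom.id Γ x) * g⁻¹ = y}.Finite := by
    refine (Set.finite_singleton x).subset ?_
    rintro y ⟨g, -, rfl⟩
    rw [Set.mem_singleton_iff, MonoidHom.id_apply, Subgroup.mem_center_iff.1 hx g,
      mul_inv_cancel_right]
  have hE : ∀ u : Fin n → ℤ, Eig ((x : SpecialLinearGroup (Fin n) ℤ) :
      Matrix (Fin n) (Fin n) ℤ) u := fun u ψ h =>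
    eig_of_finite hn (MonoidHom.id Γ) (fun y hy => Or.inl (by
      rw [MonoidHom.id_apply] at hy
      rw [hy]
      rfl)) ⊤ x hfin u ψ h m hm (hΓ _) trivial
  exact pm_one (by omega) (x : SpecialLinearGroup (Fin n) ℤ).2
    (scalar_of_eig hind (hE _) (hE _) (hE _))

/-- scalar elements are central -/
theorem scalar_center (x : Γ) (hx : ((x : SpecialLinearGroup (Fin n) ℤ) :
      Matrix (Fin n) (Fin n) ℤ) = 1 ∨
    ((x : SpecialLinearGroup (Fin n) ℤ) : Matrix (Fin n) (Fin n) ℤ) = -1) :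
    x ∈ Subgroup.center Γ := by
  rw [Subgroup.mem_center_iff]
  intro g
  apply Subtype.ext
  apply slext
  show ((g : SpecialLinearGroup (Fin n) ℤ) : Matrix (Fin n) (Fin n) ℤ) *
      ((x : SpecialLinearGroup (Fin n) ℤ) : Matrix (Fin n) (Fin n) ℤ) =
    ((x : SpecialLinearGroup (Fin n) ℤ) : Matrix (Fin n) (Fin n) ℤ) *
      ((g : SpecialLinearGroup (Fin n) ℤ) : Matrix (Fin n) (Fin n) ℤ)
  rcases hx with hx | hx
  · rw [hx, mul_one, one_mul]
  · rw [hx, mul_neg, mul_one, neg_mul, one_mul]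

/-- some power of every element lies in a subgroup of finite index -/
theorem exists_pow_mem (hΓ : Γ.index ≠ 0) :
    ∃ m : ℕ, 0 < m ∧ ∀ x : SpecialLinearGroup (Fin n) ℤ, x ^ m ∈ Γ := by
  refine ⟨Γ.index.factorial, Nat.factorial_pos _, fun x => ?_⟩
  obtain ⟨k, hk, hk', hx⟩ := Subgroup.exists_pow_mem_of_index_ne_zero hΓ x
  obtain ⟨l, hl⟩ := Nat.dvd_factorial hk hk'
  rw [hl, pow_mul]
  exact Γ.pow_mem hx l

end lattice

end

end Pool.Agent.H52.TF
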