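import Pool.Agent.H52.TF.Tight

/-!
# The inverse theorem: heights bounded from below on a group give a tight orbit
-/

set_option autoImplicit false

namespace Pool.Agent.H52.TF

open Pool.Agent.H494R3.GT Pool.Agent.N557.QW Pool.Agent.N414.LR Pool.Agent.H52.HD
open Pool.Agent.N169.QWP (mul_coeff LG_coeff star_ap commute)
open Pool.Agent.N414.LR.CLS (star_v v_mul v_one inner_v norm_v inner_rgt orth)
open Pool.Agent.N414.LR.SQ (cf_eq norm_dl t_sq rgt_mul rgt_one)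
open Pool.Agent.N414.LR.Asm (norm_unit)
open Filter Topology

noncomputable section

variable {Γ Λ : Type} [Group Γ] [Group Λ]

/-- the sums of boundedly many squares of coefficients are eventually at most `r` -/
def BT (v : Γ →* unitary (Op Λ)) (p : Ultrafilter Γ) (r : ℝ) : Prop :=
  ∀ M : ℕ, ∀ᶠ g in p, ∀ F : Finset Λ, F.card ≤ M → ∑ x ∈ F, ‖cf (v g : Op Λ) x‖ ^ 2 ≤ r

theorem BT.mono {v : Γ →* unitary (Op Λ)} {p : Ultrafilter Γ} {r r' : ℝ} (h : BT v p r)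
    (hr : r ≤ r') : BT v p r' := by
  intro M
  filter_upwards [h M] with g hg F hF
  exact (hg F hF).trans hr

theorem BT_one (v : Γ →* unitary (Op Λ)) (hv : ∀ g, (v g : Op Λ) ∈ LG Λ) (p : Ultrafilter Γ) :
    BT v p 1 := by
  intro M
  refine Eventually.of_forall fun g F _ => ?_
  exact sum_le_hasSum _ (fun k _ => sq_nonneg _) (t_sq Λ _ (hv g) (v g).2)

/-- the inequality of Bessel with the bound `r` -/
theorem bessel_BT (v : Γ →* unitary (Op Λ)) (hv : ∀ g, (v g : Op Λ) ∈ LG Λ) (p : Ultrafilter Γ)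
    {r : ℝ} (hr : BT v p r) {ι : Type} (J : Finset ι) (s : ι → Γ → Λ)
    (hs : ∀ i ∈ J, ∀ j ∈ J, i ≠ j → ∀ x, ∀ᶠ g in p, s j g ≠ x * s i g) :
    ∑ j ∈ J, ‖TT v p (s j) (dl 1)‖ ^ 2 ≤ r := by
  classical
  have hfin : ∀ F : Finset Λ, ∑ x ∈ F, ∑ j ∈ J, ‖(TT v p (s j) (dl 1)) x‖ ^ 2 ≤ r := by
    intro F
    have hlim : Tendsto (fun g => ∑ x ∈ F, ∑ j ∈ J, ‖cf (v g : Op Λ) (x * s j g)‖ ^ 2) p
        (𝓝 (∑ x ∈ F, ∑ j ∈ J, ‖(TT v p (s j) (dl 1)) x‖ ^ 2)) := by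
      refine tendsto_finsetSum _ fun x _ => tendsto_finsetSum _ fun j _ => ?_
      have h1 := TT_entry v hv p (s j) x 1
      refine ((h1.norm).pow 2).congr fun g => ?_
      rw [inv_one, mul_one]
    have hev : ∀ᶠ g in p, ∀ i ∈ J, ∀ j ∈ J, ∀ x ∈ F, ∀ y ∈ F, i ≠ j →
        s j g ≠ (y⁻¹ * x) * s i g := by
      rw [Filter.eventually_all_finset]
      intro i hi
      rw [Filter.eventually_all_finset]
      intro j hj
      rw [Filter.eventually_all_finset]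
      intro x _
      rw [Filter.eventually_all_finset]
      intro y _
      by_cases h : i = j
      · exact Eventually.of_forall fun g h' => absurd h h'
      · filter_upwards [hs i hi j hj h (y⁻¹ * x)] with g hg _
        exact hg
    refine le_of_tendsto hlim ?_
    filter_upwards [hev, hr (F ×ˢ J).card] with g hg hgr
    rw [← Finset.sum_product' (f := fun x j => ‖cf (v g : Op Λ) (x * s j g)‖ ^ 2)]
    have hinj : Set.InjOn (fun xj : Λ × ι => xj.1 * s xj.2 g)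
        ((F ×ˢ J : Finset (Λ × ι)) : Set (Λ × ι)) := by
      rintro ⟨x, i⟩ hx ⟨y, j⟩ hy e
      rw [Finset.mem_coe, Finset.mem_product] at hx hy
      change x * s i g = y * s j g at e
      by_cases h : i = j
      · subst h
        rw [mul_right_cancel e]
      · exfalso
        refine hg i hx.2 j hy.2 x hx.1 y hy.1 h ?_
        rw [mul_assoc, e]
        group
    rw [← Finset.sum_image (f := fun k => ‖cf (v g : Op Λ) k‖ ^ 2)
      (g := fun xj : Λ × ι => xj.1 * s xj.2 g) hinj]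
    exact hgr _ Finset.card_image_le
  have h1 : Tendsto (fun F : Finset Λ => ∑ x ∈ F, ∑ j ∈ J, ‖(TT v p (s j) (dl 1)) x‖ ^ 2) atTop
      (𝓝 (∑ j ∈ J, ‖TT v p (s j) (dl 1)‖ ^ 2)) := by
    have h2 : ∀ F : Finset Λ, ∑ x ∈ F, ∑ j ∈ J, ‖(TT v p (s j) (dl 1)) x‖ ^ 2 =
        ∑ j ∈ J, ∑ x ∈ F, ‖(TT v p (s j) (dl 1)) x‖ ^ 2 := fun F => Finset.sum_comm
    simp only [h2]
    exact tendsto_finsetSum _ fun j _ => hasSum_sq (TT v p (s j) (dl 1))
  exact le_of_tendsto h1 (Eventually.of_forall hfin)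

theorem sum_NN_BT (v : Γ →* unitary (Op Λ)) (hv : ∀ g, (v g : Op Λ) ∈ LG Λ) (p : Ultrafilter Γ)
    {r : ℝ} (hr : BT v p r) (J : Finset (Quotient (st Λ p))) : ∑ c ∈ J, NN v hv p c ≤ r := by
  have h1 : ∀ c ∈ J, NN v hv p c = ‖TT v p (Quotient.out c) (dl 1)‖ ^ 2 := by
    intro c _
    conv_lhs => rw [← Quotient.out_eq c]
    rfl
  rw [Finset.sum_congr rfl h1]
  refine bessel_BT v hv p hr J (fun c => Quotient.out c) fun i _ j _ hij x => ?_
  rw [← not_not (a := ∀ᶠ g in p, (Quotient.out j) g ≠ x * (Quotient.out i) g)]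
  intro h2
  rw [Ultrafilter.eventually_not (f := p)] at h2
  rw [not_not] at h2
  apply hij
  rw [← Quotient.out_eq i, ← Quotient.out_eq j]
  exact Quotient.sound ⟨x, h2⟩

/-- **The minimizer.** -/
theorem minimizer_BT (v : Γ →* unitary (Op Λ)) (hv : ∀ g, (v g : Op Λ) ∈ LG Λ) {δ : ℝ}
    (hδ : 0 < δ) (hh : ∀ g, ∃ h, δ ≤ ‖cf (v g : Op Λ) h‖) :
    ∃ (t : ℝ) (p : Ultrafilter Γ), (∀ r, t < r → BT v p r) ∧
      ∀ (q : Ultrafilter Γ) (r : ℝ), BT v q r → t ≤ r := by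
  classical
  set R : Set ℝ := {r | ∃ p : Ultrafilter Γ, BT v p r} with hR
  have hRne : R.Nonempty := ⟨1, (pure 1 : Ultrafilter Γ), BT_one v hv _⟩
  have hlow : ∀ (p : Ultrafilter Γ) (r : ℝ), BT v p r → δ ^ 2 ≤ r := by
    intro p r h
    obtain ⟨g, hg⟩ := (h 1).exists
    obtain ⟨k, hk⟩ := hh g
    have h1 := hg {k} (by simp)
    rw [Finset.sum_singleton] at h1
    refine le_trans ?_ h1
    gcongr
  have hRb : BddBelow R := ⟨δ ^ 2, by
    rintro r ⟨p, h⟩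
    exact hlow p r h⟩
  set t := sInf R with ht
  let K : ℕ → Set (Ultrafilter Γ) := fun n => {p | BT v p (t + 1 / (n + 1 : ℝ))}
  have hclosedB : ∀ r : ℝ, IsClosed {p : Ultrafilter Γ | BT v p r} := by
    intro r
    have : {p : Ultrafilter Γ | BT v p r} = ⋂ (M : ℕ), {p : Ultrafilter Γ |
        {g | ∀ F : Finset Λ, F.card ≤ M → ∑ x ∈ F, ‖cf (v g : Op Λ) x‖ ^ 2 ≤ r} ∈ p} := by
      ext p
      simp only [Set.mem_iInter]
      exact Iff.rfl
    rw [this]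
    exact isClosed_iInter fun M => ultrafilter_isClosed_basic _
  have hKcl : ∀ n, IsClosed (K n) := fun n => hclosedB _
  have hKne : (⋂ n, K n).Nonempty := by
    refine IsCompact.nonempty_iInter_of_sequence_nonempty_isCompact_isClosed K ?_ ?_ ?_ hKcl
    · intro n p h2
      refine BT.mono h2 ?_
      have : (1 : ℝ) / ((n + 1 : ℕ) + 1 : ℝ) ≤ 1 / (n + 1 : ℝ) := by
        gcongr
        linarith
      linarith
    · intro n
      have h1 : t < t + 1 / (n + 1 : ℝ) := by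
        have : (0 : ℝ) < 1 / (n + 1 : ℝ) := by positivity
        linarith
      obtain ⟨r, ⟨p, hr⟩, hlt⟩ := exists_lt_of_csInf_lt hRne h1
      exact ⟨p, BT.mono hr hlt.le⟩
    · exact (hKcl 0).isCompact
  obtain ⟨p, hp⟩ := hKne
  rw [Set.mem_iInter] at hp
  refine ⟨t, p, ?_, ?_⟩
  · intro r hr
    obtain ⟨n, hn⟩ := exists_nat_one_div_lt (show (0 : ℝ) < r - t by linarith)
    exact BT.mono (hp n) (by linarith)
  · intro q r hq
    exact csInf_le hRb ⟨q, hq⟩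

/-- a nonzero class -/
theorem exists_class (v : Γ →* unitary (Op Λ)) (hv : ∀ g, (v g : Op Λ) ∈ LG Λ) {δ : ℝ}
    (hδ : 0 < δ) (hh : ∀ g, ∃ h, δ ≤ ‖cf (v g : Op Λ) h‖) (p : Ultrafilter Γ) :
    ∃ s : Γ → Λ, TT v p s (dl 1) ≠ 0 := by
  choose s hs using hh
  refine ⟨s, fun h0 => ?_⟩
  have h1 := (TT_entry v hv p s 1 1).norm
  have h2 : δ ≤ ‖(TT v p s (dl 1)) 1‖ := by
    refine ge_of_tendsto h1 (Eventually.of_forall fun g => ?_)
    rw [inv_one, mul_one, one_mul]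
    exact hs g
  rw [h0, lp.coeFn_zero] at h2
  change δ ≤ ‖(0 : ℂ)‖ at h2
  rw [norm_zero] at h2
  linarith

theorem exists_enum {α : Type} [Nonempty α] (F : Finset α) {M : ℕ} (hF : F.card ≤ M) :
    ∃ f : Fin M → α, ∀ x ∈ F, ∃ m, f m = x := by
  classical
  refine ⟨fun m => if h : m.1 < F.card then (F.equivFin.symm ⟨m.1, h⟩).1
    else Classical.arbitrary α, fun x hx => ?_⟩
  refine ⟨⟨(F.equivFin ⟨x, hx⟩).1, lt_of_lt_of_le (F.equivFin ⟨x, hx⟩).2 hF⟩, ?_⟩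
  have h1 : (F.equivFin ⟨x, hx⟩).1 < F.card := (F.equivFin ⟨x, hx⟩).2
  simp only [h1, dite_true, Fin.eta, Equiv.symm_apply_apply]

/-- the masses of a translated limit -/
theorem limit_mass (v : Γ →* unitary (Op Λ)) (hv : ∀ g, (v g : Op Λ) ∈ LG Λ) (p : Ultrafilter Γ)
    (b : Γ) (s : Γ → Λ) (k : Λ) :
    Tendsto (fun g => cf (v (b * g) : Op Λ) (k * s g)) p
      (𝓝 (((v b : Op Λ) (TT v p s (dl 1))) k)) := by
  rw [← inner_dl, inner_v]
  refine (TT_tendsto v p s ((v b⁻¹ : Op Λ) (dl k)) (dl 1)).congr fun g => ?_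
  rw [← inner_v, ← v_mul, rgt_dl, inner_dl, LG_coeff (hv _)]
  congr 1
  group

/-- if all sums over `M` points are large, then so is a sum over the classes -/
theorem class_bound (v : Γ →* unitary (Op Λ)) (hv : ∀ g, (v g : Op Λ) ∈ LG Λ)
    (p : Ultrafilter Γ) (b : Γ) (M : ℕ) (r : ℝ)
    (h : ∀ᶠ g in p, ∃ F : Finset Λ, F.card ≤ M ∧ r < ∑ x ∈ F, ‖cf (v (b * g) : Op Λ) x‖ ^ 2) :
    ∃ I : Finset (Quotient (st Λ p) × Λ), I.card ≤ M ∧
      r ≤ ∑ i ∈ I, ‖((v b : Op Λ) (TT v p (Quotient.out i.1) (dl 1))) i.2‖ ^ 2 := by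
  classical
  have h1 : ∀ g, ∃ f : Fin M → Λ, (∃ F : Finset Λ, F.card ≤ M ∧
      r < ∑ x ∈ F, ‖cf (v (b * g) : Op Λ) x‖ ^ 2) →
      ∃ F : Finset Λ, (∀ x ∈ F, ∃ m, f m = x) ∧ r < ∑ x ∈ F, ‖cf (v (b * g) : Op Λ) x‖ ^ 2 := by
    intro g
    by_cases hg : ∃ F : Finset Λ, F.card ≤ M ∧ r < ∑ x ∈ F, ‖cf (v (b * g) : Op Λ) x‖ ^ 2
    · obtain ⟨F, hF, hr⟩ := hg
      obtain ⟨f, hf⟩ := exists_enum F hF
      exact ⟨f, fun _ => ⟨F, hf, hr⟩⟩
    · exact ⟨fun _ => 1, fun h' => absurd h' hg⟩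
  choose f hf using h1
  have h2 : ∀ m : Fin M, ∃ k : Λ, ∀ᶠ g in p,
      f g m = k * Quotient.out (Quotient.mk (st Λ p) fun g => f g m) g := by
    intro m
    have h3 := Quotient.mk_out (s := st Λ p) (fun g => f g m)
    obtain ⟨x, hx⟩ := h3
    exact ⟨x, hx⟩
  choose k hk using h2
  set I : Finset (Quotient (st Λ p) × Λ) :=
    Finset.univ.image fun m : Fin M => (Quotient.mk (st Λ p) fun g => f g m, k m) with hI
  refine ⟨I, (Finset.card_image_le).trans (by simp), ?_⟩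
  have hlim : Tendsto (fun g => ∑ i ∈ I, ‖cf (v (b * g) : Op Λ) (i.2 * Quotient.out i.1 g)‖ ^ 2) p
      (𝓝 (∑ i ∈ I, ‖((v b : Op Λ) (TT v p (Quotient.out i.1) (dl 1))) i.2‖ ^ 2)) :=
    tendsto_finsetSum _ fun i _ => ((limit_mass v hv p b _ _).norm).pow 2
  refine ge_of_tendsto hlim ?_
  filter_upwards [h, Filter.eventually_all.2 hk] with g hg hkg
  obtain ⟨F, hF, hr⟩ := hf g hg
  refine hr.le.trans ?_
  have h4 : F ⊆ I.image fun i : Quotient (st Λ p) × Λ => i.2 * (Quotient.out i.1 : Γ → Λ) g := by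
    intro x hx
    obtain ⟨m, hm⟩ := hF x hx
    rw [Finset.mem_image]
    refine ⟨(Quotient.mk (st Λ p) fun g => f g m, k m),
      Finset.mem_image_of_mem _ (Finset.mem_univ m), ?_⟩
    rw [← hm]
    exact (hkg m).symm
  refine (Finset.sum_le_sum_of_subset_of_nonneg h4 fun _ _ _ => sq_nonneg _).trans ?_
  refine Finset.sum_image_le_of_nonneg ?_
  intro i _
  positivity

/-- **The inverse theorem.** -/
theorem exists_tight (v : Γ →* unitary (Op Λ)) (hv : ∀ g, (v g : Op Λ) ∈ LG Λ) {δ : ℝ}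
    (hδ : 0 < δ) (hh : ∀ g, ∃ h, δ ≤ ‖cf (v g : Op Λ) h‖) :
    ∃ η : L2 Λ, η ≠ 0 ∧ Tight fun g => (v g : Op Λ) η := by
  classical
  obtain ⟨t, p, hp, hmin⟩ := minimizer_BT v hv hδ hh
  obtain ⟨s₀, hs₀⟩ := exists_class v hv hδ hh p
  set c₀ : Quotient (st Λ p) := Quotient.mk _ s₀ with hc₀
  set η := TT v p (Quotient.out c₀) (dl 1) with hη
  have hN : NN v hv p c₀ = ‖η‖ ^ 2 := by
    conv_lhs => rw [← Quotient.out_eq c₀]
    rfl
  have hN' : NN v hv p c₀ = ‖TT v p s₀ (dl 1)‖ ^ 2 := NN_mk v hv p s₀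
  have hη0 : η ≠ 0 := by
    intro h0
    have h1 : ‖TT v p s₀ (dl 1)‖ ^ 2 = 0 := by
      rw [← hN', hN, h0, norm_zero]
      norm_num
    exact hs₀ (norm_eq_zero.1 (pow_eq_zero_iff two_ne_zero |>.1 h1))
  refine ⟨η, hη0, ?_⟩
  by_contra hcon
  rw [Tight] at hcon
  push Not at hcon
  obtain ⟨ε, hε, hN2⟩ := hcon
  choose b hb using hN2
  -- finite sums are small
  have hfin : ∀ N (F : Finset Λ), F.card ≤ N →
      ∑ x ∈ F, ‖((v (b N) : Op Λ) η) x‖ ^ 2 ≤ ‖η‖ ^ 2 - ε ^ 2 := by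
    intro N F hF
    set y := (v (b N) : Op Λ) η with hy
    set z : L2 Λ := MM (F : Set Λ) y with hz
    have hz1 : Sp N z := ⟨F, hF, fun x hx => by
      rw [hz, MM_ap, if_neg (fun h => hx (Finset.mem_coe.1 h))]⟩
    have h1 := hb N z hz1
    have h2 : HasSum (fun x => if x ∈ F then ‖y x‖ ^ 2 else 0) (∑ x ∈ F, ‖y x‖ ^ 2) := by
      have h3 : HasSum (fun x => if x ∈ F then ‖y x‖ ^ 2 else 0)
          (∑ x ∈ F, if x ∈ F then ‖y x‖ ^ 2 else 0) :=
        hasSum_sum_of_ne_finset_zero (fun x hx => if_neg hx)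
      rwa [Finset.sum_congr rfl (fun x hx => if_pos hx)] at h3
    have h4 := (hasSum_sq y).sub h2
    have h5 := hasSum_sq (y - z)
    have h6 : (fun x => ‖(y - z) x‖ ^ 2) =
        fun x => ‖y x‖ ^ 2 - (if x ∈ F then ‖y x‖ ^ 2 else 0) := by
      funext x
      rw [lp.coeFn_sub, Pi.sub_apply, hz, MM_ap]
      by_cases hx : x ∈ F
      · rw [if_pos hx, if_pos (Finset.mem_coe.2 hx), sub_self, norm_zero, sub_self]
        norm_num
      · rw [if_neg hx, if_neg (fun h => hx (Finset.mem_coe.1 h)), sub_zero, sub_zero]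
    rw [h6] at h5
    have h7 := h5.unique h4
    have h8 : ‖y‖ = ‖η‖ := norm_v v _ _
    rw [h8] at h7
    have h9 : ε ^ 2 ≤ ‖y - z‖ ^ 2 := by gcongr
    linarith
  set q : Ultrafilter Γ := (Filter.hyperfilter ℕ).map b with hq
  have hqM : ∀ M : ℕ, ∀ᶠ g in q, ∀ F : Finset Λ, F.card ≤ M →
      ∑ x ∈ F, ‖((v g : Op Λ) η) x‖ ^ 2 ≤ ‖η‖ ^ 2 - ε ^ 2 := by
    intro M
    have h1 : ∀ᶠ N in (Filter.hyperfilter ℕ : Filter ℕ), M ≤ N :=
      Nat.hyperfilter_le_atTop (Filter.eventually_ge_atTop M)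
    have h2 : ∀ᶠ N in (Filter.hyperfilter ℕ : Filter ℕ), ∀ F : Finset Λ, F.card ≤ M →
      ∑ x ∈ F, ‖((v (b N) : Op Λ) η) x‖ ^ 2 ≤ ‖η‖ ^ 2 - ε ^ 2 := by
      filter_upwards [h1] with N hN F hF
      exact hfin N F (hF.trans hN)
    exact h2
  have hbt : BT v (pr q p) (t - ε ^ 2 / 2) := by
    intro M
    by_contra hno
    rw [← Ultrafilter.eventually_not (f := pr q p)] at hno
    have h1 : ∀ᶠ g in pr q p, ∃ F : Finset Λ, F.card ≤ M ∧
        t - ε ^ 2 / 2 < ∑ x ∈ F, ‖cf (v g : Op Λ) x‖ ^ 2 := by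
      filter_upwards [hno] with g hg
      push Not at hg
      exact hg
    rw [eventually_pr] at h1
    obtain ⟨b', hb1, hb2⟩ := (h1.and (hqM M)).exists
    obtain ⟨I, hI, hr⟩ := class_bound v hv p b' M _ hb1
    set J : Finset (Quotient (st Λ p)) := insert c₀ (I.image Prod.fst) with hJ
    have h3 : ∑ i ∈ I, ‖((v b' : Op Λ) (TT v p (Quotient.out i.1) (dl 1))) i.2‖ ^ 2 =
        ∑ c ∈ J, ∑ i ∈ I with i.1 = c,
          ‖((v b' : Op Λ) (TT v p (Quotient.out i.1) (dl 1))) i.2‖ ^ 2 := by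
      rw [Finset.sum_fiberwise_of_maps_to]
      intro i hi
      exact Finset.mem_insert_of_mem (Finset.mem_image_of_mem _ hi)
    have h4 : ∀ c, ∑ i ∈ I with i.1 = c,
        ‖((v b' : Op Λ) (TT v p (Quotient.out i.1) (dl 1))) i.2‖ ^ 2 =
        ∑ x ∈ (I.filter fun i => i.1 = c).image Prod.snd,
          ‖((v b' : Op Λ) (TT v p (Quotient.out c) (dl 1))) x‖ ^ 2 := by
      intro c
      rw [Finset.sum_image]
      · refine Finset.sum_congr rfl fun i hi => ?_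
        rw [(Finset.mem_filter.1 hi).2]
      · intro i hi j hj e
        have hi' := (Finset.mem_filter.1 (Finset.mem_coe.1 hi)).2
        have hj' := (Finset.mem_filter.1 (Finset.mem_coe.1 hj)).2
        exact Prod.ext (hi'.trans hj'.symm) e
    have h5 : ∀ c, ∑ i ∈ I with i.1 = c,
        ‖((v b' : Op Λ) (TT v p (Quotient.out i.1) (dl 1))) i.2‖ ^ 2 ≤ NN v hv p c := by
      intro c
      rw [h4]
      have h6 := sum_le_hasSum ((I.filter fun i => i.1 = c).image Prod.snd)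
        (fun _ _ => sq_nonneg _) (hasSum_sq ((v b' : Op Λ) (TT v p (Quotient.out c) (dl 1))))
      rw [norm_v] at h6
      refine h6.trans (le_of_eq ?_)
      conv_rhs => rw [← Quotient.out_eq c]
      rfl
    have h7 : ∑ i ∈ I with i.1 = c₀,
        ‖((v b' : Op Λ) (TT v p (Quotient.out i.1) (dl 1))) i.2‖ ^ 2 ≤ ‖η‖ ^ 2 - ε ^ 2 := by
      rw [h4]
      refine hb2 _ (Finset.card_image_le.trans ?_)
      exact (Finset.card_filter_le _ _).trans hI
    have h8 : ∑ c ∈ J, ∑ i ∈ I with i.1 = c,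
          ‖((v b' : Op Λ) (TT v p (Quotient.out i.1) (dl 1))) i.2‖ ^ 2 ≤
        (∑ c ∈ J, NN v hv p c) - ε ^ 2 := by
      have hmem : c₀ ∈ J := Finset.mem_insert_self _ _
      rw [← Finset.add_sum_erase J _ hmem, ← Finset.add_sum_erase J (NN v hv p) hmem]
      have h9 := Finset.sum_le_sum (s := J.erase c₀) fun c _ => h5 c
      rw [hN]
      linarith
    have h10 : ∑ c ∈ J, NN v hv p c ≤ t + ε ^ 2 / 4 := by
      refine sum_NN_BT v hv p (hp _ ?_) J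
      have : 0 < ε ^ 2 := by positivity
      linarith
    rw [h3] at hr
    have : 0 < ε ^ 2 := by positivity
    linarith
  have h11 := hmin _ _ hbt
  have : 0 < ε ^ 2 := by positivity
  linarith

end

end Pool.Agent.H52.TF
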