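import Pool.Agent.H52.TF.Trans

/-!
# Subgroups of finite index of `SL_n(ℤ)`: relatively icc subgroups, independent vectors
-/

set_option autoImplicit false
set_option linter.unusedSectionVars false

namespace Pool.Agent.H52.TF

open Matrix
open scoped Pointwise

section vec

variable {n : ℕ}

theorem exists_ne_zero {w : Fin n → ℤ} (hw : w ≠ 0) : ∃ p, w p ≠ 0 := by
  by_contra h
  push Not at h
  exact hw (funext h)

/-- a vector of the kernel of `φ` which is independent of `w` -/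
theorem exists_ind (hn : 3 ≤ n) (φ w : Fin n → ℤ) (hw : w ≠ 0) :
    ∃ w₂ : Fin n → ℤ, φ ⬝ᵥ w₂ = 0 ∧ Ind w w₂ := by
  classical
  obtain ⟨p, hp⟩ := exists_ne_zero hw
  obtain ⟨q, r, hqp, hrp, hqr⟩ : ∃ q r : Fin n, q ≠ p ∧ r ≠ p ∧ q ≠ r := by
    have h1 : 1 < ((Finset.univ : Finset (Fin n)).erase p).card := by
      rw [Finset.card_erase_of_mem (Finset.mem_univ _), Finset.card_univ, Fintype.card_fin]
      omega
    obtain ⟨q, hq, r, hr, hqr⟩ := Finset.one_lt_card.1 h1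
    exact ⟨q, r, (Finset.mem_erase.1 hq).1, (Finset.mem_erase.1 hr).1, hqr⟩
  have hfin : ∀ w₂ : Fin n → ℤ, w₂ p = 0 → (∃ k, w₂ k ≠ 0) → Ind w w₂ := by
    rintro w₂ h0 ⟨k, hk⟩
    exact ⟨p, k, by rw [h0, mul_zero, sub_zero]; exact mul_ne_zero hp hk⟩
  by_cases h : φ q = 0 ∧ φ r = 0
  · refine ⟨Pi.single q 1, ?_, hfin _ ?_ ⟨q, ?_⟩⟩
    · rw [dotProduct_single, h.1, zero_mul]
    · rw [Pi.single_eq_of_ne (Ne.symm hqp)]
    · rw [Pi.single_eq_same]
      exact one_ne_zero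
  · refine ⟨Pi.single r (φ q) - Pi.single q (φ r), ?_, hfin _ ?_ ?_⟩
    · rw [dotProduct_sub, dotProduct_single, dotProduct_single]
      ring
    · rw [Pi.sub_apply, Pi.single_eq_of_ne (Ne.symm hqp), Pi.single_eq_of_ne (Ne.symm hrp),
        sub_zero]
    · rw [not_and_or] at h
      rcases h with h | h
      · refine ⟨r, ?_⟩
        rw [Pi.sub_apply, Pi.single_eq_same, Pi.single_eq_of_ne (Ne.symm hqr), sub_zero]
        exact h
      · refine ⟨q, ?_⟩
        rw [Pi.sub_apply, Pi.single_eq_same, Pi.single_eq_of_ne hqr, zero_sub]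
        exact neg_ne_zero.2 h

/-- two functionals have a common zero -/
theorem exists_common (hn : 3 ≤ n) (φ χ : Fin n → ℤ) :
    ∃ z : Fin n → ℤ, z ≠ 0 ∧ φ ⬝ᵥ z = 0 ∧ χ ⬝ᵥ z = 0 := by
  classical
  set i₀ : Fin n := ⟨0, by omega⟩
  set i₁ : Fin n := ⟨1, by omega⟩
  set i₂ : Fin n := ⟨2, by omega⟩
  have h01 : i₁ ≠ i₀ := by
    intro h
    have := congrArg Fin.val h
    simp [i₀, i₁] at this
  have h20 : i₂ ≠ i₀ := by
    intro h
    have := congrArg Fin.val h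
    simp [i₀, i₂] at this
  have h21 : i₂ ≠ i₁ := by
    intro h
    have := congrArg Fin.val h
    simp [i₁, i₂] at this
  set M : Matrix (Fin n) (Fin n) ℤ := fun i => if i = i₀ then φ else if i = i₁ then χ else 0
    with hM
  have hdet : M.det = 0 := by
    refine det_eq_zero_of_row_eq_zero i₂ fun j => ?_
    show (if i₂ = i₀ then φ else if i₂ = i₁ then χ else 0) j = 0
    rw [if_neg h20, if_neg h21]
    rfl
  obtain ⟨z, hz, hMz⟩ := exists_mulVec_eq_zero_iff.2 hdet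
  refine ⟨z, hz, ?_, ?_⟩
  · have := congrFun hMz i₀
    change (fun i => if i = i₀ then φ else if i = i₁ then χ else 0) i₀ ⬝ᵥ z = 0 at this
    simpa using this
  · have := congrFun hMz i₁
    change (fun i => if i = i₀ then φ else if i = i₁ then χ else 0) i₁ ⬝ᵥ z = 0 at this
    beta_reduce at this
    rw [if_neg h01, if_pos rfl] at this
    exact this

theorem content_dvd (Y : Matrix (Fin n) (Fin n) ℤ) (w : Fin n → ℤ) :
    (Finset.univ : Finset (Fin n)).gcd w ∣ (Finset.univ : Finset (Fin n)).gcd (Y *ᵥ w) := by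
  refine Finset.dvd_gcd fun i _ => ?_
  rw [mulVec, dotProduct]
  exact Finset.dvd_sum fun j _ => dvd_mul_of_dvd_right (Finset.gcd_dvd (Finset.mem_univ j)) _

theorem content_eq (Y : SpecialLinearGroup (Fin n) ℤ) (w : Fin n → ℤ) :
    (Finset.univ : Finset (Fin n)).gcd ((Y : Matrix (Fin n) (Fin n) ℤ) *ᵥ w) =
      (Finset.univ : Finset (Fin n)).gcd w := by
  refine dvd_antisymm_of_normalize_eq Finset.normalize_gcd Finset.normalize_gcd ?_
    (content_dvd _ _)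
  have h1 := content_dvd ((Y⁻¹ : SpecialLinearGroup (Fin n) ℤ) : Matrix (Fin n) (Fin n) ℤ)
    ((Y : Matrix (Fin n) (Fin n) ℤ) *ᵥ w)
  rwa [mulVec_mulVec, coe_inv_mul, one_mulVec] at h1

/-- eigenvalues of unimodular matrices are `1` or `-1` -/
theorem pm_of_not_ind (Y : SpecialLinearGroup (Fin n) ℤ) (w : Fin n → ℤ) (hw : w ≠ 0)
    (h : ¬ Ind w ((Y : Matrix (Fin n) (Fin n) ℤ) *ᵥ w)) :
    (Y : Matrix (Fin n) (Fin n) ℤ) *ᵥ w = w ∨ (Y : Matrix (Fin n) (Fin n) ℤ) *ᵥ w = -w := by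
  set w' := (Y : Matrix (Fin n) (Fin n) ℤ) *ᵥ w with hw'
  obtain ⟨p, hp⟩ := exists_ne_zero hw
  have h1 : ∀ q, w p * w' q = w' p * w q := by
    intro q
    by_contra hne
    exact h ⟨p, q, by rw [mul_comm (w q)]; exact sub_ne_zero.2 hne⟩
  have h2 : (Finset.univ : Finset (Fin n)).gcd (fun q => w p * w' q) =
      (Finset.univ : Finset (Fin n)).gcd (fun q => w' p * w q) := by
    simp only [h1]
  rw [Finset.gcd_mul_left, Finset.gcd_mul_left] at h2
  have h3 : (Finset.univ : Finset (Fin n)).gcd (fun q => w' q) =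
      (Finset.univ : Finset (Fin n)).gcd w := content_eq Y w
  have h3' : (Finset.univ : Finset (Fin n)).gcd (fun q => w q) =
      (Finset.univ : Finset (Fin n)).gcd w := rfl
  rw [h3, h3'] at h2
  have h4 : (Finset.univ : Finset (Fin n)).gcd w ≠ 0 := by
    intro h0
    rw [Finset.gcd_eq_zero_iff] at h0
    exact hp (h0 p (Finset.mem_univ p))
  have h5 := mul_right_cancel₀ h4 h2
  rw [← Int.abs_eq_normalize, ← Int.abs_eq_normalize, abs_eq_abs] at h5
  rcases h5 with h5 | h5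
  · left
    funext q
    have := h1 q
    rw [← h5] at this
    exact mul_left_cancel₀ hp this
  · right
    funext q
    have := h1 q
    rw [show w' p = -w p by rw [h5, neg_neg], neg_mul, ← mul_neg] at this
    exact mul_left_cancel₀ hp this

end vec

section lattice

variable {n : ℕ} (hn : 3 ≤ n) {Γ : Subgroup (SpecialLinearGroup (Fin n) ℤ)} {G : Type} [Group G]
  (π : Γ →* G) (hsurj : Function.Surjective π)
  (hker : ∀ x : Γ, π x = 1 → ((x : SpecialLinearGroup (Fin n) ℤ) : Matrix (Fin n) (Fin n) ℤ) = 1 ∨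
    ((x : SpecialLinearGroup (Fin n) ℤ) : Matrix (Fin n) (Fin n) ℤ) = -1)
  (hscal : ∀ x : Γ, ((x : SpecialLinearGroup (Fin n) ℤ) : Matrix (Fin n) (Fin n) ℤ) = 1 ∨
    ((x : SpecialLinearGroup (Fin n) ℤ) : Matrix (Fin n) (Fin n) ℤ) = -1 → π x = 1)

include hn hker in
/-- an element with finite orbit under the powers of a transvection commutes with it -/
theorem eig_of_finite (N : Subgroup G) (X : Γ) (hfin : {y | ∃ g ∈ N, g * π X * g⁻¹ = y}.Finite)
    (u ψ : Fin n → ℤ) (h : ψ ⬝ᵥ u = 0) (k : ℕ) (hk : 0 < k) (hkΓ : (T u ψ h) ^ k ∈ Γ)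
    (hN : π (⟨(T u ψ h) ^ k, hkΓ⟩ : Γ) ∈ N) :
    vecMulVec (((X : SpecialLinearGroup (Fin n) ℤ) : Matrix (Fin n) (Fin n) ℤ) *ᵥ u) ψ =
      vecMulVec u (ψ ᵥ* ((X : SpecialLinearGroup (Fin n) ℤ) : Matrix (Fin n) (Fin n) ℤ)) := by
  set t : Γ := ⟨(T u ψ h) ^ k, hkΓ⟩ with ht
  have hmem : ∀ i : ℕ, (π t) ^ i * π X * ((π t) ^ i)⁻¹ ∈ {y | ∃ g ∈ N, g * π X * g⁻¹ = y} :=
    fun i => ⟨(π t) ^ i, N.pow_mem hN i, rfl⟩
  obtain ⟨i, j, hij, he⟩ := hfin.exists_lt_map_eq_of_forall_mem hmem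
  obtain ⟨l, rfl⟩ := Nat.exists_eq_add_of_lt hij
  set L := l + 1 with hL
  have he' : (π t) ^ i * π X * ((π t) ^ i)⁻¹ =
      (π t) ^ (i + L) * π X * ((π t) ^ (i + L))⁻¹ := he
  have h1 : (π t) ^ L * π X * ((π t) ^ L)⁻¹ = π X := by
    rw [pow_add] at he'
    have h2 : (π t) ^ i * π X * ((π t) ^ i)⁻¹ =
        (π t) ^ i * ((π t) ^ L * π X * ((π t) ^ L)⁻¹) * ((π t) ^ i)⁻¹ := by
      rw [he']
      group
    exact (mul_left_cancel (mul_right_cancel h2)).symm
  have h2 : π (t ^ L * X * (t ^ L)⁻¹ * X⁻¹) = 1 := by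
    simp only [map_mul, map_inv, map_pow]
    rw [h1, mul_inv_cancel]
  have h3 := hker _ h2
  set Z : Γ := t ^ L * X * (t ^ L)⁻¹ * X⁻¹ with hZ
  have h4 : t ^ L * X = Z * (X * t ^ L) := by
    rw [hZ]
    group
  -- matrices
  set c : ℤ := ((k * L : ℕ) : ℤ) with hc
  have hc0 : c ≠ 0 := by
    rw [hc]
    have : 0 < k * L := Nat.mul_pos hk (Nat.succ_pos l)
    exact_mod_cast this.ne'
  set P : Matrix (Fin n) (Fin n) ℤ :=
    (((t ^ L : Γ) : SpecialLinearGroup (Fin n) ℤ) : Matrix (Fin n) (Fin n) ℤ) with hP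
  set X' : Matrix (Fin n) (Fin n) ℤ :=
    ((X : SpecialLinearGroup (Fin n) ℤ) : Matrix (Fin n) (Fin n) ℤ) with hX'
  have hP1 : P = 1 + c • vecMulVec u ψ := by
    have e1 : ((t ^ L : Γ) : SpecialLinearGroup (Fin n) ℤ) = T (c • u) ψ (by
        rw [dotProduct_smul, h, smul_zero]) := by
      have e2 : ((t ^ L : Γ) : SpecialLinearGroup (Fin n) ℤ) = (T u ψ h) ^ (k * L) := by
        rw [pow_mul]
        rfl
      rw [e2, T_pow]
    rw [hP, e1, T_coe, smul_vecMulVec]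
  have h5 : P * X' = (((Z : Γ) : SpecialLinearGroup (Fin n) ℤ) : Matrix (Fin n) (Fin n) ℤ) *
      (X' * P) := by
    have := congrArg (fun z : Γ =>
      ((z : SpecialLinearGroup (Fin n) ℤ) : Matrix (Fin n) (Fin n) ℤ)) h4
    exact this
  have h6 : P * X' = X' * P := by
    rcases h3 with h3 | h3
    · rw [h5, h3, one_mul]
    · exfalso
      rw [h3] at h5
      set Xi : Matrix (Fin n) (Fin n) ℤ := (((X : SpecialLinearGroup (Fin n) ℤ)⁻¹ :
        SpecialLinearGroup (Fin n) ℤ) : Matrix (Fin n) (Fin n) ℤ) with hXi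
      have e1 : X' * Xi = 1 := coe_mul_inv _
      have e2 : Xi * X' = 1 := coe_inv_mul _
      have e3 : (P * X' * Xi).trace = P.trace := by
        rw [Matrix.mul_assoc, e1, Matrix.mul_one]
      have e4 : (P * X' * Xi).trace = -P.trace := by
        rw [h5, neg_mul, Matrix.one_mul, neg_mul, trace_neg, Matrix.trace_mul_comm,
          ← Matrix.mul_assoc, e2, Matrix.one_mul]
      have e5 : P.trace = n := by
        rw [hP1, trace_add, trace_one, trace_smul, trace_vecMulVec, dotProduct_comm, h, smul_zero,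
          add_zero, Fintype.card_fin]
      rw [e3, e5] at e4
      have : (n : ℤ) = 0 := by linarith
      have : n = 0 := by exact_mod_cast this
      omega
  rw [hP1, add_mul, mul_add, one_mul, mul_one, add_right_inj, smul_mul_assoc, mul_smul_comm,
    vecMulVec_mul, mul_vecMulVec] at h6
  exact (smul_right_injective _ hc0 h6).symm

include hn hsurj hker hscal in
/-- **Relatively icc subgroups.** -/
theorem rel_icc (N : Subgroup G) {w₁ w₂ : Fin n → ℤ} (hind : Ind w₁ w₂)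
    (hN : ∀ u, (u = w₁ ∨ u = w₂ ∨ u = w₁ + w₂) → ∀ (ψ : Fin n → ℤ) (h : ψ ⬝ᵥ u = 0),
      ∃ k : ℕ, 0 < k ∧ ∃ hk : (T u ψ h) ^ k ∈ Γ, π (⟨(T u ψ h) ^ k, hk⟩ : Γ) ∈ N) :
    ∀ x : G, x ≠ 1 → {y | ∃ g ∈ N, g * x * g⁻¹ = y}.Infinite := by
  intro x hx hfin
  obtain ⟨X, rfl⟩ := hsurj x
  have hE : ∀ u, (u = w₁ ∨ u = w₂ ∨ u = w₁ + w₂) →
      Eig ((X : SpecialLinearGroup (Fin n) ℤ) : Matrix (Fin n) (Fin n) ℤ) u := by
    intro u hu ψ h
    obtain ⟨k, hk, hkΓ, hkN⟩ := hN u hu ψ h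
    exact eig_of_finite hn π hker N X hfin u ψ h k hk hkΓ hkN
  refine hx (hscal X (pm_one (by omega) (X : SpecialLinearGroup (Fin n) ℤ).2
    (scalar_of_eig hind (hE _ (Or.inl rfl)) (hE _ (Or.inr (Or.inl rfl)))
      (hE _ (Or.inr (Or.inr rfl))))))

end lattice

end Pool.Agent.H52.TF
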