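import Pool.Agent.H52.TF.LatA
import Pool.Agent.H52.TF.Cyc

/-!
# Subgroups of finite index of `SL_n(ℤ)`: from one transvection to all of them
-/

set_option autoImplicit false
set_option linter.unusedSectionVars false

namespace Pool.Agent.H52.TF

open Matrix
open Pool.Agent.H494R3.GT Pool.Agent.N557.QW Pool.Agent.N414.LR Pool.Agent.H52.HD
open scoped Pointwise

noncomputable section

section general

variable {S : Type} [Group S] {Γ : Subgroup S} {G Λ : Type} [Group G] [Group Λ] (π : Γ →* G)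
  (v : G →* unitary (Op Λ)) (hv : ∀ g, (v g : Op Λ) ∈ LG Λ)

/-- a nontrivial power of `x` lies in `Γ` and is tight -/
def TE (x : S) : Prop := ∃ c : ℤ, c ≠ 0 ∧ ∃ h : x ^ c ∈ Γ, TEl v (π (⟨x ^ c, h⟩ : Γ))

theorem TE.of_eq {x y : S} (h : TE π v x) (e : x = y) : TE π v y := e ▸ h

theorem TE.of_zpow {x : S} {k : ℤ} (hk : k ≠ 0) (h : TE π v (x ^ k)) : TE π v x := by
  obtain ⟨c, hc, hcΓ, ht⟩ := h
  have e : x ^ (k * c) = (x ^ k) ^ c := _root_.zpow_mul x k c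
  refine ⟨k * c, mul_ne_zero hk hc, e ▸ hcΓ, ?_⟩
  have e2 : (⟨x ^ (k * c), e ▸ hcΓ⟩ : Γ) = ⟨(x ^ k) ^ c, hcΓ⟩ := Subtype.ext e
  rw [e2]
  exact ht

theorem TE.zpow {x : S} (h : TE π v x) (k : ℤ) : TE π v (x ^ k) := by
  obtain ⟨c, hc, hcΓ, ht⟩ := h
  have e : (x ^ k) ^ c = (x ^ c) ^ k := by rw [← _root_.zpow_mul, ← _root_.zpow_mul, mul_comm]
  have hm : (x ^ k) ^ c ∈ Γ := by
    rw [e]
    exact Γ.zpow_mem hcΓ k
  refine ⟨c, hc, hm, ?_⟩
  have e2 : (⟨(x ^ k) ^ c, hm⟩ : Γ) = (⟨x ^ c, hcΓ⟩ : Γ) ^ k := Subtype.ext e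
  rw [e2, map_zpow]
  exact TEl.zpow v ht k

include hv in
theorem TE.conj {x : S} (h : TE π v x) (y : Γ) : TE π v ((y : S) * x * (y : S)⁻¹) := by
  obtain ⟨c, hc, hcΓ, ht⟩ := h
  have hm : ((y : S) * x * (y : S)⁻¹) ^ c ∈ Γ := by
    rw [conj_zpow]
    exact Γ.mul_mem (Γ.mul_mem y.2 hcΓ) (Γ.inv_mem y.2)
  refine ⟨c, hc, hm, ?_⟩
  have e2 : (⟨((y : S) * x * (y : S)⁻¹) ^ c, hm⟩ : Γ) = y * (⟨x ^ c, hcΓ⟩ : Γ) * y⁻¹ :=
    Subtype.ext conj_zpow
  rw [e2, map_mul, map_mul, map_inv]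
  exact TEl.conj v hv _ ht

include hv in
theorem TE.mul {x y : S} (h : TE π v x) (h' : TE π v y) (hxy : Commute x y) :
    TE π v (x * y) := by
  obtain ⟨c, hc, hcΓ, ht⟩ := h
  obtain ⟨d, hd, hdΓ, ht'⟩ := h'
  have e1 : (x * y) ^ (c * d) = (x ^ c) ^ d * (y ^ d) ^ c := by
    rw [hxy.mul_zpow, _root_.zpow_mul, ← _root_.zpow_mul y, mul_comm d c]
  have hm : (x * y) ^ (c * d) ∈ Γ := by
    rw [e1]
    exact Γ.mul_mem (Γ.zpow_mem hcΓ d) (Γ.zpow_mem hdΓ c)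
  refine ⟨c * d, mul_ne_zero hc hd, hm, ?_⟩
  have e2 : (⟨(x * y) ^ (c * d), hm⟩ : Γ) = (⟨x ^ c, hcΓ⟩ : Γ) ^ d * (⟨y ^ d, hdΓ⟩ : Γ) ^ c :=
    Subtype.ext e1
  rw [e2, map_mul, map_zpow, map_zpow]
  refine TEl.mul v hv (TEl.zpow v ht d) (TEl.zpow v ht' c) ?_
  have h1 : Commute (⟨x ^ c, hcΓ⟩ : Γ) (⟨y ^ d, hdΓ⟩ : Γ) := Subtype.ext (hxy.zpow_zpow c d)
  exact (h1.map π).zpow_zpow d c

theorem TE.one : TE π v (1 : S) := by
  refine ⟨1, one_ne_zero, by rw [_root_.one_zpow]; exact Γ.one_mem, ?_⟩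
  have e : (⟨(1 : S) ^ (1 : ℤ), by rw [_root_.one_zpow]; exact Γ.one_mem⟩ : Γ) = 1 :=
    Subtype.ext (_root_.one_zpow _)
  rw [e, map_one]
  refine TSet.finite v ?_
  rw [Subgroup.zpowers_one_eq_bot]
  exact Set.finite_singleton _

end general

section lattice

variable {n : ℕ} (hn : 3 ≤ n) {Γ : Subgroup (SpecialLinearGroup (Fin n) ℤ)} {G : Type} [Group G]
  (π : Γ →* G) (hsurj : Function.Surjective π)
  (hker : ∀ x : Γ, π x = 1 → ((x : SpecialLinearGroup (Fin n) ℤ) : Matrix (Fin n) (Fin n) ℤ) = 1 ∨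
    ((x : SpecialLinearGroup (Fin n) ℤ) : Matrix (Fin n) (Fin n) ℤ) = -1)
  (hscal : ∀ x : Γ, ((x : SpecialLinearGroup (Fin n) ℤ) : Matrix (Fin n) (Fin n) ℤ) = 1 ∨
    ((x : SpecialLinearGroup (Fin n) ℤ) : Matrix (Fin n) (Fin n) ℤ) = -1 → π x = 1)
  {m : ℕ} (hm : 0 < m) (hΓ : ∀ x : SpecialLinearGroup (Fin n) ℤ, x ^ m ∈ Γ)
  {Λ : Type} [Group Λ] (v : G →* unitary (Op Λ)) (hv : ∀ g, (v g : Op Λ) ∈ LG Λ)

/-- the elements of `Γ` which fix `φ` -/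
def fixφ (Γ : Subgroup (SpecialLinearGroup (Fin n) ℤ)) (φ : Fin n → ℤ) : Subgroup Γ where
  carrier := {Y | φ ᵥ* ((Y : SpecialLinearGroup (Fin n) ℤ) : Matrix (Fin n) (Fin n) ℤ) = φ}
  one_mem' := by
    show φ ᵥ* (1 : Matrix (Fin n) (Fin n) ℤ) = φ
    rw [vecMul_one]
  mul_mem' {a b} ha hb := by
    show φ ᵥ* (((a : SpecialLinearGroup (Fin n) ℤ) : Matrix (Fin n) (Fin n) ℤ) *
      ((b : SpecialLinearGroup (Fin n) ℤ) : Matrix (Fin n) (Fin n) ℤ)) = φ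
    have ha' : φ ᵥ* ((a : SpecialLinearGroup (Fin n) ℤ) : Matrix (Fin n) (Fin n) ℤ) = φ := ha
    have hb' : φ ᵥ* ((b : SpecialLinearGroup (Fin n) ℤ) : Matrix (Fin n) (Fin n) ℤ) = φ := hb
    rw [← vecMul_vecMul, ha', hb']
  inv_mem' {a} ha := by
    have ha' : φ ᵥ* ((a : SpecialLinearGroup (Fin n) ℤ) : Matrix (Fin n) (Fin n) ℤ) = φ := ha
    show φ ᵥ* ((((a : SpecialLinearGroup (Fin n) ℤ))⁻¹ : SpecialLinearGroup (Fin n) ℤ) :
      Matrix (Fin n) (Fin n) ℤ) = φ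
    conv_lhs => rw [← ha', vecMul_vecMul, coe_mul_inv, vecMul_one]

theorem mem_fixφ {φ : Fin n → ℤ} {Y : Γ} : Y ∈ fixφ Γ φ ↔
    φ ᵥ* ((Y : SpecialLinearGroup (Fin n) ℤ) : Matrix (Fin n) (Fin n) ℤ) = φ := Iff.rfl

/-- the elements of `Γ` which fix `φ` and preserve the group `W` -/
def fixW (Γ : Subgroup (SpecialLinearGroup (Fin n) ℤ)) (φ : Fin n → ℤ)
    (W : AddSubgroup (Fin n → ℤ)) : Subgroup Γ where
  carrier := {Y | Y ∈ fixφ Γ φ ∧
    (∀ x ∈ W, ((Y : SpecialLinearGroup (Fin n) ℤ) : Matrix (Fin n) (Fin n) ℤ) *ᵥ x ∈ W) ∧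
    ∀ x ∈ W, (((Y⁻¹ : Γ) : SpecialLinearGroup (Fin n) ℤ) : Matrix (Fin n) (Fin n) ℤ) *ᵥ x ∈ W}
  one_mem' := by
    refine ⟨(fixφ Γ φ).one_mem, fun x hx => ?_, fun x hx => ?_⟩
    · show (1 : Matrix (Fin n) (Fin n) ℤ) *ᵥ x ∈ W
      rwa [one_mulVec]
    · rw [inv_one]
      show (1 : Matrix (Fin n) (Fin n) ℤ) *ᵥ x ∈ W
      rwa [one_mulVec]
  mul_mem' {a b} ha hb := by
    refine ⟨(fixφ Γ φ).mul_mem ha.1 hb.1, fun x hx => ?_, fun x hx => ?_⟩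
    · show (((a : SpecialLinearGroup (Fin n) ℤ) : Matrix (Fin n) (Fin n) ℤ) *
        ((b : SpecialLinearGroup (Fin n) ℤ) : Matrix (Fin n) (Fin n) ℤ)) *ᵥ x ∈ W
      rw [← mulVec_mulVec]
      exact ha.2.1 _ (hb.2.1 _ hx)
    · rw [_root_.mul_inv_rev]
      show ((((b⁻¹ : Γ) : SpecialLinearGroup (Fin n) ℤ) : Matrix (Fin n) (Fin n) ℤ) *
        (((a⁻¹ : Γ) : SpecialLinearGroup (Fin n) ℤ) : Matrix (Fin n) (Fin n) ℤ)) *ᵥ x ∈ W
      rw [← mulVec_mulVec]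
      exact hb.2.2 _ (ha.2.2 _ hx)
  inv_mem' {a} ha := by
    refine ⟨(fixφ Γ φ).inv_mem ha.1, ha.2.2, fun x hx => ?_⟩
    rw [inv_inv]
    exact ha.2.1 x hx

theorem T_mem_fixφ {φ u ψ : Fin n → ℤ} (hφ : φ ⬝ᵥ u = 0) (h : ψ ⬝ᵥ u = 0) (k : ℕ)
    (hk : (T u ψ h) ^ k ∈ Γ) : (⟨(T u ψ h) ^ k, hk⟩ : Γ) ∈ fixφ Γ φ := by
  rw [mem_fixφ]
  show φ ᵥ* (((T u ψ h) ^ k : SpecialLinearGroup (Fin n) ℤ) : Matrix (Fin n) (Fin n) ℤ) = φ
  rw [T_pow, vecMul_T, dotProduct_smul, hφ, smul_zero, zero_smul, add_zero]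

theorem T_mem_fixW {φ u ψ : Fin n → ℤ} {W : AddSubgroup (Fin n → ℤ)} (hu : u ∈ W)
    (hφ : φ ⬝ᵥ u = 0) (h : ψ ⬝ᵥ u = 0) (k : ℕ)
    (hk : (T u ψ h) ^ k ∈ Γ) : (⟨(T u ψ h) ^ k, hk⟩ : Γ) ∈ fixW Γ φ W := by
  refine ⟨T_mem_fixφ hφ h k hk, fun x hx => ?_, fun x hx => ?_⟩
  · show (((T u ψ h) ^ k : SpecialLinearGroup (Fin n) ℤ) : Matrix (Fin n) (Fin n) ℤ) *ᵥ x ∈ W
    rw [T_pow, T_mulVec]
    exact W.add_mem hx (W.zsmul_mem (W.zsmul_mem hu _) _)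
  · show ((((T u ψ h) ^ k)⁻¹ : SpecialLinearGroup (Fin n) ℤ) : Matrix (Fin n) (Fin n) ℤ) *ᵥ x ∈ W
    rw [T_pow, T_inv, T_mulVec]
    exact W.add_mem hx (W.zsmul_mem (W.neg_mem (W.zsmul_mem hu _)) _)

include hn hsurj hker hscal hm hΓ hv in
/-- **The first step**: heights bounded from below on the powers of a transvection. -/
theorem tight_transvection (hcf1 : ∀ g, g ≠ 1 → cf (v g : Op Λ) 1 = 0) (htot : Total v)
    (w φ : Fin n → ℤ) (h : φ ⬝ᵥ w = 0) (hw : w ≠ 0) (hφ : φ ≠ 0) (ha : T w φ h ∈ Γ) {δ : ℝ}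
    (hδ : 0 < δ)
    (hh : ∀ k : ℤ, ∃ x, δ ≤ ‖cf (v ((π (⟨T w φ h, ha⟩ : Γ)) ^ k) : Op Λ) x‖) :
    TEl v (π (⟨T w φ h, ha⟩ : Γ)) := by
  classical
  set a : Γ := ⟨T w φ h, ha⟩ with hadef
  obtain ⟨w₂, hw₂, hind⟩ := exists_ind hn φ w hw
  -- the conjugates of `a`
  have hdot : ∀ Y : Γ, Y ∈ fixφ Γ φ →
      φ ⬝ᵥ (((Y : SpecialLinearGroup (Fin n) ℤ) : Matrix (Fin n) (Fin n) ℤ) *ᵥ w) = 0 := by
    intro Y hY
    rw [dotProduct_mulVec, mem_fixφ.1 hY, h]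
  have hconj : ∀ (Y : Γ) (hY : Y ∈ fixφ Γ φ), ((Y * a * Y⁻¹ : Γ) : SpecialLinearGroup (Fin n) ℤ) =
      T (((Y : SpecialLinearGroup (Fin n) ℤ) : Matrix (Fin n) (Fin n) ℤ) *ᵥ w) φ (hdot Y hY) := by
    intro Y hY
    exact T_conj _ w φ h _ _ _ rfl (mem_fixφ.1 ((fixφ Γ φ).inv_mem hY))
  refine tight_of_lower v hv hcf1 htot (π a) ?_ hδ hh ((fixφ Γ φ).map π)
    (rel_icc hn π hsurj hker hscal _ hind ?_) ?_ ?_
  · intro h1
    have h2 := hker a h1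
    obtain ⟨i, hi⟩ := exists_ne_zero hw
    obtain ⟨j, hj⟩ := exists_ne_zero hφ
    have h3 : ((a : SpecialLinearGroup (Fin n) ℤ) : Matrix (Fin n) (Fin n) ℤ) =
      1 + vecMulVec w φ := rfl
    rcases h2 with h2 | h2
    · rw [h3] at h2
      have h4 := congrFun (congrFun (add_eq_left.1 h2) i) j
      rw [vecMulVec_apply] at h4
      exact mul_ne_zero hi hj h4
    · rw [h3] at h2
      have h4 := congrArg trace h2
      rw [trace_add, trace_neg, trace_one, trace_vecMulVec, dotProduct_comm, h, add_zero,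
        Fintype.card_fin] at h4
      have : (n : ℤ) = 0 := by linarith
      have : n = 0 := by exact_mod_cast this
      omega
  · -- the group contains the powers of the transvections
    intro u hu ψ hψ
    have hφu : φ ⬝ᵥ u = 0 := by
      rcases hu with rfl | rfl | rfl
      · exact h
      · exact hw₂
      · rw [dotProduct_add, h, hw₂, add_zero]
    exact ⟨m, hm, hΓ _, ⟨_, T_mem_fixφ hφu hψ m (hΓ _), rfl⟩⟩
  · rintro _ ⟨Y, hY, rfl⟩
    rw [← map_inv, ← map_mul, ← map_mul]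
    refine Commute.map ?_ π
    apply Subtype.ext
    show (T w φ h) * ((Y * a * Y⁻¹ : Γ) : SpecialLinearGroup (Fin n) ℤ) =
      ((Y * a * Y⁻¹ : Γ) : SpecialLinearGroup (Fin n) ℤ) * (T w φ h)
    rw [hconj Y hY, T_add, T_add]
    refine T_congr _ _ ?_
    rw [add_comm]
  · rintro _ ⟨Y, hY, rfl⟩ hne1 hne2
    rw [← map_inv, ← map_mul, ← map_mul] at hne1 hne2 ⊢
    rw [← map_inv] at hne2
    set w' := ((Y : SpecialLinearGroup (Fin n) ℤ) : Matrix (Fin n) (Fin n) ℤ) *ᵥ w with hw'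
    have hφw' : φ ⬝ᵥ w' = 0 := hdot Y hY
    have hind' : Ind w w' := by
      by_contra hno
      rcases pm_of_not_ind (Y : SpecialLinearGroup (Fin n) ℤ) w hw hno with h1 | h1
      · apply hne1
        congr 1
        apply Subtype.ext
        rw [hconj Y hY]
        exact T_congr (hdot Y hY) h (by rw [h1])
      · apply hne2
        congr 1
        apply Subtype.ext
        rw [hconj Y hY]
        show _ = (T w φ h)⁻¹
        rw [T_inv]
        exact T_congr (hdot Y hY) (by rw [dotProduct_neg, h, neg_zero]) (by rw [h1])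
    set W : AddSubgroup (Fin n → ℤ) := AddSubgroup.closure {w, w'} with hW
    have hwW : w ∈ W := AddSubgroup.subset_closure (Set.mem_insert _ _)
    have hw'W : w' ∈ W := AddSubgroup.subset_closure (Set.mem_insert_of_mem _ rfl)
    refine ⟨(fixW Γ φ W).map π, rel_icc hn π hsurj hker hscal _ hind' ?_, ?_⟩
    · intro u hu ψ hψ
      have hφu : φ ⬝ᵥ u = 0 ∧ u ∈ W := by
        rcases hu with rfl | rfl | rfl
        · exact ⟨h, hwW⟩
        · exact ⟨hφw', hw'W⟩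
        · exact ⟨by rw [dotProduct_add, h, hφw', add_zero], W.add_mem hwW hw'W⟩
      exact ⟨m, hm, hΓ _, ⟨_, T_mem_fixW hφu.2 hφu.1 hψ m (hΓ _), rfl⟩⟩
    · rintro _ ⟨Z, hZ, rfl⟩ i j
      have hpw : ∀ (i j : ℤ) (hij : φ ⬝ᵥ (i • w + j • w') = 0),
          ((a ^ i * (Y * a * Y⁻¹) ^ j : Γ) : SpecialLinearGroup (Fin n) ℤ) =
          T (i • w + j • w') φ hij := by
        intro i j hij
        have e1 : ((a ^ i : Γ) : SpecialLinearGroup (Fin n) ℤ) = T (i • w) φ (by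
            rw [dotProduct_smul, h, smul_zero]) := by
          rw [← T_zpow w φ h]
          rfl
        have e2 : (((Y * a * Y⁻¹) ^ j : Γ) : SpecialLinearGroup (Fin n) ℤ) = T (j • w') φ (by
            rw [dotProduct_smul, hφw', smul_zero]) := by
          rw [← T_zpow w' φ hφw']
          rw [SubgroupClass.coe_zpow, hconj Y hY]
        rw [Subgroup.coe_mul, e1, e2, T_add]
      have hd : ∀ i j : ℤ, φ ⬝ᵥ (i • w + j • w') = 0 := fun i j => by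
        rw [dotProduct_add, dotProduct_smul, dotProduct_smul, h, hφw', smul_zero, smul_zero,
          add_zero]
      have hmem : i • w + j • w' ∈ W := W.add_mem (W.zsmul_mem hwW _) (W.zsmul_mem hw'W _)
      have h1 := hZ.2.1 _ hmem
      rw [hW, AddSubgroup.mem_closure_pair] at h1
      obtain ⟨i', j', he⟩ := h1
      refine ⟨i', j', ?_⟩
      simp only [← map_zpow, ← map_mul, ← map_inv]
      congr 1
      apply Subtype.ext
      show (Z : SpecialLinearGroup (Fin n) ℤ) *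
        ((a ^ i * (Y * a * Y⁻¹) ^ j : Γ) : SpecialLinearGroup (Fin n) ℤ) *
        (Z : SpecialLinearGroup (Fin n) ℤ)⁻¹ = _
      rw [hpw i j (hd i j), hpw i' j' (hd i' j')]
      exact T_conj _ _ _ _ _ _ _ he.symm (mem_fixφ.1 ((fixφ Γ φ).inv_mem hZ.1))

include hm hΓ hv in
/-- change of the vector -/
theorem TE_change_vec (w φ : Fin n → ℤ) (h : φ ⬝ᵥ w = 0) (hw : w ≠ 0) (ht : TE π v (T w φ h))
    (u : Fin n → ℤ) (hu : φ ⬝ᵥ u = 0) : TE π v (T u φ hu) := by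
  by_cases hind : Ind w u
  · obtain ⟨p, q, hD⟩ := hind
    set D := w p * u q - w q * u p with hDdef
    set ψ : Fin n → ℤ := Pi.single p (u q) - Pi.single q (u p) with hψ
    have hψu : ψ ⬝ᵥ u = 0 := by
      rw [hψ, sub_dotProduct, single_dot, single_dot]
      ring
    have hψw : ψ ⬝ᵥ w = D := by
      rw [hψ, sub_dotProduct, single_dot, single_dot]
      ring
    have h1 := ht.conj π v hv ⟨(T u ψ hψu) ^ m, hΓ _⟩
    have hd : φ ⬝ᵥ (w + (D * m) • u) = 0 := by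
      rw [dotProduct_add, dotProduct_smul, h, hu, smul_zero, add_zero]
    have h2 : TE π v (T (w + (D * m) • u) φ hd) := by
      refine h1.of_eq π v ?_
      refine T_conj _ w φ h _ _ _ ?_ ?_
      · show (((T u ψ hψu) ^ m : SpecialLinearGroup (Fin n) ℤ) : Matrix (Fin n) (Fin n) ℤ) *ᵥ w = _
        rw [T_pow, T_mulVec, hψw, smul_smul]
      · show φ ᵥ* ((((T u ψ hψu) ^ m)⁻¹ : SpecialLinearGroup (Fin n) ℤ) :
          Matrix (Fin n) (Fin n) ℤ) = φ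
        rw [T_pow, T_inv, vecMul_T, dotProduct_neg, dotProduct_smul, hu, smul_zero, neg_zero,
          zero_smul, add_zero]
    have h3 : TE π v ((T w φ h) ^ (-1 : ℤ)) := ht.zpow π v (-1)
    have e4 : (T w φ h) ^ (-1 : ℤ) = T ((-1 : ℤ) • w) φ (by
        rw [dotProduct_smul, h, smul_zero]) := T_zpow w φ h (-1)
    rw [e4] at h3
    have h5 := h2.mul π v hv h3 (by
      show _ * _ = _ * _
      rw [T_add, T_add]
      exact T_congr _ _ (by rw [add_comm]))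
    refine TE.of_zpow π v (k := D * m) (mul_ne_zero hD (by exact_mod_cast hm.ne')) ?_
    refine h5.of_eq π v ?_
    rw [T_add, T_zpow]
    refine T_congr _ _ ?_
    congr 1
    rw [neg_smul, one_smul]
    abel
  · obtain ⟨p, hp⟩ := exists_ne_zero hw
    refine TE.of_zpow π v hp ?_
    refine (ht.zpow π v (u p)).of_eq π v ?_
    rw [T_zpow, T_zpow]
    refine T_congr _ _ ?_
    congr 1
    funext q
    rw [Pi.smul_apply, Pi.smul_apply, smul_eq_mul, smul_eq_mul]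
    by_contra hne
    exact hind ⟨p, q, fun h0 => hne (by linarith)⟩

theorem T_smul_swap (u ψ : Fin n → ℤ) (h : ψ ⬝ᵥ u = 0) (k : ℤ) :
    (T u ψ h) ^ k = T u (k • ψ) (by rw [smul_dotProduct, h, smul_zero]) := by
  rw [T_zpow]
  refine T_congr _ _ ?_
  rw [smul_vecMulVec, vecMulVec_smul]

include hm hΓ hv in
/-- change of the functional -/
theorem TE_change_fun (w φ : Fin n → ℤ) (h : φ ⬝ᵥ w = 0) (hφ : φ ≠ 0) (ht : TE π v (T w φ h))
    (χ : Fin n → ℤ) (hχ : χ ⬝ᵥ w = 0) : TE π v (T w χ hχ) := by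
  by_cases hind : Ind φ χ
  · obtain ⟨p, q, hD⟩ := hind
    set D := φ p * χ q - φ q * χ p with hDdef
    set x : Fin n → ℤ := Pi.single p (χ q) - Pi.single q (χ p) with hx
    have hχx : χ ⬝ᵥ x = 0 := by
      rw [hx, dotProduct_sub, dotProduct_single, dotProduct_single]
      ring
    have hφx : φ ⬝ᵥ x = D := by
      rw [hx, dotProduct_sub, dotProduct_single, dotProduct_single]
    have h1 := ht.conj π v hv ⟨(T x χ hχx) ^ m, hΓ _⟩
    have hd : (φ + (-(D * m)) • χ) ⬝ᵥ w = 0 := by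
      rw [add_dotProduct, smul_dotProduct, h, hχ, smul_zero, add_zero]
    have h2 : TE π v (T w (φ + (-(D * m)) • χ) hd) := by
      refine h1.of_eq π v ?_
      refine T_conj _ w φ h _ _ _ ?_ ?_
      · show (((T x χ hχx) ^ m : SpecialLinearGroup (Fin n) ℤ) : Matrix (Fin n) (Fin n) ℤ) *ᵥ w = _
        rw [T_pow, T_mulVec, hχ, zero_smul, add_zero]
      · show φ ᵥ* ((((T x χ hχx) ^ m)⁻¹ : SpecialLinearGroup (Fin n) ℤ) :
          Matrix (Fin n) (Fin n) ℤ) = _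
        rw [T_pow, T_inv, vecMul_T, dotProduct_neg, dotProduct_smul, hφx, smul_eq_mul]
        congr 2
        ring
    have h3 : TE π v ((T w φ h) ^ (-1 : ℤ)) := ht.zpow π v (-1)
    rw [T_smul_swap] at h3
    have h5 := h2.mul π v hv h3 (by
      show _ * _ = _ * _
      rw [T_add', T_add']
      exact T_congr _ _ (by rw [add_comm]))
    refine TE.of_zpow π v (k := -(D * m))
      (neg_ne_zero.2 (mul_ne_zero hD (by exact_mod_cast hm.ne'))) ?_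
    refine h5.of_eq π v ?_
    rw [T_add', T_smul_swap]
    refine T_congr _ _ ?_
    congr 1
    rw [neg_smul (1 : ℤ) φ, one_smul]
    abel
  · obtain ⟨p, hp⟩ := exists_ne_zero hφ
    refine TE.of_zpow π v hp ?_
    refine (ht.zpow π v (χ p)).of_eq π v ?_
    rw [T_smul_swap, T_smul_swap]
    refine T_congr _ _ ?_
    congr 1
    funext q
    rw [Pi.smul_apply, Pi.smul_apply, smul_eq_mul, smul_eq_mul]
    by_contra hne
    exact hind ⟨p, q, fun h0 => hne (by linarith)⟩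

include hn hm hΓ hv in
/-- **All transvections are tight.** -/
theorem TE_all (w φ : Fin n → ℤ) (h : φ ⬝ᵥ w = 0) (hw : w ≠ 0) (hφ : φ ≠ 0)
    (ht : TE π v (T w φ h)) (u χ : Fin n → ℤ) (hu : χ ⬝ᵥ u = 0) : TE π v (T u χ hu) := by
  obtain ⟨z, hz, hz1, hz2⟩ := exists_common hn φ χ
  have h1 := TE_change_vec π hm hΓ v hv w φ h hw ht z hz1
  have h2 := TE_change_fun π hm hΓ v hv z φ hz1 hφ h1 χ hz2
  exact TE_change_vec π hm hΓ v hv z χ hz2 hz h2 u hu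

end lattice

end

end Pool.Agent.H52.TF
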