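import Pool.Agent.H52.TF.LatB
import Pool.Agent.H52.TF.CK4

/-!
# Everything is tight
-/

set_option autoImplicit false
set_option linter.unusedSectionVars false

namespace Pool.Agent.H52.TF

open Matrix
open Pool.Agent.H494R3.GT Pool.Agent.N557.QW Pool.Agent.N414.LR Pool.Agent.H52.HD
open scoped Pointwise

noncomputable section

variable {n : ℕ} {Γ : Subgroup (SpecialLinearGroup (Fin n) ℤ)} {G : Type} [Group G]
  (π : Γ →* G) {Λ : Type} [Group Λ] (v : G →* unitary (Op Λ))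
  (hv : ∀ g, (v g : Op Λ) ∈ LG Λ)

/-- covered by finitely many translates of a tight set -/
def TT (X : Set (SpecialLinearGroup (Fin n) ℤ)) : Prop :=
  ∃ (F : Set (SpecialLinearGroup (Fin n) ℤ)) (B : Set Γ), F.Finite ∧ TSet v (π '' B) ∧
    ∀ x ∈ X, ∃ b ∈ B, ∃ f ∈ F, x = (b : SpecialLinearGroup (Fin n) ℤ) * f

theorem el_eq_zpow (i j : Fin n) (h : i ≠ j) (c : ℤ) : el i j h c = (el i j h 1) ^ c := by
  rw [el, el, T_zpow]
  refine T_congr _ _ ?_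
  congr 1
  rw [← Pi.single_smul, smul_eq_mul, mul_one]

/-- one step -/
theorem TT_one_step (hall : ∀ (u χ : Fin n → ℤ) (hu : χ ⬝ᵥ u = 0), TE π v (T u χ hu))
    (f : SpecialLinearGroup (Fin n) ℤ) (i j : Fin n) :
    ∃ (F : Set (SpecialLinearGroup (Fin n) ℤ)) (B : Set Γ), F.Finite ∧ TSet v (π '' B) ∧
      ∀ (h : i ≠ j) (c : ℤ), ∃ b ∈ B, ∃ f' ∈ F,
        f * el i j h c = (b : SpecialLinearGroup (Fin n) ℤ) * f' := by
  classical
  by_cases h : i = j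
  · refine ⟨∅, ∅, Set.finite_empty, ?_, fun h' => absurd h h'⟩
    rw [Set.image_empty]
    exact TSet.finite v Set.finite_empty
  set t : SpecialLinearGroup (Fin n) ℤ := f * el i j h 1 * f⁻¹ with ht
  have h0 : (Pi.single j 1 : Fin n → ℤ) ⬝ᵥ (Pi.single i 1 : Fin n → ℤ) = 0 := by
    rw [single_dot, one_mul, Pi.single_eq_of_ne (Ne.symm h)]
  have h1 : ((Pi.single j 1 : Fin n → ℤ) ᵥ* (f⁻¹ : SpecialLinearGroup (Fin n) ℤ).1) ⬝ᵥ
      (f.1 *ᵥ (Pi.single i 1 : Fin n → ℤ)) = 0 := by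
    rw [← dotProduct_mulVec, mulVec_mulVec]
    have : (f⁻¹ : SpecialLinearGroup (Fin n) ℤ).1 * f.1 = 1 := coe_inv_mul f
    rw [this, one_mulVec, h0]
  have ht' : t = T (f.1 *ᵥ (Pi.single i 1 : Fin n → ℤ))
      ((Pi.single j 1 : Fin n → ℤ) ᵥ* (f⁻¹ : SpecialLinearGroup (Fin n) ℤ).1) h1 :=
    T_conj f _ _ h0 _ _ h1 rfl rfl
  obtain ⟨d, hd, hdΓ, htight⟩ := ht' ▸ hall _ _ h1
  refine ⟨(fun r : ℤ => t ^ r * f) '' (Set.Icc 0 |d|),
    (Subgroup.zpowers (⟨t ^ d, hdΓ⟩ : Γ) : Set Γ), (Set.finite_Icc _ _).image _, ?_, ?_⟩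
  · have e : π '' (Subgroup.zpowers (⟨t ^ d, hdΓ⟩ : Γ) : Set Γ) =
        (Subgroup.zpowers (π ⟨t ^ d, hdΓ⟩) : Set G) := by
      rw [← MonoidHom.map_zpowers]
      rfl
    rw [e]
    exact htight
  · intro h' c
    refine ⟨(⟨t ^ d, hdΓ⟩ : Γ) ^ (c / d), ⟨c / d, rfl⟩, t ^ (c % d) * f,
      ⟨c % d, ⟨Int.emod_nonneg _ hd, (Int.emod_lt_abs _ hd).le⟩, rfl⟩, ?_⟩
    have e1 : f * el i j h' c = t ^ c * f := by
      rw [ht, conj_zpow, ← el_eq_zpow]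
      group
    have e2 : (((⟨t ^ d, hdΓ⟩ : Γ) ^ (c / d) : Γ) : SpecialLinearGroup (Fin n) ℤ) =
        t ^ (d * (c / d)) := by
      rw [SubgroupClass.coe_zpow, _root_.zpow_mul]
    rw [e1, e2, ← mul_assoc, ← _root_.zpow_add, Int.mul_ediv_add_emod]

include hv in
theorem TT_step (hall : ∀ (u χ : Fin n → ℤ) (hu : χ ⬝ᵥ u = 0), TE π v (T u χ hu))
    {X : Set (SpecialLinearGroup (Fin n) ℤ)} (hX : TT π v X) : TT π v (X * El n) := by
  classical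
  obtain ⟨F, B, hF, hB, hFB⟩ := hX
  choose F' B' hF' hB' h' using TT_one_step π v hall
  haveI := hF.to_subtype
  refine ⟨⋃ p : F × Fin n × Fin n, F' p.1.1 p.2.1 p.2.2,
    B * ⋃ p : F × Fin n × Fin n, B' p.1.1 p.2.1 p.2.2,
    Set.finite_iUnion fun p => hF' _ _ _, ?_, ?_⟩
  · rw [Set.image_mul, Set.image_iUnion]
    exact TSet.mul v hv hB (TSet.iUnion v fun p => hB' _ _ _)
  · rintro _ ⟨x, hx, _, ⟨i, j, h, c, rfl⟩, rfl⟩
    obtain ⟨b, hb, f, hf, rfl⟩ := hFB x hx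
    obtain ⟨b', hb', f', hf', e⟩ := h' f i j h c
    refine ⟨b * b', Set.mul_mem_mul hb (Set.mem_iUnion.2 ⟨(⟨f, hf⟩, i, j), hb'⟩), f',
      Set.mem_iUnion.2 ⟨(⟨f, hf⟩, i, j), hf'⟩, ?_⟩
    show (b : SpecialLinearGroup (Fin n) ℤ) * f * el i j h c = ((b * b' : Γ) :
      SpecialLinearGroup (Fin n) ℤ) * f'
    rw [mul_assoc, e, Subgroup.coe_mul, mul_assoc]

include hv in
/-- **Everything is tight.** -/
theorem tight_univ (hn : 3 ≤ n) (hsurj : Function.Surjective π)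
    (hall : ∀ (u χ : Fin n → ℤ) (hu : χ ⬝ᵥ u = 0), TE π v (T u χ hu)) :
    TSet v (Set.univ : Set G) := by
  classical
  have h1 : ∀ k : ℕ, TT π v (El n ^ k) := by
    intro k
    induction k with
    | zero =>
      refine ⟨{1}, {1}, Set.finite_singleton _, ?_, ?_⟩
      · rw [Set.image_singleton]
        exact TSet.finite v (Set.finite_singleton _)
      · intro x hx
        rw [pow_zero, Set.mem_one] at hx
        exact ⟨1, rfl, 1, rfl, by rw [hx, Subgroup.coe_one, one_mul]⟩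
    | succ k ih =>
      rw [pow_succ]
      exact TT_step π v hv hall ih
  obtain ⟨k, hk⟩ := bounded_generation n hn
  obtain ⟨F, B, hF, hB, hFB⟩ := h1 k
  have h2 : TSet v ((π '' B) * (π '' {g : Γ | (g : SpecialLinearGroup (Fin n) ℤ) ∈ F})) := by
    refine TSet.mul v hv hB (TSet.finite v (Set.Finite.image _ ?_))
    exact hF.preimage Subtype.val_injective.injOn
  refine h2.mono ?_
  rintro g -
  obtain ⟨x, rfl⟩ := hsurj g
  obtain ⟨b, hb, f, hf, e⟩ := hFB (x : SpecialLinearGroup (Fin n) ℤ) (hk _)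
  refine ⟨π b, ⟨b, hb, rfl⟩, π (b⁻¹ * x), ⟨b⁻¹ * x, ?_, rfl⟩, ?_⟩
  · show ((b⁻¹ * x : Γ) : SpecialLinearGroup (Fin n) ℤ) ∈ F
    rw [Subgroup.coe_mul, Subgroup.coe_inv, e, inv_mul_cancel_left]
    exact hf
  · show π b * π (b⁻¹ * x) = π x
    rw [← map_mul, mul_inv_cancel_left]

end

end Pool.Agent.H52.TF
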