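import Pool.Agent.H52.TF.Inverse

/-!
# The tight subspace of a set of group elements and its projection
-/

set_option autoImplicit false
set_option linter.unusedSectionVars false

namespace Pool.Agent.H52.TF

open Pool.Agent.H494R3.GT Pool.Agent.N557.QW Pool.Agent.N414.LR Pool.Agent.H52.HD
open Pool.Agent.N169.QWP (mul_coeff LG_coeff star_ap commute)
open Pool.Agent.N414.LR.CLS (star_v v_mul v_one inner_v norm_v inner_rgt orth)
open Pool.Agent.N414.LR.SQ (cf_eq norm_dl t_sq rgt_mul rgt_one)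
open Pool.Agent.N414.LR.END (cf_comm mul_mem' star_mem')
open Pool.Agent.N414.LR.Asm (norm_unit)
open Filter Topology

noncomputable section

variable {Γ Λ : Type} [Group Γ] [Group Λ]

/-- the vectors `ξ` whose orbit under `S` is tight -/
def TS (v : Γ →* unitary (Op Λ)) (S : Set Γ) : Submodule ℂ (L2 Λ) where
  carrier := {ξ | Tight fun g : S => (v g.1 : Op Λ) ξ}
  zero_mem' := by
    show Tight fun g : S => (v g.1 : Op Λ) 0
    simp only [map_zero]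
    exact tight_const 0
  add_mem' {ξ η} h h' := by
    show Tight fun g : S => (v g.1 : Op Λ) (ξ + η)
    simp only [map_add]
    exact Tight.add h h'
  smul_mem' c ξ h := by
    show Tight fun g : S => (v g.1 : Op Λ) (c • ξ)
    simp only [map_smul]
    exact Tight.smul c h

variable (v : Γ →* unitary (Op Λ)) (hv : ∀ g, (v g : Op Λ) ∈ LG Λ)

omit [Group Λ] in
theorem mem_TS {v : Γ →* unitary (Op Λ)} {S : Set Γ} {ξ : L2 Λ} :
    ξ ∈ TS v S ↔ Tight fun g : S => (v g.1 : Op Λ) ξ := Iff.rfl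

theorem TS_closed (S : Set Γ) : (TS v S).topologicalClosure = TS v S := by
  refine le_antisymm ?_ (Submodule.le_topologicalClosure _)
  intro ξ hξ
  rw [mem_TS]
  refine Tight.limit fun ε hε => ?_
  have h1 : ξ ∈ closure ((TS v S : Submodule ℂ (L2 Λ)) : Set (L2 Λ)) := hξ
  obtain ⟨η, hη, hd⟩ := Metric.mem_closure_iff.1 h1 ε hε
  refine ⟨fun g => (v g.1 : Op Λ) η, hη, fun g => ?_⟩
  rw [← map_sub, norm_v, ← dist_eq_norm]
  exact hd.le

include hv in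
theorem TS_rgt (S : Set Γ) (a : Λ) {ξ : L2 Λ} (h : ξ ∈ TS v S) : rgt a ξ ∈ TS v S := by
  rw [mem_TS] at h ⊢
  simp only [LG_rgt (hv _)]
  exact h.tr a

theorem TS_mono {S S' : Set Γ} (h : S' ⊆ S) {ξ : L2 Λ} (hξ : ξ ∈ TS v S) : ξ ∈ TS v S' :=
  Tight.comp (y := fun g : S => (v g.1 : Op Λ) ξ) hξ (fun g : S' => ⟨g.1, h g.2⟩)

theorem vmul (v : Γ →* unitary (Op Λ)) (g h : Γ) :
    (v (g * h) : Op Λ) = (v g : Op Λ) * (v h : Op Λ) := by
  rw [map_mul]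
  rfl

theorem TS_le {T : Op Λ} (hT : T ∈ unitary (Op Λ)) (ξ : L2 Λ) : ‖T ξ‖ ≤ ‖ξ‖ :=
  (norm_unit ⟨T, hT⟩ ξ).le

/-- the family of the operators `v g`, `g ∈ S`, is tight if `δ₁` is in the tight subspace -/
theorem tight_all {S : Set Γ} (h : dl 1 ∈ TS v S) (hv : ∀ g, (v g : Op Λ) ∈ LG Λ) {ι : Type}
    {y : ι → L2 Λ} {C : ℝ} (hC : ∀ i, ‖y i‖ ≤ C) (hy : Tight y) :
    Tight fun p : S × ι => (v p.1.1 : Op Λ) (y p.2) :=
  Tight.app (T := fun g : S => (v g.1 : Op Λ)) (fun g => hv g.1)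
    (fun g ξ => TS_le (v g.1).2 ξ) h hC hy

include hv in
theorem mem_TS_of_one {S : Set Γ} (h : dl 1 ∈ TS v S) (ξ : L2 Λ) : ξ ∈ TS v S := by
  have h1 := tight_all v h hv (ι := Unit) (y := fun _ => ξ) (C := ‖ξ‖) (fun _ => le_refl _)
    (tight_const ξ)
  exact h1.comp fun g : S => (g, ())

include hv in
/-- left multiplication by one group element -/
theorem TS_conj {S S' : Set Γ} (g : Γ) (h : ∀ s ∈ S', g⁻¹ * s * g ∈ S) {ξ : L2 Λ}
    (hξ : ξ ∈ TS v S) : (v g : Op Λ) ξ ∈ TS v S' := by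
  rw [mem_TS] at hξ ⊢
  have h1 := Tight.app (J := Unit) (T := fun _ => (v g : Op Λ)) (fun _ => hv g)
    (fun _ ξ => TS_le (v g).2 ξ) (tight_const _) (y := fun s : S => (v s.1 : Op Λ) ξ)
    (C := ‖ξ‖) (fun s => (norm_v v _ _).le) hξ
  refine h1.of_forall fun s => ⟨((), ⟨g⁻¹ * s.1 * g, h s.1 s.2⟩), ?_⟩
  show (v s.1 : Op Λ) ((v g : Op Λ) ξ) = (v g : Op Λ) ((v (g⁻¹ * s.1 * g) : Op Λ) ξ)
  rw [← v_mul, ← v_mul]
  congr 3
  group

/-- the projection onto the tight subspace -/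
def QQ (S : Set Γ) : Op Λ := (TS v S).topologicalClosure.starProjection

theorem QQ_mem (S : Set Γ) (ξ : L2 Λ) : QQ v S ξ ∈ TS v S := by
  have h : QQ v S ξ ∈ (TS v S).topologicalClosure :=
    Submodule.starProjection_apply_mem _ ξ
  rwa [TS_closed] at h

theorem QQ_eq {S : Set Γ} {ξ : L2 Λ} (h : ξ ∈ TS v S) : QQ v S ξ = ξ := by
  rw [← TS_closed] at h
  exact Submodule.starProjection_eq_self_iff.2 h

theorem QQ_le (S : Set Γ) (ξ : L2 Λ) : ‖QQ v S ξ‖ ≤ ‖ξ‖ :=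
  Submodule.norm_starProjection_apply_le _ ξ

theorem QQ_idem (S : Set Γ) : QQ v S * QQ v S = QQ v S := by
  refine ContinuousLinearMap.ext fun ξ => ?_
  rw [mul_ap]
  exact QQ_eq v (QQ_mem v S ξ)

theorem QQ_star (S : Set Γ) : star (QQ v S) = QQ v S := by
  have h : IsSelfAdjoint (QQ v S) := isSelfAdjoint_starProjection _
  exact h

theorem inner_QQ (S : Set Γ) (x y : L2 Λ) : inner ℂ x (QQ v S y) = inner ℂ (QQ v S x) y := by
  conv_rhs => rw [← QQ_star]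
  rw [ContinuousLinearMap.star_eq_adjoint, ContinuousLinearMap.adjoint_inner_left]

/-- a unitary which preserves the subspace commutes with the projection -/
theorem QQ_comm {S : Set Γ} (U U' : Op Λ) (hU : ∀ ξ ∈ TS v S, U ξ ∈ TS v S)
    (hU' : ∀ ξ ∈ TS v S, U' ξ ∈ TS v S) (hadj : ∀ x y, inner ℂ x (U y) = inner ℂ (U' x) y)
    (ξ : L2 Λ) : QQ v S (U ξ) = U (QQ v S ξ) := by
  have h1 : U ξ = U (QQ v S ξ) + U (ξ - QQ v S ξ) := by
    rw [← map_add, add_sub_cancel]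
  have h2 : QQ v S (U (ξ - QQ v S ξ)) = 0 := by
    have h3 := hU' _ (QQ_mem v S (U (ξ - QQ v S ξ)))
    rw [← inner_self_eq_zero (𝕜 := ℂ), inner_QQ, QQ_eq v (QQ_mem v S _), hadj, inner_sub_right,
      inner_QQ, QQ_eq v h3, sub_self]
  conv_lhs => rw [h1, map_add, h2, add_zero]
  exact QQ_eq v (hU _ (QQ_mem v S ξ))

include hv in
theorem QQ_LG (S : Set Γ) : QQ v S ∈ LG Λ := by
  rw [mem_LG]
  intro a
  refine ContinuousLinearMap.ext fun ξ => ?_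
  rw [mul_ap, mul_ap]
  refine (QQ_comm v (rgt a) (rgt a⁻¹) (fun ξ h => TS_rgt v hv S a h)
    (fun ξ h => TS_rgt v hv S a⁻¹ h) (fun x y => inner_rgt' a x y) ξ).symm

include hv in
/-- the projection commutes with the normalizer -/
theorem QQ_norm {S : Set Γ} (g : Γ) (h1 : ∀ s ∈ S, g⁻¹ * s * g ∈ S) (h2 : ∀ s ∈ S, g * s * g⁻¹ ∈ S)
    (ξ : L2 Λ) : QQ v S ((v g : Op Λ) ξ) = (v g : Op Λ) (QQ v S ξ) :=
  QQ_comm v (v g : Op Λ) (v g⁻¹ : Op Λ) (fun _ h => TS_conj v hv g h1 h)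
    (fun _ h => TS_conj v hv g⁻¹ (fun s hs => by rw [inv_inv]; exact h2 s hs) h)
    (fun x y => inner_v v g x y) ξ

/-- the tight subspace of the product of two sets -/
theorem TS_mul {S S' : Set Γ} (hv : ∀ g, (v g : Op Λ) ∈ LG Λ)
    (hcomm : ∀ s ∈ S', ∀ ξ, QQ v S ((v s : Op Λ) ξ) = (v s : Op Λ) (QQ v S ξ)) {ξ : L2 Λ}
    (hξ : ξ ∈ TS v S') : QQ v S ξ ∈ TS v (Set.image2 (fun s s' => s * s') S S') := by
  rw [mem_TS] at hξ ⊢
  have h1 : Tight fun s : S => ((v s.1 : Op Λ) * QQ v S) (dl 1) := by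
    have := QQ_mem v S (dl 1)
    rw [mem_TS] at this
    exact this
  have h2 := Tight.app (T := fun s : S => (v s.1 : Op Λ) * QQ v S)
    (fun s => mul_mem' (hv _) (QQ_LG v hv S))
    (fun s ξ => by
      rw [mul_ap, norm_v]
      exact QQ_le v S ξ) h1 (y := fun s : S' => (v s.1 : Op Λ) ξ) (C := ‖ξ‖)
    (fun s => (norm_v v _ _).le) hξ
  refine h2.of_forall ?_
  rintro ⟨_, s, hs, s', hs', rfl⟩
  refine ⟨(⟨s, hs⟩, ⟨s', hs'⟩), ?_⟩
  show (v (s * s') : Op Λ) (QQ v S ξ) = ((v s : Op Λ) * QQ v S) ((v s' : Op Λ) ξ)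
  rw [v_mul, mul_ap, ← hcomm s' hs']

section scalar

/-- the coefficient of `X δ₁` at `v_g δ₁` is a class function if `X` commutes with the group -/
theorem inner_conj_eq {X : Op Λ} (hX : X ∈ LG Λ) (hv : ∀ g, (v g : Op Λ) ∈ LG Λ) (n g : Γ)
    (hn : ∀ ξ, X ((v n : Op Λ) ξ) = (v n : Op Λ) (X ξ)) :
    inner ℂ ((v (n * g * n⁻¹) : Op Λ) (dl 1)) (X (dl 1)) =
      inner ℂ ((v g : Op Λ) (dl 1)) (X (dl 1)) := by
  have h1 : ∀ k : Γ, inner ℂ ((v k : Op Λ) (dl 1)) (X (dl 1)) = cf ((v k⁻¹ : Op Λ) * X) 1 := by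
    intro k
    rw [cf, mul_ap, inner_v, inv_inv]
  have h2 : (v (n * g * n⁻¹)⁻¹ : Op Λ) * X = (v n : Op Λ) * ((v g⁻¹ : Op Λ) * X * (v n⁻¹ : Op Λ)) := by
    refine ContinuousLinearMap.ext fun ξ => ?_
    rw [mul_ap, mul_ap, mul_ap, mul_ap]
    have h3 : X ((v n⁻¹ : Op Λ) ξ) = (v n⁻¹ : Op Λ) (X ξ) := by
      have h4 := hn ((v n⁻¹ : Op Λ) ξ)
      rw [← v_mul, mul_inv_cancel, v_one] at h4
      rw [h4, ← v_mul, inv_mul_cancel, v_one]
    rw [h3, ← v_mul, ← v_mul]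
    congr 3
    group
  have h5 : (v n⁻¹ : Op Λ) * (v n : Op Λ) = 1 := by
    rw [← vmul, inv_mul_cancel, map_one]
    rfl
  rw [h1, h1, h2, cf_comm (hv _) (mul_mem' (mul_mem' (hv _) hX) (hv _)), mul_assoc, h5, mul_one]

/-- **Operators which commute with a relatively icc subgroup are scalars.** -/
theorem scalar_of_comm {X : Op Λ} (hX : X ∈ LG Λ) (hv : ∀ g, (v g : Op Λ) ∈ LG Λ)
    (hcf1 : ∀ g, g ≠ 1 → cf (v g : Op Λ) 1 = 0) (htot : Total v) (N : Set Γ)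
    (hN : ∀ x : Γ, x ≠ 1 → {y | ∃ n ∈ N, n * x * n⁻¹ = y}.Infinite)
    (hn : ∀ n ∈ N, ∀ ξ, X ((v n : Op Λ) ξ) = (v n : Op Λ) (X ξ)) : X = cf X 1 • 1 := by
  have horth := orth v hv hcf1 1
  have h1 : ∀ g : Γ, g ≠ 1 → inner ℂ ((v g : Op Λ) (dl 1)) (X (dl 1)) = 0 := by
    intro g hg
    by_contra hne
    set c := ‖inner ℂ ((v g : Op Λ) (dl 1)) (X (dl 1))‖ with hc
    have hc0 : 0 < c := norm_pos_iff.2 hne
    have hs : Summable fun k : Γ => ‖inner ℂ ((v k : Op Λ) (dl 1)) (X (dl 1))‖ ^ 2 :=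
      horth.inner_products_summable (X (dl 1))
    have hfin : {k : Γ | c ^ 2 ≤ ‖inner ℂ ((v k : Op Λ) (dl 1)) (X (dl 1))‖ ^ 2}.Finite := by
      have h2 := hs.tendsto_cofinite_zero.eventually_lt_const (show (0 : ℝ) < c ^ 2 by positivity)
      rw [Filter.eventually_cofinite] at h2
      refine h2.subset fun k hk => ?_
      rw [Set.mem_ofPred_eq, not_lt]
      exact hk
    refine hN g hg (hfin.subset ?_)
    rintro _ ⟨n, hnN, rfl⟩
    rw [Set.mem_ofPred_eq, inner_conj_eq v hX hv n g (hn n hnN)]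
  have h2 : X (dl 1) = cf X 1 • dl 1 := by
    rw [← sub_eq_zero]
    refine htot _ fun g => ?_
    rw [inner_sub_right, inner_smul_right]
    by_cases hg : g = 1
    · subst hg
      rw [v_one]
      show inner ℂ (dl 1) (X (dl 1)) - cf X 1 * inner ℂ (dl 1) (dl 1) = 0
      rw [inner_dl (1 : Λ) (dl 1), dl_apply_self, mul_one]
      exact sub_self _
    · rw [h1 g hg]
      have h3 : inner ℂ ((v g : Op Λ) (dl 1)) (dl 1) = 0 := by
        rw [← inner_conj_symm]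
        have := hcf1 g hg
        rw [cf] at this
        rw [this, map_zero]
      rw [h3, mul_zero, sub_zero]
  refine op_ext fun x => ?_
  have h3 : dl x = rgt x (dl (1 : Λ)) := by rw [rgt_dl, one_mul]
  rw [h3, LG_rgt hX, h2, map_smul]
  rfl

include hv in
/-- **Zero-one law**: the tight subspace is zero or everything if the normalizer is relatively
icc. -/
theorem one_mem_TS (hcf1 : ∀ g, g ≠ 1 → cf (v g : Op Λ) 1 = 0) (htot : Total v) (S N : Set Γ)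
    (hN : ∀ x : Γ, x ≠ 1 → {y | ∃ n ∈ N, n * x * n⁻¹ = y}.Infinite)
    (h1 : ∀ n ∈ N, ∀ s ∈ S, n⁻¹ * s * n ∈ S) (h2 : ∀ n ∈ N, ∀ s ∈ S, n * s * n⁻¹ ∈ S)
    (hne : ∃ ξ ∈ TS v S, ξ ≠ 0) : dl 1 ∈ TS v S := by
  have hsc := scalar_of_comm v (QQ_LG v hv S) hv hcf1 htot N hN
    (fun n hn ξ => QQ_norm v hv n (h1 n hn) (h2 n hn) ξ)
  obtain ⟨ξ, hξ, hξ0⟩ := hne
  have h3 := QQ_eq v hξ
  rw [hsc] at h3
  have h4 : cf (QQ v S) 1 = 1 := by
    have h5 : (cf (QQ v S) 1 - 1) • ξ = 0 := by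
      rw [sub_smul, one_smul, sub_eq_zero]
      exact h3
    rcases smul_eq_zero.1 h5 with h6 | h6
    · exact sub_eq_zero.1 h6
    · exact absurd h6 hξ0
  have h5 := QQ_mem v S (dl 1)
  rw [hsc, h4, one_smul] at h5
  exact h5

end scalar

end

end Pool.Agent.H52.TF
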