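import Pool.Agent.H52.TF.Proj

/-!
# Conjugates by generic elements are asymptotically independent
-/

set_option autoImplicit false
set_option linter.unusedSectionVars false

namespace Pool.Agent.H52.TF

open Pool.Agent.H494R3.GT Pool.Agent.N557.QW Pool.Agent.N414.LR Pool.Agent.H52.HD
open Pool.Agent.N169.QWP (mul_coeff LG_coeff star_ap commute)
open Pool.Agent.N414.LR.CLS (star_v v_mul v_one inner_v norm_v inner_rgt orth)
open Pool.Agent.N414.LR.SQ (cf_eq norm_dl t_sq rgt_mul rgt_one)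
open Pool.Agent.N414.LR.END (cf_comm mul_mem' star_mem')
open Pool.Agent.N414.LR.Asm (norm_unit)
open Filter Topology
open scoped Pointwise

noncomputable section

section neumann

/-- **The lemma of Neumann.** -/
theorem neumann {N X : Type} [Group N] [MulAction N X] (E E' : Finset X)
    (hE : ∀ x ∈ E, (MulAction.orbit N x).Infinite) : ∃ g : N, ∀ x ∈ E, g • x ∉ E' := by
  classical
  by_contra hcon
  push Not at hcon
  have h1 : ∀ p : X × X, ∃ g : N, (∃ k : N, k • p.1 = p.2) → g • p.1 = p.2 := by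
    intro p
    by_cases h : ∃ k : N, k • p.1 = p.2
    · obtain ⟨k, hk⟩ := h
      exact ⟨k, fun _ => hk⟩
    · exact ⟨1, fun h' => absurd h' h⟩
  choose γ hγ using h1
  have hcov : ⋃ i ∈ E ×ˢ E', γ i • ((MulAction.stabilizer N i.1 : Subgroup N) : Set N) =
      Set.univ := by
    rw [Set.eq_univ_iff_forall]
    intro g
    obtain ⟨x, hx, hgx⟩ := hcon g
    rw [Set.mem_iUnion₂]
    refine ⟨(x, g • x), Finset.mem_product.2 ⟨hx, hgx⟩, ?_⟩
    have h2 : γ (x, g • x) • x = g • x := hγ (x, g • x) ⟨g, rfl⟩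
    rw [Set.mem_smul_set_iff_inv_smul_mem, SetLike.mem_coe, MulAction.mem_stabilizer_iff,
      smul_eq_mul, mul_smul, inv_smul_eq_iff]
    exact h2.symm
  obtain ⟨i, hi, hfin⟩ := Subgroup.exists_finiteIndex_of_leftCoset_cover hcov
  rw [Finset.mem_product] at hi
  refine hE i.1 hi.1 ?_
  have h3 : Finite (N ⧸ MulAction.stabilizer N i.1) := Subgroup.finite_quotient_of_finiteIndex
  have h4 : Finite (MulAction.orbit N i.1) :=
    Finite.of_equiv _ (MulAction.orbitEquivQuotientStabilizer N i.1).symm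
  exact Set.toFinite _

/-- conjugation by the elements of a subgroup -/
theorem neumann_conj {Γ : Type} [Group Γ] (N : Subgroup Γ)
    (hN : ∀ x : Γ, x ≠ 1 → {y | ∃ n ∈ N, n * x * n⁻¹ = y}.Infinite) (E E' : Finset Γ)
    (hE : (1 : Γ) ∉ E) : ∃ g ∈ N, ∀ x ∈ E, g * x * g⁻¹ ∉ E' := by
  letI : MulAction N Γ :=
    { smul := fun n x => n.1 * x * n.1⁻¹
      one_smul := fun x => by
        show (1 : Γ) * x * (1 : Γ)⁻¹ = x
        group
      mul_smul := fun n m x => by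
        show (n.1 * m.1) * x * (n.1 * m.1)⁻¹ = n.1 * (m.1 * x * m.1⁻¹) * n.1⁻¹
        group }
  obtain ⟨g, hg⟩ := neumann (N := N) E E' (fun x hx => by
    refine (hN x (fun h => hE (h ▸ hx))).mono ?_
    rintro _ ⟨n, hn, rfl⟩
    exact ⟨⟨n, hn⟩, rfl⟩)
  exact ⟨g.1, g.2, hg⟩

end neumann

variable {Γ Λ : Type} [Group Γ] [Group Λ]

/-- the coefficients of the conjugates of `X` become small -/
def PP (v : Γ →* unitary (Op Λ)) (X : Op Λ) (y x : L2 Λ) : Prop :=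
  ∀ ε : ℝ, 0 < ε → ∃ E E' : Finset Γ, (1 : Γ) ∉ E ∧ ∀ g : Γ, (∀ h ∈ E, g * h * g⁻¹ ∉ E') →
    ‖inner ℂ y ((v g : Op Λ) (X ((v g⁻¹ : Op Λ) x)))‖ ≤ ε

variable (v : Γ →* unitary (Op Λ)) (hv : ∀ g, (v g : Op Λ) ∈ LG Λ)
  (hcf1 : ∀ g, g ≠ 1 → cf (v g : Op Λ) 1 = 0) (htot : Total v)

/-- the basis of the vectors `v_g δ₁` -/
def bas : HilbertBasis Γ ℂ (L2 Λ) :=
  HilbertBasis.mkOfOrthogonalEqBot (orth v hv hcf1 1) (by
    rw [Submodule.eq_bot_iff]
    intro ξ hξ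
    refine htot ξ fun g => ?_
    exact (Submodule.mem_orthogonal _ _).1 hξ _ (Submodule.subset_span ⟨g, rfl⟩))

theorem bas_apply (g : Γ) : bas v hv hcf1 htot g = (v g : Op Λ) (dl 1) := by
  unfold bas
  rw [HilbertBasis.coe_mkOfOrthogonalEqBot]

include hcf1 htot hv in
theorem PP_base {X : Op Λ} (hX : X ∈ LG Λ) (hX1 : cf X 1 = 0) (m : Λ) : PP v X (dl m) (dl 1) := by
  classical
  intro ε hε
  set b := bas v hv hcf1 htot with hb
  have hbg : ∀ g, b g = (v g : Op Λ) (dl 1) := bas_apply v hv hcf1 htot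
  -- approximate `X δ₁`
  have h1 := b.hasSum_repr (X (dl 1))
  obtain ⟨E₀, hE₀⟩ := ((Metric.tendsto_nhds.1 h1) (ε / 2) (half_pos hε)).exists
  rw [dist_eq_norm] at hE₀
  have hc1 : b.repr (X (dl 1)) 1 = 0 := by
    rw [HilbertBasis.repr_apply_apply, hbg, v_one]
    exact hX1
  set q : Γ → ℂ := fun h => b.repr (X (dl 1)) h with hq
  set E : Finset Γ := E₀.erase 1 with hE
  have hsum : ∑ h ∈ E₀, q h • b h = ∑ h ∈ E, q h • b h := by
    rw [hE]
    by_cases h1m : (1 : Γ) ∈ E₀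
    · rw [← Finset.add_sum_erase E₀ _ h1m]
      have : q 1 = 0 := hc1
      rw [this, zero_smul, zero_add]
    · rw [Finset.erase_eq_of_notMem h1m]
  set C : ℝ := 1 + ∑ h ∈ E, ‖q h‖ with hC
  have hCpos : 0 < C := by
    have : 0 ≤ ∑ h ∈ E, ‖q h‖ := Finset.sum_nonneg fun _ _ => norm_nonneg _
    linarith
  -- the elements at which `δ_m` has large coefficients
  have hs : Summable fun k : Γ => ‖inner ℂ (b k) (dl m : L2 Λ)‖ ^ 2 :=
    b.orthonormal.inner_products_summable (dl m)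
  have hfin : {k : Γ | (ε / (2 * C)) ^ 2 ≤ ‖inner ℂ (b k) (dl m : L2 Λ)‖ ^ 2}.Finite := by
    have h2 := hs.tendsto_cofinite_zero.eventually_lt_const
      (show (0 : ℝ) < (ε / (2 * C)) ^ 2 by positivity)
    rw [Filter.eventually_cofinite] at h2
    refine h2.subset fun k hk => ?_
    rw [Set.mem_ofPred_eq, not_lt]
    exact hk
  refine ⟨E, hfin.toFinset, Finset.notMem_erase _ _, fun g hg => ?_⟩
  -- the operator
  set T₀ : Op Λ := ∑ h ∈ E, q h • (v h : Op Λ) with hT₀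
  have hT₀m : T₀ ∈ LG Λ := (LG Λ).toStarSubalgebra.sum_mem fun s _ =>
      (LG Λ).toStarSubalgebra.smul_mem (hv s) _
  set R : Op Λ := X - T₀ with hR
  have hRm : R ∈ LG Λ := (LG Λ).toStarSubalgebra.sub_mem hX hT₀m
  have hT₀1 : T₀ (dl 1) = ∑ h ∈ E, q h • b h := by
    rw [hT₀, sum_apply]
    exact Finset.sum_congr rfl fun h _ => by rw [hbg]; rfl
  have hR1 : ‖R (dl 1)‖ < ε / 2 := by
    rw [hR, sub_apply, hT₀1, ← hsum, norm_sub_rev]
    exact hE₀
  have hX2 : X = R + T₀ := by rw [hR]; abel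
  have e1 : (v g : Op Λ) (X ((v g⁻¹ : Op Λ) (dl 1))) =
      (v g : Op Λ) (R ((v g⁻¹ : Op Λ) (dl 1))) + ∑ h ∈ E, q h • b (g * h * g⁻¹) := by
    rw [hX2]
    change (v g : Op Λ) (R ((v g⁻¹ : Op Λ) (dl 1)) + T₀ ((v g⁻¹ : Op Λ) (dl 1))) = _
    rw [map_add]
    congr 1
    rw [hT₀, sum_apply, map_sum]
    refine Finset.sum_congr rfl fun h _ => ?_
    change (v g : Op Λ) (q h • (v h : Op Λ) ((v g⁻¹ : Op Λ) (dl 1))) = _
    rw [map_smul, hbg, v_mul, v_mul]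
  rw [e1, inner_add_right, inner_sum]
  refine (norm_add_le _ _).trans ?_
  have h3 : ‖inner ℂ (dl m) ((v g : Op Λ) (R ((v g⁻¹ : Op Λ) (dl 1))))‖ ≤ ε / 2 := by
    refine (norm_inner_le_norm _ _).trans ?_
    rw [norm_dl, one_mul, norm_v, norm_mul_unitary hRm (hv _) (Unitary.mem_iff.1 (v g⁻¹).2).2]
    exact hR1.le
  have h4 : ‖∑ h ∈ E, inner ℂ (dl m : L2 Λ) (q h • b (g * h * g⁻¹))‖ ≤ ε / 2 := by
    refine (norm_sum_le _ _).trans ?_
    calc ∑ h ∈ E, ‖inner ℂ (dl m : L2 Λ) (q h • b (g * h * g⁻¹))‖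
        ≤ ∑ h ∈ E, ‖q h‖ * (ε / (2 * C)) := by
          refine Finset.sum_le_sum fun h hh => ?_
          rw [inner_smul_right, norm_mul]
          have h5 := hg h hh
          rw [Set.Finite.mem_toFinset, Set.mem_ofPred_eq, not_le] at h5
          have h6 : ‖inner ℂ (b (g * h * g⁻¹)) (dl m : L2 Λ)‖ < ε / (2 * C) :=
            lt_of_pow_lt_pow_left₀ 2 (by positivity) h5
          rw [norm_inner_symm] at h6
          gcongr
      _ = (∑ h ∈ E, ‖q h‖) * (ε / (2 * C)) := by rw [Finset.sum_mul]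
      _ ≤ C * (ε / (2 * C)) := by
          gcongr
          rw [hC]
          linarith
      _ = ε / 2 := by field_simp
  linarith

include hcf1 htot hv in
theorem PP_dl {X : Op Λ} (hX : X ∈ LG Λ) (hX1 : cf X 1 = 0) (k l : Λ) :
    PP v X (dl k) (dl l) := by
  intro ε hε
  obtain ⟨E, E', h1, h2⟩ := PP_base v hv hcf1 htot hX hX1 (k * l⁻¹) ε hε
  refine ⟨E, E', h1, fun g hg => ?_⟩
  have h3 := h2 g hg
  have e1 : (dl l : L2 Λ) = rgt l (dl 1) := by rw [rgt_dl, one_mul]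
  have e2 : (dl (k * l⁻¹) : L2 Λ) = rgt l⁻¹ (dl k) := by rw [rgt_dl]
  rw [e1, LG_rgt (hv _), LG_rgt hX, LG_rgt (hv _), inner_rgt', ← e2]
  exact h3

include hcf1 htot hv in
/-- **Asymptotic independence.** -/
theorem PP_all {X : Op Λ} (hX : X ∈ LG Λ) (hX1 : cf X 1 = 0) {C : ℝ} (hC0 : 0 ≤ C)
    (hC : ∀ ξ, ‖X ξ‖ ≤ C * ‖ξ‖) (y x : L2 Λ) : PP v X y x := by
  classical
  intro ε hε
  have hY : ∀ g ξ, ‖(v g : Op Λ) (X ((v g⁻¹ : Op Λ) ξ))‖ ≤ C * ‖ξ‖ := by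
    intro g ξ
    rw [norm_v]
    refine (hC _).trans ?_
    rw [norm_v]
  -- approximate the vectors
  obtain ⟨L, hL⟩ := exists_approx x (show (0 : ℝ) < ε / (3 * (C * ‖y‖ + 1)) by positivity)
  set x₀ : L2 Λ := ∑ s ∈ L, x s • (dl s : L2 Λ) with hx₀
  obtain ⟨K, hK⟩ := exists_approx y (show (0 : ℝ) < ε / (3 * (C * ‖x₀‖ + 1)) by positivity)
  set y₀ : L2 Λ := ∑ s ∈ K, y s • (dl s : L2 Λ) with hy₀
  set D : ℝ := 1 + ∑ k ∈ K, ∑ l ∈ L, ‖y k‖ * ‖x l‖ with hD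
  have hDpos : 0 < D := by
    have : 0 ≤ ∑ k ∈ K, ∑ l ∈ L, ‖y k‖ * ‖x l‖ := Finset.sum_nonneg fun _ _ =>
      Finset.sum_nonneg fun _ _ => by positivity
    linarith
  choose E E' hE hEE' using fun k l : Λ => PP_dl v hv hcf1 htot hX hX1 k l (ε / (3 * D))
    (by positivity)
  refine ⟨K.biUnion fun k => L.biUnion fun l => E k l, K.biUnion fun k => L.biUnion fun l => E' k l,
    ?_, fun g hg => ?_⟩
  · simp only [Finset.mem_biUnion, not_exists, not_and]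
    intro k _ l _
    exact hE k l
  · have h1 : ∀ k ∈ K, ∀ l ∈ L,
        ‖inner ℂ (dl k : L2 Λ) ((v g : Op Λ) (X ((v g⁻¹ : Op Λ) (dl l))))‖ ≤ ε / (3 * D) := by
      intro k hk l hl
      refine hEE' k l g fun h hh hh' => ?_
      refine hg h ?_ ?_
      · rw [Finset.mem_biUnion]
        exact ⟨k, hk, Finset.mem_biUnion.2 ⟨l, hl, hh⟩⟩
      · rw [Finset.mem_biUnion]
        exact ⟨k, hk, Finset.mem_biUnion.2 ⟨l, hl, hh'⟩⟩
    set Y : L2 Λ → L2 Λ := fun ξ => (v g : Op Λ) (X ((v g⁻¹ : Op Λ) ξ)) with hYdef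
    have hYsub : ∀ a b, Y (a - b) = Y a - Y b := fun a b => by
      simp only [hYdef, map_sub]
    have h2 : inner ℂ y (Y x) = inner ℂ y (Y (x - x₀)) + inner ℂ (y - y₀) (Y x₀) +
        inner ℂ y₀ (Y x₀) := by
      rw [hYsub, inner_sub_right, inner_sub_left]
      ring
    have h3 : ‖inner ℂ y (Y (x - x₀))‖ ≤ ε / 3 := by
      refine (norm_inner_le_norm _ _).trans ?_
      calc ‖y‖ * ‖Y (x - x₀)‖ ≤ ‖y‖ * (C * ‖x - x₀‖) := by
            have := hY g (x - x₀)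
            gcongr
        _ = (C * ‖y‖) * ‖x - x₀‖ := by ring
        _ ≤ (C * ‖y‖ + 1) * (ε / (3 * (C * ‖y‖ + 1))) := by
            gcongr
            linarith
        _ = ε / 3 := by field_simp
    have h4 : ‖inner ℂ (y - y₀) (Y x₀)‖ ≤ ε / 3 := by
      refine (norm_inner_le_norm _ _).trans ?_
      calc ‖y - y₀‖ * ‖Y x₀‖ ≤ (ε / (3 * (C * ‖x₀‖ + 1))) * (C * ‖x₀‖) := by
            have := hY g x₀
            gcongr
        _ ≤ (ε / (3 * (C * ‖x₀‖ + 1))) * (C * ‖x₀‖ + 1) := by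
            gcongr
            linarith
        _ = ε / 3 := by field_simp
    have h5 : ‖inner ℂ y₀ (Y x₀)‖ ≤ ε / 3 := by
      have e1 : inner ℂ y₀ (Y x₀) = ∑ k ∈ K, ∑ l ∈ L,
          (starRingEnd ℂ) (y k) * (x l * inner ℂ (dl k : L2 Λ) (Y (dl l))) := by
        rw [hy₀, sum_inner]
        refine Finset.sum_congr rfl fun k _ => ?_
        rw [inner_smul_left, hx₀]
        simp only [hYdef, map_sum, map_smul, inner_sum, inner_smul_right, Finset.mul_sum]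
      rw [e1]
      refine (norm_sum_le _ _).trans ?_
      calc ∑ k ∈ K, ‖∑ l ∈ L, (starRingEnd ℂ) (y k) * (x l * inner ℂ (dl k : L2 Λ) (Y (dl l)))‖
          ≤ ∑ k ∈ K, ∑ l ∈ L, (‖y k‖ * ‖x l‖) * (ε / (3 * D)) := by
            refine Finset.sum_le_sum fun k hk => (norm_sum_le _ _).trans ?_
            refine Finset.sum_le_sum fun l hl => ?_
            rw [norm_mul, norm_mul, RCLike.norm_conj, ← mul_assoc]
            have := h1 k hk l hl
            gcongr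
        _ = (∑ k ∈ K, ∑ l ∈ L, ‖y k‖ * ‖x l‖) * (ε / (3 * D)) := by
            simp only [Finset.sum_mul]
        _ ≤ D * (ε / (3 * D)) := by
            gcongr
            rw [hD]
            linarith
        _ = ε / 3 := by field_simp
    change ‖inner ℂ y (Y x)‖ ≤ ε
    rw [h2]
    refine (norm_add_le _ _).trans ?_
    have := norm_add_le (inner ℂ y (Y (x - x₀))) (inner ℂ (y - y₀) (Y x₀))
    linarith

include hcf1 htot hv in
/-- a conjugate of a nonzero tight projection does not kill a given vector -/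
theorem exists_conj_ne {S : Set Γ} (hS : ∃ ξ ∈ TS v S, ξ ≠ 0) (N : Subgroup Γ)
    (hN : ∀ x : Γ, x ≠ 1 → {y | ∃ n ∈ N, n * x * n⁻¹ = y}.Infinite) (E E' : Finset Γ)
    (hE : (1 : Γ) ∉ E) (x : L2 Λ) (hx : x ≠ 0) :
    ∃ g ∈ N, (∀ h ∈ E, g * h * g⁻¹ ∉ E') ∧
      (v g : Op Λ) (QQ v S ((v g⁻¹ : Op Λ) x)) ≠ 0 := by
  classical
  have hQ := QQ_LG v hv S
  set τ : ℂ := cf (QQ v S) 1 with hτ
  -- the trace is positive
  have hτ1 : τ = ((‖QQ v S (dl 1)‖ ^ 2 : ℝ) : ℂ) := by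
    rw [hτ, cf]
    have h1 : QQ v S (dl 1) = QQ v S (QQ v S (dl 1)) :=
      (QQ_eq v (QQ_mem v S (dl 1))).symm
    conv_lhs => rw [h1, inner_QQ, inner_self_eq_norm_sq_to_K]
    norm_cast
  have hτ0 : 0 < ‖QQ v S (dl 1)‖ := by
    rw [norm_pos_iff]
    intro h0
    obtain ⟨ξ, hξ, hξ0⟩ := hS
    have h2 : QQ v S = 0 := by
      refine op_ext fun y => ?_
      have e1 : (dl y : L2 Λ) = rgt y (dl 1) := by rw [rgt_dl, one_mul]
      rw [e1, LG_rgt hQ, h0, map_zero]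
      rfl
    have h3 := QQ_eq v hξ
    rw [h2] at h3
    exact hξ0 h3.symm
  set X : Op Λ := QQ v S - τ • 1 with hX
  have hXm : X ∈ LG Λ := (LG Λ).toStarSubalgebra.sub_mem hQ
    ((LG Λ).toStarSubalgebra.smul_mem (one_mem _) _)
  have hX1 : cf X 1 = 0 := by
    rw [hX, cf, sub_apply, inner_sub_right]
    change inner ℂ (dl 1) (QQ v S (dl 1)) - inner ℂ (dl 1) (τ • (dl (1 : Λ) : L2 Λ)) = 0
    rw [inner_smul_right, inner_dl (1 : Λ) (dl 1), dl_apply_self, mul_one, hτ, cf, sub_self]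
  have hXC : ∀ ξ, ‖X ξ‖ ≤ (1 + ‖τ‖) * ‖ξ‖ := by
    intro ξ
    rw [hX, sub_apply]
    change ‖QQ v S ξ - τ • ξ‖ ≤ _
    refine (norm_sub_le _ _).trans ?_
    rw [norm_smul, add_mul, one_mul]
    have := QQ_le v S ξ
    linarith
  have hτn : ‖τ‖ = ‖QQ v S (dl 1)‖ ^ 2 := by
    rw [hτ1, Complex.norm_real, Real.norm_of_nonneg (sq_nonneg _)]
  have hxn : 0 < ‖x‖ := norm_pos_iff.2 hx
  obtain ⟨E₁, E₁', h1, h2⟩ := PP_all v hv hcf1 htot hXm hX1 (by positivity) hXC x x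
    (‖τ‖ * ‖x‖ ^ 2 / 2) (by rw [hτn]; positivity)
  obtain ⟨g, hg, hgE⟩ := neumann_conj N hN (E ∪ E₁) (E' ∪ E₁') (by
    rw [Finset.mem_union, not_or]
    exact ⟨hE, h1⟩)
  refine ⟨g, hg, fun h hh hh' => hgE h (Finset.mem_union_left _ hh) (Finset.mem_union_left _ hh'),
    fun h0 => ?_⟩
  have h3 := h2 g fun h hh hh' =>
    hgE h (Finset.mem_union_right _ hh) (Finset.mem_union_right _ hh')
  have h4 : (v g : Op Λ) (X ((v g⁻¹ : Op Λ) x)) = - (τ • x) := by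
    rw [hX, sub_apply, map_sub, h0, zero_sub]
    change -((v g : Op Λ) (τ • (v g⁻¹ : Op Λ) x)) = _
    rw [map_smul, ← v_mul, mul_inv_cancel, v_one]
  rw [h4, inner_neg_right, inner_smul_right, norm_neg, norm_mul, inner_self_eq_norm_sq_to_K,
    norm_pow] at h3
  change ‖τ‖ * ‖((‖x‖ : ℝ) : ℂ)‖ ^ 2 ≤ _ at h3
  rw [Complex.norm_real, norm_norm] at h3
  have h5 : 0 < ‖τ‖ * ‖x‖ ^ 2 := by
    rw [hτn]
    positivity
  linarith

end

end Pool.Agent.H52.TF
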