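import Pool.Agent.H52.TF.Gen

/-!
# Tight families of vectors of `ℓ²(Λ)`
-/

set_option autoImplicit false

namespace Pool.Agent.H52.TF

open Pool.Agent.H494R3.GT Pool.Agent.N557.QW Pool.Agent.N414.LR Pool.Agent.H52.HD
open Pool.Agent.N414.LR.CLS (star_v v_mul v_one inner_v norm_v inner_rgt orth)
open Pool.Agent.N414.LR.SQ (cf_eq norm_dl t_sq rgt_mul rgt_one)
open Pool.Agent.N414.LR.Asm (norm_unit)
open Filter Topology

noncomputable section

/-- the support of `z` has at most `N` elements -/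
def Sp {Λ : Type} (N : ℕ) (z : L2 Λ) : Prop := ∃ F : Finset Λ, F.card ≤ N ∧ ∀ x, x ∉ F → z x = 0

/-- the family `y` is approximated uniformly by vectors with supports of bounded size -/
def Tight {ι Λ : Type} (y : ι → L2 Λ) : Prop :=
  ∀ ε : ℝ, 0 < ε → ∃ N : ℕ, ∀ i, ∃ z, Sp N z ∧ ‖y i - z‖ ≤ ε

section basic

variable {ι κ Λ : Type}

theorem Sp.mono {N M : ℕ} {z : L2 Λ} (h : Sp N z) (hNM : N ≤ M) : Sp M z := by
  obtain ⟨F, hF, hz⟩ := h
  exact ⟨F, hF.trans hNM, hz⟩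

theorem Sp.add {N M : ℕ} {z w : L2 Λ} (h : Sp N z) (h' : Sp M w) : Sp (N + M) (z + w) := by
  classical
  obtain ⟨F, hF, hz⟩ := h
  obtain ⟨G, hG, hw⟩ := h'
  refine ⟨F ∪ G, (Finset.card_union_le F G).trans (add_le_add hF hG), fun x hx => ?_⟩
  rw [Finset.mem_union, not_or] at hx
  rw [lp.coeFn_add, Pi.add_apply, hz x hx.1, hw x hx.2, add_zero]

theorem Sp.smul {N : ℕ} {z : L2 Λ} (c : ℂ) (h : Sp N z) : Sp N (c • z) := by
  obtain ⟨F, hF, hz⟩ := h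
  refine ⟨F, hF, fun x hx => ?_⟩
  rw [lp.coeFn_smul, Pi.smul_apply, hz x hx, smul_zero]

theorem Sp.zero : Sp 0 (0 : L2 Λ) := ⟨∅, le_refl _, fun x _ => by
  rw [lp.coeFn_zero]
  rfl⟩

theorem Sp.sum {α : Type} (F : Finset α) (w : α → L2 Λ) {M : ℕ} (h : ∀ s ∈ F, Sp M (w s)) :
    Sp (F.card * M) (∑ s ∈ F, w s) := by
  classical
  induction F using Finset.induction_on with
  | empty => simpa using Sp.zero
  | insert a F ha ih =>
    rw [Finset.sum_insert ha, Finset.card_insert_of_notMem ha]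
    have h1 := (h a (Finset.mem_insert_self _ _)).add
      (ih fun s hs => h s (Finset.mem_insert_of_mem hs))
    refine h1.mono ?_
    rw [Nat.add_mul, one_mul]
    omega

theorem Tight.bdd {y : ι → L2 Λ} (h : Tight y) {ε : ℝ} (hε : 0 < ε) :
    ∃ N : ℕ, ∀ i, ∃ F : Finset Λ, F.card ≤ N ∧
      ‖y i - ∑ s ∈ F, (y i) s • (dl s : L2 Λ)‖ ≤ ε := by
  classical
  obtain ⟨N, hN⟩ := h ε hε
  refine ⟨N, fun i => ?_⟩
  obtain ⟨z, ⟨F, hF, hz⟩, hyz⟩ := hN i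
  refine ⟨F, hF, le_trans ?_ hyz⟩
  have h1 : y i - ∑ s ∈ F, (y i) s • (dl s : L2 Λ) = MM ((F : Set Λ)ᶜ) (y i - z) := by
    apply vec_ext
    intro x
    rw [MM_ap]
    have h2 : (∑ s ∈ F, (y i) s • (dl s : L2 Λ)) x = if x ∈ F then (y i) x else 0 := by
      have h3 : (∑ s ∈ F, (y i) s • (dl s : L2 Λ)) x =
          inner ℂ (dl x) (∑ s ∈ F, (y i) s • (dl s : L2 Λ)) := (inner_dl x _).symm
      rw [h3, inner_sum]
      simp only [inner_smul_right, inner_dl]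
      split_ifs with hx
      · rw [Finset.sum_eq_single_of_mem x hx]
        · rw [dl_apply_self, mul_one]
        · intro b _ hb
          rw [dl_apply_ne (Ne.symm hb), mul_zero]
      · refine Finset.sum_eq_zero fun b hb => ?_
        rw [dl_apply_ne (fun h : x = b => hx (h ▸ hb)), mul_zero]
    rw [lp.coeFn_sub, Pi.sub_apply, h2, lp.coeFn_sub, Pi.sub_apply]
    by_cases hx : x ∈ F
    · rw [if_pos hx, if_neg (fun h => h (Finset.mem_coe.2 hx)), sub_self]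
    · rw [if_neg hx, if_pos (show x ∈ ((F : Set Λ)ᶜ) from hx), hz x hx]
  rw [h1]
  exact MM_le _ _

theorem Tight.comp {y : ι → L2 Λ} (h : Tight y) (f : κ → ι) : Tight (y ∘ f) := by
  intro ε hε
  obtain ⟨N, hN⟩ := h ε hε
  exact ⟨N, fun i => hN (f i)⟩

theorem Tight.of_forall {y : ι → L2 Λ} {y' : κ → L2 Λ} (h : Tight y)
    (h' : ∀ j, ∃ i, y' j = y i) : Tight y' := by
  intro ε hε
  obtain ⟨N, hN⟩ := h ε hε
  refine ⟨N, fun j => ?_⟩
  obtain ⟨i, hi⟩ := h' j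
  rw [hi]
  exact hN i

theorem Tight.or {α : Type} {y : ι → L2 Λ} {y₁ : κ → L2 Λ} {y₂ : α → L2 Λ} (h₁ : Tight y₁)
    (h₂ : Tight y₂) (h : ∀ i, (∃ j, y i = y₁ j) ∨ ∃ j, y i = y₂ j) : Tight y := by
  intro ε hε
  obtain ⟨N, hN⟩ := h₁ ε hε
  obtain ⟨M, hM⟩ := h₂ ε hε
  refine ⟨max N M, fun i => ?_⟩
  rcases h i with ⟨j, hj⟩ | ⟨j, hj⟩
  · obtain ⟨z, hz, hyz⟩ := hN j
    exact ⟨z, hz.mono (le_max_left _ _), by rw [hj]; exact hyz⟩
  · obtain ⟨z, hz, hyz⟩ := hM j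
    exact ⟨z, hz.mono (le_max_right _ _), by rw [hj]; exact hyz⟩

theorem Tight.add {y y' : ι → L2 Λ} (h : Tight y) (h' : Tight y') :
    Tight (fun i => y i + y' i) := by
  intro ε hε
  obtain ⟨N, hN⟩ := h (ε / 2) (half_pos hε)
  obtain ⟨M, hM⟩ := h' (ε / 2) (half_pos hε)
  refine ⟨N + M, fun i => ?_⟩
  obtain ⟨z, hz, hyz⟩ := hN i
  obtain ⟨z', hz', hyz'⟩ := hM i
  refine ⟨z + z', hz.add hz', ?_⟩
  have e : y i + y' i - (z + z') = (y i - z) + (y' i - z') := by abel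
  rw [e]
  refine (norm_add_le _ _).trans ?_
  linarith

theorem Tight.smul {y : ι → L2 Λ} (c : ℂ) (h : Tight y) : Tight (fun i => c • y i) := by
  intro ε hε
  obtain ⟨N, hN⟩ := h (ε / (‖c‖ + 1)) (by positivity)
  refine ⟨N, fun i => ?_⟩
  obtain ⟨z, hz, hyz⟩ := hN i
  refine ⟨c • z, hz.smul c, ?_⟩
  rw [← smul_sub, norm_smul]
  calc ‖c‖ * ‖y i - z‖ ≤ (‖c‖ + 1) * (ε / (‖c‖ + 1)) := by gcongr; linarith
    _ = ε := by field_simp

theorem Tight.limit {y : ι → L2 Λ}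
    (h : ∀ ε : ℝ, 0 < ε → ∃ y' : ι → L2 Λ, Tight y' ∧ ∀ i, ‖y i - y' i‖ ≤ ε) : Tight y := by
  intro ε hε
  obtain ⟨y', h1, h2⟩ := h (ε / 2) (half_pos hε)
  obtain ⟨N, hN⟩ := h1 (ε / 2) (half_pos hε)
  refine ⟨N, fun i => ?_⟩
  obtain ⟨z, hz, hyz⟩ := hN i
  refine ⟨z, hz, ?_⟩
  have e : y i - z = (y i - y' i) + (y' i - z) := by abel
  rw [e]
  refine (norm_add_le _ _).trans ?_
  have := h2 i
  linarith

theorem exists_sp (f : L2 Λ) {ε : ℝ} (hε : 0 < ε) : ∃ N : ℕ, ∃ z, Sp N z ∧ ‖f - z‖ ≤ ε := by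
  classical
  obtain ⟨F, hF⟩ := exists_approx f hε
  refine ⟨F.card * 1, ∑ s ∈ F, f s • (dl s : L2 Λ), ?_, hF.le⟩
  refine Sp.sum F _ fun s _ => Sp.smul _ ⟨{s}, by simp, fun x hx => ?_⟩
  rw [Finset.mem_singleton] at hx
  exact dl_apply_ne hx

theorem tight_const (f : L2 Λ) : Tight (fun _ : ι => f) := by
  intro ε hε
  obtain ⟨N, z, hz, hf⟩ := exists_sp f hε
  exact ⟨N, fun _ => ⟨z, hz, hf⟩⟩

theorem tight_finite [Finite ι] (y : ι → L2 Λ) : Tight y := by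
  intro ε hε
  choose N hN using fun i => exists_sp (y i) hε
  have := Fintype.ofFinite ι
  refine ⟨∑ i, N i, fun i => ?_⟩
  obtain ⟨z, hz, hyz⟩ := hN i
  exact ⟨z, hz.mono (Finset.single_le_sum (f := N) (fun _ _ => Nat.zero_le _)
    (Finset.mem_univ i)), hyz⟩

end basic

section group

variable {ι J Λ : Type} [Group Λ]

theorem Sp.tr {N : ℕ} {z : L2 Λ} (a : Λ) (h : Sp N z) : Sp N (rgt a z) := by
  classical
  obtain ⟨F, hF, hz⟩ := h
  refine ⟨F.image (fun s => s * a), Finset.card_image_le.trans hF, fun x hx => ?_⟩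
  rw [rgt_apply]
  refine hz _ fun h => hx ?_
  rw [Finset.mem_image]
  exact ⟨x * a⁻¹, h, by group⟩

theorem Tight.tr {y : ι → L2 Λ} (a : Λ) (h : Tight y) :
    Tight (fun i => rgt a (y i)) := by
  intro ε hε
  obtain ⟨N, hN⟩ := h ε hε
  refine ⟨N, fun i => ?_⟩
  obtain ⟨z, hz, hyz⟩ := hN i
  refine ⟨rgt a z, hz.tr a, ?_⟩
  rw [← map_sub, norm_rgt]
  exact hyz

theorem LG_rgt {T : Op Λ} (hT : T ∈ LG Λ) (a : Λ) (ξ : L2 Λ) :
    T (rgt a ξ) = rgt a (T ξ) :=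
  (congrArg (fun z : Op Λ => z ξ) (mem_LG.1 hT a)).symm

/-- **Products of tight families are tight.** -/
theorem Tight.app {T : J → Op Λ} (hT : ∀ j, T j ∈ LG Λ) (hT1 : ∀ j ξ, ‖T j ξ‖ ≤ ‖ξ‖)
    (hTt : Tight fun j => T j (dl 1)) {y : ι → L2 Λ} {C : ℝ} (hC : ∀ i, ‖y i‖ ≤ C)
    (hy : Tight y) : Tight fun p : J × ι => T p.1 (y p.2) := by
  classical
  intro ε hε
  by_cases hne : Nonempty ι
  · have hC0 : 0 ≤ C := (norm_nonneg _).trans (hC hne.some)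
    obtain ⟨N, hN⟩ := hy.bdd (half_pos hε)
    obtain ⟨M, hM⟩ := hTt (ε / (2 * (N * C + 1))) (by positivity)
    refine ⟨N * M, ?_⟩
    rintro ⟨j, i⟩
    obtain ⟨F, hF, hyz⟩ := hN i
    obtain ⟨w, hw, hTw⟩ := hM j
    refine ⟨∑ s ∈ F, (y i) s • rgt s w, (Sp.sum F _ fun s _ => (hw.tr s).smul _).mono
      (Nat.mul_le_mul_right _ hF), ?_⟩
    have e1 : T j (y i) - ∑ s ∈ F, (y i) s • rgt s w =
        T j (y i - ∑ s ∈ F, (y i) s • (dl s : L2 Λ)) +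
          ∑ s ∈ F, (y i) s • rgt s (T j (dl 1) - w) := by
      have e2 : ∀ s, rgt s (T j (dl 1)) = T j (dl s) := by
        intro s
        rw [← LG_rgt (hT j), rgt_dl, one_mul]
      simp only [map_sub, map_sum, map_smul, smul_sub, Finset.sum_sub_distrib, e2]
      abel
    show ‖T j (y i) - ∑ s ∈ F, (y i) s • rgt s w‖ ≤ ε
    rw [e1]
    refine (norm_add_le _ _).trans ?_
    have h1 : ‖T j (y i - ∑ s ∈ F, (y i) s • (dl s : L2 Λ))‖ ≤ ε / 2 := (hT1 _ _).trans hyz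
    have h2 : ‖∑ s ∈ F, (y i) s • rgt s (T j (dl 1) - w)‖ ≤ ε / 2 := by
      refine (norm_sum_le _ _).trans ?_
      calc ∑ s ∈ F, ‖(y i) s • rgt s (T j (dl 1) - w)‖
          ≤ ∑ _s ∈ F, C * (ε / (2 * (N * C + 1))) := by
            refine Finset.sum_le_sum fun s _ => ?_
            rw [norm_smul, norm_rgt]
            have h3 : ‖(y i) s‖ ≤ C :=
              (lp.norm_apply_le_norm (by norm_num) _ _).trans (hC i)
            gcongr
        _ = F.card * (C * (ε / (2 * (N * C + 1)))) := by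
            rw [Finset.sum_const, nsmul_eq_mul]
        _ ≤ N * (C * (ε / (2 * (N * C + 1)))) := by gcongr
        _ = ε / 2 * (N * C / (N * C + 1)) := by field_simp
        _ ≤ ε / 2 * 1 := by
            gcongr
            rw [div_le_one (by positivity)]
            linarith
        _ = ε / 2 := mul_one _
    linarith
  · exact ⟨0, fun p => absurd ⟨p.2⟩ hne⟩

end group

end

end Pool.Agent.H52.TF
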