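import Mathlib

/-!
# Transvections in `SL_n(ℤ)`
-/

set_option autoImplicit false
set_option linter.unusedSectionVars false

namespace Pool.Agent.H52.TF

open Matrix
open scoped Pointwise

section trans

variable {n : ℕ}

theorem cmul (A B : SpecialLinearGroup (Fin n) ℤ) :
    ((A * B : SpecialLinearGroup (Fin n) ℤ) : Matrix (Fin n) (Fin n) ℤ) =
      (A : Matrix (Fin n) (Fin n) ℤ) * (B : Matrix (Fin n) (Fin n) ℤ) := rfl

theorem cone : ((1 : SpecialLinearGroup (Fin n) ℤ) : Matrix (Fin n) (Fin n) ℤ) = 1 := rfl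

theorem slext {A B : SpecialLinearGroup (Fin n) ℤ}
    (h : (A : Matrix (Fin n) (Fin n) ℤ) = (B : Matrix (Fin n) (Fin n) ℤ)) : A = B :=
  Subtype.ext h

/-- the transvection `1 + u ⊗ ψ` -/
def T (u ψ : Fin n → ℤ) (h : ψ ⬝ᵥ u = 0) : SpecialLinearGroup (Fin n) ℤ :=
  ⟨1 + vecMulVec u ψ, by
    rw [vecMulVec_eq Unit, det_one_add_replicateCol_mul_replicateRow, h, add_zero]⟩

theorem T_coe (u ψ : Fin n → ℤ) (h : ψ ⬝ᵥ u = 0) :
    (T u ψ h : Matrix (Fin n) (Fin n) ℤ) = 1 + vecMulVec u ψ := rfl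

theorem T_congr {u u' ψ ψ' : Fin n → ℤ} (h : ψ ⬝ᵥ u = 0) (h' : ψ' ⬝ᵥ u' = 0)
    (e : vecMulVec u ψ = vecMulVec u' ψ') : T u ψ h = T u' ψ' h' := by
  apply slext
  rw [T_coe, T_coe, e]

theorem T_add (u w ψ : Fin n → ℤ) (h : ψ ⬝ᵥ u = 0) (h' : ψ ⬝ᵥ w = 0) :
    T u ψ h * T w ψ h' = T (u + w) ψ (by rw [dotProduct_add, h, h', add_zero]) := by
  apply slext
  rw [cmul, T_coe, T_coe, T_coe, add_vecMulVec, add_mul, mul_add, mul_add,
    one_mul, one_mul, mul_one, vecMulVec_mul_vecMulVec, h', zero_smul, vecMulVec_zero]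
  abel

theorem T_add' (u ψ χ : Fin n → ℤ) (h : ψ ⬝ᵥ u = 0) (h' : χ ⬝ᵥ u = 0) :
    T u ψ h * T u χ h' = T u (ψ + χ) (by rw [add_dotProduct, h, h', add_zero]) := by
  apply slext
  rw [cmul, T_coe, T_coe, T_coe, vecMulVec_add, add_mul, mul_add, mul_add,
    one_mul, one_mul, mul_one, vecMulVec_mul_vecMulVec, h, zero_smul, vecMulVec_zero]
  abel

theorem T_zero (ψ : Fin n → ℤ) (h : ψ ⬝ᵥ (0 : Fin n → ℤ) = 0) : T 0 ψ h = 1 := by
  apply slext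
  rw [T_coe, zero_vecMulVec, add_zero]
  rfl

theorem T_zpow (u ψ : Fin n → ℤ) (h : ψ ⬝ᵥ u = 0) (k : ℤ) :
    (T u ψ h) ^ k = T (k • u) ψ (by rw [dotProduct_smul, h, smul_zero]) := by
  have hstep : ∀ k : ℤ, ∀ hk : ψ ⬝ᵥ (k • u) = 0, ∀ hk' : ψ ⬝ᵥ ((k + 1) • u) = 0,
      T (k • u) ψ hk * T u ψ h = T ((k + 1) • u) ψ hk' := by
    intro k hk hk'
    rw [T_add]
    refine T_congr _ _ ?_
    rw [add_smul, one_smul]
  have hk0 : ∀ k : ℤ, ψ ⬝ᵥ (k • u) = 0 := fun k => by rw [dotProduct_smul, h, smul_zero]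
  induction k using Int.induction_on with
  | zero =>
    rw [zpow_zero]
    apply slext
    rw [T_coe, zero_smul, zero_vecMulVec, add_zero]
    rfl
  | succ k ih =>
    rw [_root_.zpow_add_one, ih, hstep k (hk0 _) (hk0 _)]
  | pred k ih =>
    rw [_root_.zpow_sub_one, ih, mul_inv_eq_iff_eq_mul, hstep _ (hk0 _) (hk0 _)]
    refine T_congr _ _ ?_
    rw [sub_add_cancel]

theorem T_pow (u ψ : Fin n → ℤ) (h : ψ ⬝ᵥ u = 0) (k : ℕ) :
    (T u ψ h) ^ k = T ((k : ℤ) • u) ψ (by rw [dotProduct_smul, h, smul_zero]) := by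
  rw [← zpow_natCast, T_zpow]

theorem coe_mul_inv (g : SpecialLinearGroup (Fin n) ℤ) :
    (g : Matrix (Fin n) (Fin n) ℤ) * ((g⁻¹ : SpecialLinearGroup (Fin n) ℤ) :
      Matrix (Fin n) (Fin n) ℤ) = 1 := by
  rw [← cmul, mul_inv_cancel, cone]

theorem coe_inv_mul (g : SpecialLinearGroup (Fin n) ℤ) :
    ((g⁻¹ : SpecialLinearGroup (Fin n) ℤ) : Matrix (Fin n) (Fin n) ℤ) *
      (g : Matrix (Fin n) (Fin n) ℤ) = 1 := by
  rw [← cmul, inv_mul_cancel, cone]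

theorem dot_conj (g : SpecialLinearGroup (Fin n) ℤ) (u ψ : Fin n → ℤ) :
    (ψ ᵥ* ((g⁻¹ : SpecialLinearGroup (Fin n) ℤ) : Matrix (Fin n) (Fin n) ℤ)) ⬝ᵥ
      ((g : Matrix (Fin n) (Fin n) ℤ) *ᵥ u) = ψ ⬝ᵥ u := by
  rw [dotProduct_mulVec, vecMul_vecMul, coe_inv_mul, vecMul_one]

/-- conjugation of a transvection -/
theorem T_conj (g : SpecialLinearGroup (Fin n) ℤ) (u ψ : Fin n → ℤ) (h : ψ ⬝ᵥ u = 0)
    (u' ψ' : Fin n → ℤ) (h' : ψ' ⬝ᵥ u' = 0)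
    (hu : (g : Matrix (Fin n) (Fin n) ℤ) *ᵥ u = u')
    (hψ : ψ ᵥ* ((g⁻¹ : SpecialLinearGroup (Fin n) ℤ) : Matrix (Fin n) (Fin n) ℤ) = ψ') :
    g * T u ψ h * g⁻¹ = T u' ψ' h' := by
  apply slext
  rw [cmul, cmul, T_coe, T_coe, mul_add, mul_one,
    mul_vecMulVec, add_mul, coe_mul_inv, vecMulVec_mul, hu, hψ]

theorem T_mulVec (u ψ x : Fin n → ℤ) (h : ψ ⬝ᵥ u = 0) :
    (T u ψ h : Matrix (Fin n) (Fin n) ℤ) *ᵥ x = x + (ψ ⬝ᵥ x) • u := by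
  rw [T_coe, add_mulVec, one_mulVec, vecMulVec_mulVec]
  congr 1
  ext i
  simp [mul_comm]

theorem vecMul_T (u ψ χ : Fin n → ℤ) (h : ψ ⬝ᵥ u = 0) :
    χ ᵥ* (T u ψ h : Matrix (Fin n) (Fin n) ℤ) = χ + (χ ⬝ᵥ u) • ψ := by
  rw [T_coe, vecMul_add, vecMul_one, vecMul_vecMulVec]

theorem T_inv (u ψ : Fin n → ℤ) (h : ψ ⬝ᵥ u = 0) :
    (T u ψ h)⁻¹ = T (-u) ψ (by rw [dotProduct_neg, h, neg_zero]) := by
  have h1 := T_zpow u ψ h (-1)
  rw [_root_.zpow_neg_one] at h1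
  rw [h1]
  refine T_congr _ _ ?_
  rw [neg_smul, one_smul]

/-- independence of two integral vectors -/
def Ind (w₁ w₂ : Fin n → ℤ) : Prop := ∃ p q, w₁ p * w₂ q - w₁ q * w₂ p ≠ 0

/-- `X` maps `u` to a multiple of itself, and fixes the functionals which vanish at `u` up to
the same multiple -/
def Eig (X : Matrix (Fin n) (Fin n) ℤ) (u : Fin n → ℤ) : Prop :=
  ∀ ψ : Fin n → ℤ, ψ ⬝ᵥ u = 0 → vecMulVec (X *ᵥ u) ψ = vecMulVec u (ψ ᵥ* X)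

theorem Eig.exists {X : Matrix (Fin n) (Fin n) ℤ} {u : Fin n → ℤ} (h : Eig X u)
    (hu : ∃ i, u i ≠ 0) (hψ : ∃ ψ : Fin n → ℤ, ψ ⬝ᵥ u = 0 ∧ ∃ j, ψ j ≠ 0) :
    ∃ t : ℚ, (∀ i, (((X *ᵥ u) i : ℤ) : ℚ) = t * u i) ∧
      ∀ ψ : Fin n → ℤ, ψ ⬝ᵥ u = 0 → ∀ j, (((ψ ᵥ* X) j : ℤ) : ℚ) = t * ψ j := by
  obtain ⟨ψ₀, h0, j₀, hj₀⟩ := hψ
  obtain ⟨i₀, hi₀⟩ := hu
  have hent : ∀ ψ : Fin n → ℤ, ψ ⬝ᵥ u = 0 → ∀ i j,
      (((X *ᵥ u) i : ℤ) : ℚ) * ψ j = u i * ((ψ ᵥ* X) j : ℤ) := by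
    intro ψ hψ i j
    have := congrFun (congrFun (h ψ hψ) i) j
    rw [vecMulVec_apply, vecMulVec_apply] at this
    exact_mod_cast this
  have hj' : (ψ₀ j₀ : ℚ) ≠ 0 := by exact_mod_cast hj₀
  have hi' : (u i₀ : ℚ) ≠ 0 := by exact_mod_cast hi₀
  refine ⟨((ψ₀ ᵥ* X) j₀ : ℤ) / ψ₀ j₀, ?_, ?_⟩
  · intro i
    have h1 := hent ψ₀ h0 i j₀
    field_simp
    linarith
  · intro ψ hψ j
    have h1 := hent ψ₀ h0 i₀ j₀
    have h2 := hent ψ hψ i₀ j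
    have h3 : (((ψ ᵥ* X) j : ℤ) : ℚ) = (((X *ᵥ u) i₀ : ℤ) : ℚ) * ψ j / u i₀ := by
      rw [h2]
      field_simp
    have h4 : (((X *ᵥ u) i₀ : ℤ) : ℚ) = u i₀ * ((ψ₀ ᵥ* X) j₀ : ℤ) / ψ₀ j₀ := by
      rw [← h1]
      field_simp
    rw [h3, h4]
    field_simp

theorem single_dot (p : Fin n) (c : ℤ) (u : Fin n → ℤ) : (Pi.single p c : Fin n → ℤ) ⬝ᵥ u = c * u p :=
  single_dotProduct u c p

/-- **Scalar matrices.** -/
theorem scalar_of_eig {X : Matrix (Fin n) (Fin n) ℤ} {w₁ w₂ : Fin n → ℤ} (hind : Ind w₁ w₂)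
    (h1 : Eig X w₁) (h2 : Eig X w₂) (h3 : Eig X (w₁ + w₂)) :
    ∃ t : ℚ, ∀ i j, (X i j : ℚ) = if i = j then t else 0 := by
  classical
  obtain ⟨p, q, hD⟩ := hind
  set D := w₁ p * w₂ q - w₁ q * w₂ p with hDdef
  set f : Fin n → ℤ := Pi.single p (w₂ q) - Pi.single q (w₂ p) with hf
  set f' : Fin n → ℤ := Pi.single p (w₁ q) - Pi.single q (w₁ p) with hf'
  have f2 : f ⬝ᵥ w₂ = 0 := by
    rw [hf, sub_dotProduct, single_dot, single_dot]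
    ring
  have f1 : f ⬝ᵥ w₁ = D := by
    rw [hf, sub_dotProduct, single_dot, single_dot]
    ring
  have f1' : f' ⬝ᵥ w₁ = 0 := by
    rw [hf', sub_dotProduct, single_dot, single_dot]
    ring
  have f2' : f' ⬝ᵥ w₂ = -D := by
    rw [hf', sub_dotProduct, single_dot, single_dot]
    ring
  have ne_of_dot : ∀ (ψ u : Fin n → ℤ), ψ ⬝ᵥ u ≠ 0 → (∃ j, ψ j ≠ 0) ∧ ∃ j, u j ≠ 0 := by
    intro ψ u h
    constructor
    · by_contra hc
      push Not at hc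
      exact h (by rw [show ψ = 0 from funext hc, zero_dotProduct])
    · by_contra hc
      push Not at hc
      exact h (by rw [show u = 0 from funext hc, dotProduct_zero])
  have hD' : -D ≠ 0 := neg_ne_zero.2 hD
  obtain ⟨t₁, e1, g1⟩ := h1.exists (ne_of_dot f w₁ (by rw [f1]; exact hD)).2
    ⟨f', f1', (ne_of_dot f' w₂ (by rw [f2']; exact hD')).1⟩
  obtain ⟨t₂, e2, g2⟩ := h2.exists (ne_of_dot f' w₂ (by rw [f2']; exact hD')).2
    ⟨f, f2, (ne_of_dot f w₁ (by rw [f1]; exact hD)).1⟩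
  have f3 : (f + f') ⬝ᵥ (w₁ + w₂) = 0 := by
    rw [add_dotProduct, dotProduct_add, dotProduct_add, f1, f2, f1', f2']
    ring
  have f31 : (f + f') ⬝ᵥ w₁ = D := by
    rw [add_dotProduct, f1, f1', add_zero]
  have f32 : f ⬝ᵥ (w₁ + w₂) = D := by
    rw [dotProduct_add, f1, f2, add_zero]
  obtain ⟨t₃, e3, g3⟩ := h3.exists (ne_of_dot f (w₁ + w₂) (by rw [f32]; exact hD)).2
    ⟨f + f', f3, (ne_of_dot (f + f') w₁ (by rw [f31]; exact hD)).1⟩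
  have hlin : ∀ i, (t₃ - t₁) * w₁ i + (t₃ - t₂) * w₂ i = 0 := by
    intro i
    have h4 := e3 i
    rw [mulVec_add, Pi.add_apply, Pi.add_apply] at h4
    push_cast at h4
    rw [e1, e2] at h4
    linarith
  have hDq : (w₁ p * w₂ q - w₁ q * w₂ p : ℚ) ≠ 0 := by exact_mod_cast hD
  have h5 : t₃ - t₁ = 0 := by
    have hp := hlin p
    have hq := hlin q
    have : (t₃ - t₁) * (w₁ p * w₂ q - w₁ q * w₂ p : ℚ) = 0 := by
      linear_combination (w₂ q : ℚ) * hp - (w₂ p : ℚ) * hq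
    exact (mul_eq_zero.1 this).resolve_right hDq
  have h6 : t₃ - t₂ = 0 := by
    have hp := hlin p
    have hq := hlin q
    have : (t₃ - t₂) * (w₁ p * w₂ q - w₁ q * w₂ p : ℚ) = 0 := by
      linear_combination (w₁ p : ℚ) * hq - (w₁ q : ℚ) * hp
    exact (mul_eq_zero.1 this).resolve_right hDq
  have h7 : t₂ = t₁ := by linarith
  refine ⟨t₁, fun i j => ?_⟩
  set ψ : Fin n → ℤ := Pi.single i D - w₁ i • f with hψ
  have hψ1 : ψ ⬝ᵥ w₁ = 0 := by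
    rw [hψ, sub_dotProduct, single_dot, smul_dotProduct, f1, smul_eq_mul]
    ring
  have h8 := g1 ψ hψ1 j
  have h9 := g2 f f2 j
  rw [h7] at h9
  have h10 : (Pi.single i D : Fin n → ℤ) = ψ + w₁ i • f := by rw [hψ, sub_add_cancel]
  have h11 : ((Pi.single i D : Fin n → ℤ) ᵥ* X) j = D * X i j := by
    rw [single_vecMul]
    simp
  rw [h10, add_vecMul, Pi.add_apply, smul_vecMul, Pi.smul_apply, smul_eq_mul] at h11
  have h12 : (D : ℚ) * X i j = t₁ * (ψ j + w₁ i * f j) := by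
    have h13 : ((D * X i j : ℤ) : ℚ) = (((ψ ᵥ* X) j + w₁ i * (f ᵥ* X) j : ℤ) : ℚ) := by
      exact_mod_cast h11.symm
    push_cast at h13
    rw [h13, h8, h9]
    ring
  have h14 : (ψ j : ℚ) + w₁ i * f j = if i = j then (D : ℚ) else 0 := by
    have h15 := congrFun h10 j
    rw [Pi.add_apply, Pi.smul_apply, smul_eq_mul] at h15
    have h16 : ((ψ j + w₁ i * f j : ℤ) : ℚ) = (((Pi.single i D : Fin n → ℤ) j : ℤ) : ℚ) := by
      exact_mod_cast h15.symm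
    push_cast at h16
    rw [h16, Pi.single_apply]
    by_cases hij : i = j
    · rw [if_pos hij, if_pos hij.symm]
    · rw [if_neg hij, if_neg (Ne.symm hij)]
      simp
  rw [h14] at h12
  have hDq' : (D : ℚ) ≠ 0 := by exact_mod_cast hD
  by_cases hij : i = j
  · rw [if_pos hij] at h12 ⊢
    have : (D : ℚ) * (X i j - t₁) = 0 := by linear_combination h12
    have := (mul_eq_zero.1 this).resolve_left hDq'
    linarith
  · rw [if_neg hij, mul_zero] at h12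
    rw [if_neg hij]
    exact (mul_eq_zero.1 h12).resolve_left hDq'

/-- unimodular scalar matrices are `1` or `-1` -/
theorem pm_one {X : Matrix (Fin n) (Fin n) ℤ} (hn : 0 < n) (hdet : X.det = 1)
    (h : ∃ t : ℚ, ∀ i j, (X i j : ℚ) = if i = j then t else 0) : X = 1 ∨ X = -1 := by
  obtain ⟨t, ht⟩ := h
  set i₀ : Fin n := ⟨0, hn⟩
  have h1 : X = (X i₀ i₀) • (1 : Matrix (Fin n) (Fin n) ℤ) := by
    ext i j
    rw [Matrix.smul_apply, one_apply]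
    have h2 := ht i j
    have h3 := ht i₀ i₀
    rw [if_pos rfl] at h3
    by_cases hij : i = j
    · rw [if_pos hij] at h2 ⊢
      have : (X i j : ℚ) = X i₀ i₀ := by rw [h2, h3]
      simpa using (by exact_mod_cast this : X i j = X i₀ i₀)
    · rw [if_neg hij] at h2 ⊢
      simpa using (by exact_mod_cast h2 : X i j = 0)
  have h4 : (X i₀ i₀) ^ n = 1 := by
    rw [h1, det_smul, det_one, mul_one, Fintype.card_fin] at hdet
    exact hdet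
  have h5 : IsUnit (X i₀ i₀) := by
    refine IsUnit.of_mul_eq_one ((X i₀ i₀) ^ (n - 1)) ?_
    rw [← pow_succ', Nat.sub_add_cancel hn, h4]
  rcases Int.isUnit_iff.1 h5 with h6 | h6
  · left
    rw [h1, h6, one_smul]
  · right
    rw [h1, h6, neg_smul, one_smul]

end trans

end Pool.Agent.H52.TF
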